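import Mathlib

/-!
# Row Box: the box principle for power series

n = number of indices i, power series c i with Σ_t |c i t| ρ^t ≤ M0, M0 ≥ 1, 0 ≤ ℓ ≤ ρ, λ = ℓ/ρ,
2 T < n, 44 T n^2 M0^2 λ^T ≤ 1.  Then there are integers w i, not all 0, with
|Σ_i w i F_i(u)| < 1 for all 0 ≤ u ≤ ℓ, where F_i(u) = Σ_t c i t u^t.

PROOF. Q = ⌈8 T n M0⌉ + 2 (natural), so 8 T n M0 + 2 ≤ Q ≤ 8 T n M0 + 3 ≤ 11 T n M0.
For v : ι → {0, ..., Q-1} and t < T put V_t(v) = Σ_i v_i c i t ℓ^t; since |c i t| ℓ^t ≤ |c i t| ρ^t ≤ M0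
we have |V_t| ≤ Q n M0.  The integer ⌊4 T V_t⌋ lies in [-4TQnM0 - 1, 4TQnM0], at most
8 T Q n M0 + 2 ≤ (Q - 2) Q + 2 ≤ Q^2 values.  So the map v ↦ (⌊4 T V_t(v)⌋)_{t<T} goes from a set with Q^n
elements to a set with at most (Q^2)^T = Q^(2T) < Q^n elements: two vectors v ≠ v' have the same image.
w = v - v': |w_i| ≤ Q, w ≠ 0, |Σ_i w_i c i t| ℓ^t ≤ 1/(4T) for t < T.  For 0 ≤ u ≤ ℓ:
Σ_i w_i F_i(u) = Σ_t (Σ_i w_i c i t) u^t; the part t < T is at most T/(4T) = 1/4 in absolute value,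
the part t ≥ T is at most Σ_i Q Σ_{t ≥ T} |c i t| ρ^t λ^t ≤ Q n M0 λ^T ≤ 11 T n^2 M0^2 λ^T ≤ 1/4.
-/

namespace Pool.H74.HL

open Finset

theorem Box_main {ι : Type*} [Fintype ι] (c : ι → ℕ → ℝ) (F : ι → ℝ → ℝ) (ρ ℓ M₀ : ℝ) (T : ℕ)
    (hρ : 0 < ρ) (hℓ : 0 ≤ ℓ) (hℓρ : ℓ ≤ ρ) (hM₀ : 1 ≤ M₀)
    (hs : ∀ i, Summable (fun t => |c i t| * ρ ^ t)) (hc : ∀ i, ∑' t, |c i t| * ρ ^ t ≤ M₀)
    (hF : ∀ i, ∀ u : ℝ, 0 ≤ u → u ≤ ρ → HasSum (fun t => c i t * u ^ t) (F i u))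
    (hT1 : 1 ≤ T) (hT : 2 * T < Fintype.card ι)
    (hcond : 44 * (T : ℝ) * (Fintype.card ι : ℝ) ^ 2 * M₀ ^ 2 * (ℓ / ρ) ^ T ≤ 1) :
    ∃ w : ι → ℤ, (∃ i, w i ≠ 0) ∧ ∀ u : ℝ, 0 ≤ u → u ≤ ℓ → |∑ i, (w i : ℝ) * F i u| < 1 := by
  classical
  set n : ℝ := (Fintype.card ι : ℝ) with hn
  have hT0 : (1 : ℝ) ≤ (T : ℝ) := by exact_mod_cast hT1
  have hn1 : (1 : ℝ) ≤ n := by
    rw [hn]
    have : 1 ≤ Fintype.card ι := by omega
    exact_mod_cast this
  have hTn : 1 ≤ (T : ℝ) * n * M₀ := by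
    have h1 : 1 ≤ (T : ℝ) * n := by nlinarith
    nlinarith
  set P : ℝ := 8 * (T : ℝ) * n * M₀ with hP
  have hP0 : 0 ≤ P := by rw [hP]; nlinarith
  set Q : ℕ := ⌈P⌉₊ + 2 with hQ
  have hQl : P + 2 ≤ (Q : ℝ) := by
    rw [hQ]
    push_cast
    have := Nat.le_ceil P
    linarith
  have hQu : (Q : ℝ) ≤ P + 3 := by
    rw [hQ]
    push_cast
    have := Nat.ceil_lt_add_one hP0
    linarith
  have hQ11 : (Q : ℝ) ≤ 11 * (T : ℝ) * n * M₀ := by
    have : P + 3 ≤ 11 * (T : ℝ) * n * M₀ := by rw [hP]; nlinarith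
    linarith
  have hQ2 : 2 ≤ Q := by rw [hQ]; omega
  have hQ2r : (2 : ℝ) ≤ (Q : ℝ) := by exact_mod_cast hQ2
  have hct : ∀ i t, |c i t| * ρ ^ t ≤ M₀ := by
    intro i t
    refine le_trans ?_ (hc i)
    exact (hs i).le_tsum t (fun j _ => by positivity)
  have hctl : ∀ i t, |c i t| * ℓ ^ t ≤ M₀ := by
    intro i t
    refine le_trans ?_ (hct i t)
    exact mul_le_mul_of_nonneg_left (pow_le_pow_left₀ hℓ hℓρ t) (abs_nonneg _)
  let V : (ι → Fin Q) → ℕ → ℝ := fun v t => ∑ i, ((v i : ℕ) : ℝ) * c i t * ℓ ^ t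
  have hV : ∀ v t, |V v t| ≤ (Q : ℝ) * n * M₀ := by
    intro v t
    calc |V v t| ≤ ∑ i, |((v i : ℕ) : ℝ) * c i t * ℓ ^ t| := Finset.abs_sum_le_sum_abs _ _
      _ ≤ ∑ _i : ι, (Q : ℝ) * M₀ := by
          refine Finset.sum_le_sum (fun i _ => ?_)
          rw [abs_mul, abs_mul, abs_of_nonneg (Nat.cast_nonneg _), abs_of_nonneg (pow_nonneg hℓ t),
            mul_assoc]
          have h1 : ((v i : ℕ) : ℝ) ≤ (Q : ℝ) := by
            have := (v i).2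
            exact_mod_cast this.le
          exact mul_le_mul h1 (hctl i t) (by positivity) (by positivity)
      _ = (Q : ℝ) * n * M₀ := by
          rw [Finset.sum_const, Finset.card_univ, nsmul_eq_mul, ← hn]
          ring
  set K : ℝ := (Q : ℝ) * ((Q : ℝ) - 2) / 2 with hK
  have hVK : ∀ v t, |4 * (T : ℝ) * V v t| ≤ K := by
    intro v t
    rw [abs_mul, abs_of_nonneg (by positivity : (0 : ℝ) ≤ 4 * (T : ℝ))]
    calc 4 * (T : ℝ) * |V v t| ≤ 4 * (T : ℝ) * ((Q : ℝ) * n * M₀) :=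
          mul_le_mul_of_nonneg_left (hV v t) (by positivity)
      _ = (Q : ℝ) * P / 2 := by rw [hP]; ring
      _ ≤ K := by
          rw [hK]
          have : (Q : ℝ) * P ≤ (Q : ℝ) * ((Q : ℝ) - 2) :=
            mul_le_mul_of_nonneg_left (by linarith) (by positivity)
          linarith
  let f : (ι → Fin Q) → (Fin T → ℤ) := fun v t => ⌊4 * (T : ℝ) * V v (t : ℕ)⌋
  have hmaps : ∀ v ∈ (Finset.univ : Finset (ι → Fin Q)),
      f v ∈ Fintype.piFinset (fun _ : Fin T => Finset.Icc ⌊-K⌋ ⌊K⌋) := by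
    intro v _
    rw [Fintype.mem_piFinset]
    intro t
    rw [Finset.mem_Icc]
    have h := abs_le.mp (hVK v t)
    exact ⟨Int.floor_le_floor h.1, Int.floor_le_floor h.2⟩
  have hcardI : (Finset.Icc ⌊-K⌋ ⌊K⌋).card ≤ Q ^ 2 := by
    rw [Int.card_Icc]
    have h1 : (⌊K⌋ : ℝ) ≤ K := Int.floor_le K
    have h2 : -K - 1 < (⌊-K⌋ : ℝ) := Int.sub_one_lt_floor (-K)
    have h3 : ((⌊K⌋ + 1 - ⌊-K⌋ : ℤ) : ℝ) ≤ ((Q ^ 2 : ℕ) : ℝ) := by
      push_cast
      have : 2 * K + 2 ≤ (Q : ℝ) ^ 2 := by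
        rw [hK]
        nlinarith
      linarith
    have h4 : (⌊K⌋ + 1 - ⌊-K⌋ : ℤ) ≤ ((Q ^ 2 : ℕ) : ℤ) := by exact_mod_cast h3
    exact Int.toNat_le.mpr h4
  have hcard : (Fintype.piFinset (fun _ : Fin T => Finset.Icc ⌊-K⌋ ⌊K⌋)).card
      < (Finset.univ : Finset (ι → Fin Q)).card := by
    rw [Fintype.card_piFinset, Finset.card_univ, Fintype.card_fun, Fintype.card_fin,
      Finset.prod_const, Finset.card_univ, Fintype.card_fin]
    calc (Finset.Icc ⌊-K⌋ ⌊K⌋).card ^ T ≤ (Q ^ 2) ^ T := Nat.pow_le_pow_left hcardI T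
      _ = Q ^ (2 * T) := by rw [← pow_mul]
      _ < Q ^ Fintype.card ι := Nat.pow_lt_pow_right (by omega) hT
  obtain ⟨v, -, v', -, hne, hfe⟩ := Finset.exists_ne_map_eq_of_card_lt_of_maps_to hcard hmaps
  refine ⟨fun i => ((v i : ℕ) : ℤ) - ((v' i : ℕ) : ℤ), ?_, ?_⟩
  · by_contra hcon
    push Not at hcon
    apply hne
    funext i
    have := hcon i
    apply Fin.ext
    omega
  intro u hu huℓ
  set w : ι → ℝ := fun i => ((v i : ℕ) : ℝ) - ((v' i : ℕ) : ℝ) with hw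
  have hwc : ∀ i, ((((v i : ℕ) : ℤ) - ((v' i : ℕ) : ℤ) : ℤ) : ℝ) = w i := by
    intro i
    rw [hw]
    push_cast
    ring
  simp only [hwc]
  have hwQ : ∀ i, |w i| ≤ (Q : ℝ) := by
    intro i
    rw [hw, abs_le]
    have h1 : ((v i : ℕ) : ℝ) ≤ (Q : ℝ) := by exact_mod_cast (v i).2.le
    have h2 : ((v' i : ℕ) : ℝ) ≤ (Q : ℝ) := by exact_mod_cast (v' i).2.le
    have h3 : (0 : ℝ) ≤ ((v i : ℕ) : ℝ) := Nat.cast_nonneg _
    have h4 : (0 : ℝ) ≤ ((v' i : ℕ) : ℝ) := Nat.cast_nonneg _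
    constructor
    · simp only
      linarith
    · simp only
      linarith
  have hsmall : ∀ t, t < T → |∑ i, w i * c i t| * ℓ ^ t ≤ 1 / (4 * (T : ℝ)) := by
    intro t ht
    have h1 := congrFun hfe ⟨t, ht⟩
    have h2 : ⌊4 * (T : ℝ) * V v t⌋ = ⌊4 * (T : ℝ) * V v' t⌋ := h1
    have h3 := Int.abs_sub_lt_one_of_floor_eq_floor h2
    have h4 : 4 * (T : ℝ) * V v t - 4 * (T : ℝ) * V v' t
        = 4 * (T : ℝ) * ((∑ i, w i * c i t) * ℓ ^ t) := by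
      rw [← mul_sub]
      congr 1
      rw [Finset.sum_mul, ← Finset.sum_sub_distrib]
      refine Finset.sum_congr rfl (fun i _ => ?_)
      rw [hw]
      ring
    rw [h4, abs_mul, abs_of_nonneg (by positivity : (0 : ℝ) ≤ 4 * (T : ℝ)), abs_mul,
      abs_of_nonneg (pow_nonneg hℓ t)] at h3
    rw [le_div_iff₀ (by positivity)]
    linarith
  set lam : ℝ := ℓ / ρ with hlam
  have hlam0 : 0 ≤ lam := div_nonneg hℓ hρ.le
  have hlam1 : lam ≤ 1 := by rw [hlam, div_le_one hρ]; exact hℓρ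
  have hlρ : ℓ = lam * ρ := by rw [hlam]; field_simp
  have hsum : HasSum (fun t => ∑ i, w i * (c i t * u ^ t)) (∑ i, w i * F i u) :=
    hasSum_sum (fun i _ => (hF i u hu (huℓ.trans hℓρ)).mul_left (w i))
  have hb1 : HasSum (fun t : ℕ => if t < T then 1 / (4 * (T : ℝ)) else 0) (1 / 4) := by
    have h : HasSum (fun t : ℕ => if t < T then 1 / (4 * (T : ℝ)) else 0)
        (∑ t ∈ Finset.range T, (if t < T then 1 / (4 * (T : ℝ)) else 0)) :=
      hasSum_sum_of_ne_finset_zero (by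
        intro t ht
        rw [Finset.mem_range] at ht
        simp [ht])
    have h5 : ∑ t ∈ Finset.range T, (if t < T then 1 / (4 * (T : ℝ)) else 0) = 1 / 4 := by
      rw [Finset.sum_congr rfl (fun t ht => if_pos (Finset.mem_range.mp ht)), Finset.sum_const,
        Finset.card_range, nsmul_eq_mul]
      field_simp
    rw [h5] at h
    exact h
  have hb2 : HasSum (fun t => (Q : ℝ) * lam ^ T * ∑ i, |c i t| * ρ ^ t)
      ((Q : ℝ) * lam ^ T * ∑ i, ∑' t, |c i t| * ρ ^ t) :=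
    (hasSum_sum (fun i _ => (hs i).hasSum)).mul_left _
  have hb := hb1.add hb2
  have hbound : ∀ t, ‖∑ i, w i * (c i t * u ^ t)‖ ≤
      (if t < T then 1 / (4 * (T : ℝ)) else 0) + (Q : ℝ) * lam ^ T * ∑ i, |c i t| * ρ ^ t := by
    intro t
    rw [Real.norm_eq_abs]
    have hpos : 0 ≤ (Q : ℝ) * lam ^ T * ∑ i, |c i t| * ρ ^ t := by
      refine mul_nonneg (by positivity) (Finset.sum_nonneg (fun i _ => by positivity))
    by_cases ht : t < T
    · rw [if_pos ht]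
      have h1 : ∑ i, w i * (c i t * u ^ t) = (∑ i, w i * c i t) * u ^ t := by
        rw [Finset.sum_mul]
        exact Finset.sum_congr rfl (fun i _ => by ring)
      rw [h1, abs_mul, abs_of_nonneg (pow_nonneg hu t)]
      have h2 : |∑ i, w i * c i t| * u ^ t ≤ |∑ i, w i * c i t| * ℓ ^ t :=
        mul_le_mul_of_nonneg_left (pow_le_pow_left₀ hu huℓ t) (abs_nonneg _)
      linarith [hsmall t ht]
    · rw [if_neg ht, zero_add]
      calc |∑ i, w i * (c i t * u ^ t)| ≤ ∑ i, |w i * (c i t * u ^ t)| :=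
            Finset.abs_sum_le_sum_abs _ _
        _ ≤ ∑ i, (Q : ℝ) * lam ^ T * (|c i t| * ρ ^ t) := by
            refine Finset.sum_le_sum (fun i _ => ?_)
            rw [abs_mul, abs_mul, abs_of_nonneg (pow_nonneg hu t)]
            have h3 : u ^ t ≤ lam ^ T * ρ ^ t := by
              calc u ^ t ≤ ℓ ^ t := pow_le_pow_left₀ hu huℓ t
                _ = lam ^ t * ρ ^ t := by rw [hlρ, mul_pow]
                _ ≤ lam ^ T * ρ ^ t := by
                    refine mul_le_mul_of_nonneg_right ?_ (by positivity)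
                    exact pow_le_pow_of_le_one hlam0 hlam1 (by omega)
            calc |w i| * (|c i t| * u ^ t) ≤ (Q : ℝ) * (|c i t| * (lam ^ T * ρ ^ t)) := by
                  refine mul_le_mul (hwQ i) ?_ (by positivity) (by positivity)
                  exact mul_le_mul_of_nonneg_left h3 (abs_nonneg _)
              _ = (Q : ℝ) * lam ^ T * (|c i t| * ρ ^ t) := by ring
        _ = (Q : ℝ) * lam ^ T * ∑ i, |c i t| * ρ ^ t := by rw [Finset.mul_sum]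
  have hfin := hsum.norm_le_of_bounded hb hbound
  rw [Real.norm_eq_abs] at hfin
  have hS : ∑ i, ∑' t, |c i t| * ρ ^ t ≤ n * M₀ := by
    calc ∑ i, ∑' t, |c i t| * ρ ^ t ≤ ∑ _i : ι, M₀ := Finset.sum_le_sum (fun i _ => hc i)
      _ = n * M₀ := by rw [Finset.sum_const, Finset.card_univ, nsmul_eq_mul, ← hn]
  have hlT : 0 ≤ lam ^ T := pow_nonneg hlam0 T
  have h6 : (Q : ℝ) * lam ^ T * ∑ i, ∑' t, |c i t| * ρ ^ t ≤ 1 / 4 := by
    calc (Q : ℝ) * lam ^ T * ∑ i, ∑' t, |c i t| * ρ ^ t ≤ (Q : ℝ) * lam ^ T * (n * M₀) :=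
          mul_le_mul_of_nonneg_left hS (by positivity)
      _ ≤ (11 * (T : ℝ) * n * M₀) * lam ^ T * (n * M₀) := by
          refine mul_le_mul_of_nonneg_right ?_ (by positivity)
          exact mul_le_mul_of_nonneg_right hQ11 hlT
      _ = (44 * (T : ℝ) * n ^ 2 * M₀ ^ 2 * lam ^ T) / 4 := by ring
      _ ≤ 1 / 4 := by linarith
  linarith

end Pool.H74.HL
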