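import Mathlib

/-!
# Row Par: choice of the parameters r, T (real analysis only)

Par_cond. X = (1 + log k)^2/η ≥ 1 (k ≥ 1, 0 < η ≤ 1), r ≥ 1, 100 r X ≤ 2^r, T = ⌈40 r X⌉.
* 2T ≤ 80 r X + 2 < 100 r X ≤ 2^r.
* Let lam = min(1/4, k e M^(1-η)/(4M)) = min(1/4, k e M^(-η)/4) > 0, Λ = log(1/lam), so Λ ≥ log 4 and
  Λ ≥ log 4 - 1 - log k + η log M ≥ η log M - log k.  With y = η log M ≥ 1 we have Λ ≥ y/(2(1 + log k)):
  if y ≥ 2 log k then Λ ≥ y - log k ≥ y/2; if y < 2 log k then y/(2(1+log k)) < 1 ≤ log 4 ≤ Λ.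
* T Λ/2 ≥ 40 r X y/(4(1 + log k)) = 10 r (1 + log k) log M.
* log 44 + r (log 64 + log k + log M) ≤ r (3.79 + 4.16 + log k + log M) ≤ r log M (8.95 + log k)
  ≤ 10 r (1 + log k) log M ≤ T Λ/2   (log M ≥ 1 as M ≥ 3).
* log T ≤ T log 2 = T log 4/2 ≤ T Λ/2.
* Sum: log(44 T (64 k M)^r) ≤ T Λ, which is the condition  44 T (16 (4kM))^r lam^T ≤ 1.

Par_main. For given k, η let r be the least natural number ≥ 1 with 100 r X ≤ 2^r (exists).  Then
2^r ≤ 200 r X (r = 1: 2 ≤ 200 X; r ≥ 2: minimality for r-1 ≥ 1 gives 2^(r-1) < 100 (r-1) X).  Par_cond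
gives T and the first four items.  For the last one take logarithms; put y = log(1/η) ≥ 0, and
K = log k ≥ 0.  From r log 2 ≤ log 200 + log r + 2 log(1+K) + y and log r ≤ r/4 + 1 (say) we get
r ≤ C1 (1 + log(1 + K) + y), so for every δ > 0:
   2 log q + e log(4 k r^2 2^r) ≤ 2 log q + e (log 800 + K + 3 log r + 2 log(1+K) + y)
      ≤ e y + δ (k + y) + C(δ)
(log r ≤ δ' r + C(δ'), log k ≤ δ' k + C(δ'), log(1+K) ≤ K).  Choose δ in (0, log q) with
(e + δ)/(log q - δ) ≤ κ (possible as e/log q < κ).  If κ y + C < k then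
k log q - e y - δ (k + y) - C(δ) = (log q - δ) k - (e + δ) y - C(δ)
   > (log q - δ)(κ y + C) - (e + δ) y - C(δ) ≥ (log q - δ) C - C(δ) ≥ 0   for C large.
-/

namespace Pool.H74.HL

theorem Par_cond (k : ℕ) (M η : ℝ) (r : ℕ) (hk : 1 ≤ k) (hM : 3 ≤ M)
    (hη : 1 / Real.log M ≤ η) (hη1 : η ≤ 1) (hr : 1 ≤ r)
    (hr2 : 100 * (r : ℝ) * ((1 + Real.log k) ^ 2 / η) ≤ 2 ^ r) :
    ∃ T : ℕ, 1 ≤ T ∧ 2 * T < 2 ^ r ∧
      44 * (T : ℝ) * (16 * (4 * (k : ℝ) * M)) ^ r *
        (min (1 / 4) ((k : ℝ) * (Real.exp 1 * M ^ (1 - η)) / (4 * M))) ^ T ≤ 1 := by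
  have hL : 0 ≤ Real.log k := Real.log_nonneg (by exact_mod_cast hk)
  have hkpos : (0 : ℝ) < k := by exact_mod_cast hk
  have hMpos : 0 < M := by linarith
  have hm : 1 ≤ Real.log M := by
    rw [Real.le_log_iff_exp_le hMpos]
    exact (Real.exp_one_lt_d9.le.trans (by norm_num)).trans hM
  have hmpos : 0 < Real.log M := by linarith
  have hηpos : 0 < η := lt_of_lt_of_le (by positivity) hη
  set L := Real.log k with hLd
  set m := Real.log M with hmd
  have hy : 1 ≤ η * m := by rwa [div_le_iff₀ hmpos] at hη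
  set X := (1 + L) ^ 2 / η with hXd
  have hXη : X * η = (1 + L) ^ 2 := by rw [hXd, div_mul_cancel₀ _ hηpos.ne']
  have hX : 1 ≤ X := by
    rw [hXd, le_div_iff₀ hηpos]
    nlinarith
  have hrR : (1 : ℝ) ≤ r := by exact_mod_cast hr
  have hrX : 1 ≤ (r : ℝ) * X := one_le_mul_of_one_le_of_one_le hrR hX
  obtain ⟨T, hTl, hTu⟩ : ∃ T : ℕ, 40 * ((r : ℝ) * X) ≤ T ∧ (T : ℝ) < 40 * ((r : ℝ) * X) + 1 :=
    ⟨⌈40 * ((r : ℝ) * X)⌉₊, Nat.le_ceil _, Nat.ceil_lt_add_one (by positivity)⟩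
  have hT1 : (1 : ℝ) ≤ T := by linarith
  have hT1' : 1 ≤ T := by exact_mod_cast hT1
  refine ⟨T, hT1', ?_, ?_⟩
  · have h1 : (2 * T : ℝ) < 2 ^ r := by
      have h2 : 100 * ((r : ℝ) * X) ≤ 2 ^ r := by rw [← mul_assoc]; exact hr2
      linarith
    exact_mod_cast h1
  set B := (k : ℝ) * (Real.exp 1 * M ^ (1 - η)) / (4 * M) with hB
  have hMp : 0 < M ^ (1 - η) := Real.rpow_pos_of_pos hMpos _
  have hBpos : 0 < B := by positivity
  have hlogB : Real.log B = L + 1 + (1 - η) * m - (Real.log 4 + m) := by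
    rw [hB, Real.log_div (by positivity) (by positivity), Real.log_mul hkpos.ne' (by positivity),
      Real.log_mul (Real.exp_pos 1).ne' hMp.ne', Real.log_exp, Real.log_rpow hMpos,
      Real.log_mul (by norm_num) hMpos.ne']
    ring
  set lam := min (1 / 4) B with hlam
  have hlpos : 0 < lam := lt_min (by norm_num) hBpos
  have hl4 : (1 : ℝ) ≤ Real.log 4 := by
    have h : Real.log 4 = 2 * Real.log 2 := by
      rw [show (4 : ℝ) = 2 ^ 2 by norm_num, Real.log_pow]; norm_num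
    have := Real.log_two_gt_d9
    rw [h]; linarith
  have hL1 : Real.log 4 ≤ - Real.log lam := by
    have h : Real.log lam ≤ Real.log (1 / 4) := Real.log_le_log hlpos (min_le_left _ _)
    rw [one_div, Real.log_inv] at h
    linarith
  have hL2 : Real.log 4 - 1 - L + η * m ≤ - Real.log lam := by
    have h : Real.log lam ≤ Real.log B := Real.log_le_log hlpos (min_le_right _ _)
    rw [hlogB] at h
    linarith
  set V := - Real.log lam with hV
  have hc : η * m / (2 * (1 + L)) ≤ V := by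
    rw [div_le_iff₀ (by positivity)]
    rcases le_or_gt (2 * L) (η * m) with h | h
    · have h1 : η * m / 2 ≤ V := by linarith
      have h2 : 0 ≤ V * L := mul_nonneg (by linarith) hL
      nlinarith
    · have h1 : 1 ≤ V := by linarith
      nlinarith
  have hVpos : 0 < V := by linarith
  have hmain1 : 10 * r * (1 + L) * m ≤ T * V / 2 := by
    have h1 : 40 * ((r : ℝ) * X) * (η * m / (2 * (1 + L))) ≤ T * V :=
      mul_le_mul hTl hc (by positivity) (by positivity)
    have h2 : 40 * ((r : ℝ) * X) * (η * m / (2 * (1 + L))) = 20 * r * (1 + L) * m := by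
      have h3 : 40 * ((r : ℝ) * X) * (η * m / (2 * (1 + L))) = 20 * r * m * (X * η) / (1 + L) := by
        field_simp
        ring
      rw [h3, hXη]
      field_simp
    linarith
  have hlog44 : Real.log 44 ≤ 385 / 100 := by
    have h : Real.log 44 ≤ Real.log 64 - (1 - 44 / 64) := by
      have h1 : Real.log (44 / 64) ≤ 44 / 64 - 1 := Real.log_le_sub_one_of_pos (by norm_num)
      rw [Real.log_div (by norm_num) (by norm_num)] at h1
      linarith
    have h64 : Real.log 64 = 6 * Real.log 2 := by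
      rw [show (64 : ℝ) = 2 ^ 6 by norm_num, Real.log_pow]; norm_num
    have := Real.log_two_lt_d9
    rw [h64] at h
    linarith
  have hlog64 : Real.log 64 ≤ 416 / 100 := by
    have h64 : Real.log 64 = 6 * Real.log 2 := by
      rw [show (64 : ℝ) = 2 ^ 6 by norm_num, Real.log_pow]; norm_num
    have := Real.log_two_lt_d9
    rw [h64]
    linarith
  have hmain2 : Real.log 44 + r * (Real.log 64 + L + m) ≤ 10 * r * (1 + L) * m := by
    have h1 : Real.log 44 ≤ 385 / 100 * r := by nlinarith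
    have h2 : (r : ℝ) * (Real.log 64 + L + m) ≤ r * (416 / 100 + L + m) :=
      mul_le_mul_of_nonneg_left (by linarith) (by linarith)
    have h3 : 0 ≤ (r : ℝ) * (10 * (1 + L) * m - (801 / 100 + L + m)) := by
      refine mul_nonneg (by linarith) ?_
      have h4 : 0 ≤ L * (m - 1) := mul_nonneg hL (by linarith)
      nlinarith
    nlinarith
  have hlogT : Real.log T ≤ T * V / 2 := by
    have h1 : (T : ℝ) ≤ 2 ^ T := by exact_mod_cast Nat.lt_two_pow_self.le
    have h2 : Real.log T ≤ T * Real.log 2 := by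
      have h3 := Real.log_le_log (by linarith) h1
      rwa [Real.log_pow] at h3
    have h4 : Real.log 4 = 2 * Real.log 2 := by
      rw [show (4 : ℝ) = 2 ^ 2 by norm_num, Real.log_pow]; norm_num
    have h5 : Real.log 2 ≤ V / 2 := by linarith
    calc Real.log T ≤ T * Real.log 2 := h2
      _ ≤ T * (V / 2) := mul_le_mul_of_nonneg_left h5 (by linarith)
      _ = T * V / 2 := by ring
  have hP : 0 < 44 * (T : ℝ) * (16 * (4 * (k : ℝ) * M)) ^ r * lam ^ T := by positivity
  have hlogP : Real.log (44 * (T : ℝ) * (16 * (4 * (k : ℝ) * M)) ^ r * lam ^ T) ≤ 0 := by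
    have e1 : Real.log (16 * (4 * (k : ℝ) * M)) = Real.log 64 + L + m := by
      rw [show 16 * (4 * (k : ℝ) * M) = 64 * k * M by ring, Real.log_mul (by positivity) (by positivity),
        Real.log_mul (by norm_num) (by positivity)]
    have hTne : (T : ℝ) ≠ 0 := by linarith
    rw [Real.log_mul (by positivity) (by positivity), Real.log_mul (by positivity) (by positivity),
      Real.log_mul (by norm_num) hTne, Real.log_pow, Real.log_pow, e1]
    have h1 : (T : ℝ) * Real.log lam = - (T * V) := by rw [hV]; ring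
    rw [h1]
    linarith
  calc 44 * (T : ℝ) * (16 * (4 * (k : ℝ) * M)) ^ r * lam ^ T
      = Real.exp (Real.log (44 * (T : ℝ) * (16 * (4 * (k : ℝ) * M)) ^ r * lam ^ T)) := (Real.exp_log hP).symm
    _ ≤ Real.exp 0 := Real.exp_le_exp.2 hlogP
    _ = 1 := Real.exp_zero

theorem Par_log_le (a x : ℝ) (ha : 0 < a) (hx : 0 < x) : Real.log x ≤ a * x + Real.log (1 / a) := by
  have h := Real.log_le_sub_one_of_pos (mul_pos ha hx)
  rw [Real.log_mul ha.ne' hx.ne'] at h
  rw [one_div, Real.log_inv]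
  linarith

theorem Par_exists (X : ℝ) : ∃ r : ℕ, 1 ≤ r ∧ 100 * (r : ℝ) * X ≤ 2 ^ r := by
  obtain ⟨n, hn⟩ := exists_nat_ge (200 * |X| + 1)
  refine ⟨n, ?_, ?_⟩
  · have h1 : (1 : ℝ) ≤ n := by
      have := abs_nonneg X
      linarith
    exact_mod_cast h1
  · have h1 : ((n.choose 2 : ℕ) : ℝ) ≤ 2 ^ n := by exact_mod_cast Nat.choose_le_two_pow n 2
    rw [Nat.cast_choose_two] at h1
    have h2 : 100 * (n : ℝ) * X ≤ n * (n - 1) / 2 := by
      have h3 : X ≤ |X| := le_abs_self X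
      have h4 : 200 * X ≤ n - 1 := by linarith
      have h5 : (0 : ℝ) ≤ n := Nat.cast_nonneg n
      nlinarith
    linarith

/-- the least `r` -/
theorem Par_r (X : ℝ) (hX : 1 ≤ X) : ∃ r : ℕ, 1 ≤ r ∧ 100 * (r : ℝ) * X ≤ 2 ^ r ∧ (2 : ℝ) ^ r ≤ 200 * r * X := by
  classical
  have hex := Par_exists X
  have h1 := Nat.find_spec hex
  refine ⟨Nat.find hex, h1.1, h1.2, ?_⟩
  set r := Nat.find hex with hr
  rcases Nat.lt_or_ge 1 r with h | h
  · have h2 := Nat.find_min hex (m := r - 1) (by omega)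
    rw [not_and, not_le] at h2
    have h3 := h2 (by omega)
    have h4 : ((r - 1 : ℕ) : ℝ) ≤ r := by exact_mod_cast Nat.sub_le r 1
    have h5 : (2 : ℝ) ^ r = 2 * 2 ^ (r - 1) := by
      rw [← pow_succ', Nat.sub_add_cancel h1.1]
    have h6 : ((r - 1 : ℕ) : ℝ) * X ≤ r * X := mul_le_mul_of_nonneg_right h4 (by linarith)
    rw [h5]
    linarith
  · have h2 : r = 1 := le_antisymm h h1.1
    rw [h2]
    norm_num
    linarith

/-- bound of the logarithm -/
theorem Par_log (k : ℕ) (η : ℝ) (r : ℕ) (hk : 1 ≤ k) (hη0 : 0 < η) (hη1 : η ≤ 1) (hr : 1 ≤ r)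
    (hr3 : (2 : ℝ) ^ r ≤ 200 * r * ((1 + Real.log k) ^ 2 / η)) (a : ℝ) (ha : 0 < a) (ha1 : a ≤ 1) :
    Real.log (4 * (k : ℝ) * (r : ℝ) ^ 2 * 2 ^ r) ≤
      (1 + 9 * a) * Real.log (1 / η) + 18 * a * k + (67 + 21 * Real.log (1 / a)) := by
  have hL : 0 ≤ Real.log k := Real.log_nonneg (by exact_mod_cast hk)
  have hkpos : (0 : ℝ) < k := by exact_mod_cast hk
  have hrpos : (0 : ℝ) < r := by exact_mod_cast hr
  have hLk := Par_log_le a k ha hkpos
  have hLr := Par_log_le a r ha hrpos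
  have hLr4 := Par_log_le (1/4) r (by norm_num) hrpos
  have hl2 := Real.log_two_gt_d9
  have hl2' := Real.log_two_lt_d9
  have hla : 0 ≤ Real.log (1 / a) := Real.log_nonneg (by rw [le_div_iff₀ ha]; linarith)
  have hy : 0 ≤ Real.log (1 / η) := Real.log_nonneg (by rw [le_div_iff₀ hη0]; linarith)
  set L := Real.log k with hLd
  set y := Real.log (1 / η) with hyd
  set s := Real.log r with hsd
  have hl4 : Real.log 4 = 2 * Real.log 2 := by
    rw [show (4 : ℝ) = 2 ^ 2 by norm_num, Real.log_pow]; norm_num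
  have hl200 : Real.log 200 ≤ 8 * Real.log 2 := by
    have h : Real.log 200 ≤ Real.log 256 := Real.log_le_log (by norm_num) (by norm_num)
    rwa [show (256 : ℝ) = 2 ^ 8 by norm_num, Real.log_pow, show ((8 : ℕ) : ℝ) = 8 by norm_num] at h
  have h1L : Real.log (1 + L) ≤ L := by
    have := Real.log_le_sub_one_of_pos (show 0 < 1 + L by linarith)
    linarith
  have hrl : r * Real.log 2 ≤ Real.log 200 + s + (2 * Real.log (1 + L) + y) := by
    have h := Real.log_le_log (by positivity) hr3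
    rw [Real.log_pow, Real.log_mul (by positivity) (by positivity), Real.log_mul (by norm_num) hrpos.ne',
      Real.log_div (by positivity) hη0.ne', Real.log_pow] at h
    have e1 : y = - Real.log η := by rw [hyd, one_div, Real.log_inv]
    rw [e1]
    push_cast at h
    linarith
  have hr5 : (r : ℝ) ≤ 20 + 5 * L + 3 * y := by
    have h1 : Real.log (1 / (1/4 : ℝ)) = 2 * Real.log 2 := by
      rw [show (1 : ℝ) / (1/4) = 4 by norm_num, hl4]
    rw [h1] at hLr4
    have h2 : (r : ℝ) * (Real.log 2 - 1/4) ≤ 10 * Real.log 2 + 2 * L + y := by linarith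
    have h3 : (r : ℝ) * (4/10) ≤ r * (Real.log 2 - 1/4) := mul_le_mul_of_nonneg_left (by linarith) hrpos.le
    linarith
  have hs : s ≤ a * (20 + 5 * L + 3 * y) + Real.log (1 / a) := by
    have := mul_le_mul_of_nonneg_left hr5 ha.le
    linarith
  have e0 : Real.log (4 * (k : ℝ) * (r : ℝ) ^ 2 * 2 ^ r) = Real.log 4 + L + 2 * s + r * Real.log 2 := by
    rw [Real.log_mul (by positivity) (by positivity), Real.log_mul (by positivity) (by positivity),
      Real.log_mul (by norm_num) hkpos.ne', Real.log_pow, Real.log_pow]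
    push_cast
    ring
  rw [e0]
  have haL : a * L ≤ L := by nlinarith
  have h18 : 18 * L ≤ 18 * (a * k) + 18 * Real.log (1 / a) := by linarith
  nlinarith

theorem Par_main (q e : ℕ) (hq : 2 ≤ q) (he : 1 ≤ e) (κ : ℝ) (hκ : (e : ℝ) / Real.log q < κ) :
    ∃ C : ℝ, ∀ (k : ℕ) (M η : ℝ), 1 ≤ k → 3 ≤ M → 1 / Real.log M ≤ η → η ≤ 1 →
      κ * Real.log (1 / η) + C < k →
      ∃ r T : ℕ, 1 ≤ r ∧ 1 ≤ T ∧ 2 * T < 2 ^ r ∧
        44 * (T : ℝ) * (16 * (4 * (k : ℝ) * M)) ^ r *
          (min (1 / 4) ((k : ℝ) * (Real.exp 1 * M ^ (1 - η)) / (4 * M))) ^ T ≤ 1 ∧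
        (q : ℝ) ^ 2 * (4 * (k : ℝ) * (r : ℝ) ^ 2 * 2 ^ r) ^ e < (q : ℝ) ^ k := by
  have hlq : 0 < Real.log q := Real.log_pos (by exact_mod_cast hq)
  have heR : (1 : ℝ) ≤ e := by exact_mod_cast he
  have hκ0 : 0 < κ := lt_trans (by positivity) hκ
  have hgap : 0 < κ * Real.log q - e := by
    rw [div_lt_iff₀ hlq] at hκ
    linarith
  set a := min 1 (min ((κ * Real.log q - e) / (9 * e + 18 * κ * e)) (Real.log q / (36 * e))) with ha
  have hden : 0 < 9 * (e : ℝ) + 18 * κ * e := by positivity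
  have hapos : 0 < a := lt_min one_pos (lt_min (by positivity) (by positivity))
  have ha1 : a ≤ 1 := min_le_left _ _
  have ha2 : a * (9 * e + 18 * κ * e) ≤ κ * Real.log q - e := by
    rw [← le_div_iff₀ hden]
    exact (min_le_right _ _).trans (min_le_left _ _)
  have ha3 : a * (36 * e) ≤ Real.log q := by
    rw [← le_div_iff₀ (by positivity)]
    exact (min_le_right _ _).trans (min_le_right _ _)
  set w := Real.log q - 18 * a * e with hw
  have hwpos : 0 < w := by
    rw [hw]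
    linarith
  have hκw : (e : ℝ) * (1 + 9 * a) ≤ κ * w := by
    rw [hw]
    linarith
  set C0 := 2 * Real.log q + e * (67 + 21 * Real.log (1 / a)) with hC0
  refine ⟨C0 / w, ?_⟩
  intro k M η hk hM hη hη1 hkC
  have hL : 0 ≤ Real.log k := Real.log_nonneg (by exact_mod_cast hk)
  have hkpos : (0 : ℝ) < k := by exact_mod_cast hk
  have hMpos : 0 < M := by linarith
  have hm : 0 < Real.log M := Real.log_pos (by linarith)
  have hηpos : 0 < η := lt_of_lt_of_le (by positivity) hη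
  have hX : 1 ≤ (1 + Real.log k) ^ 2 / η := by
    rw [le_div_iff₀ hηpos]
    nlinarith
  obtain ⟨r, hr1, hr2, hr3⟩ := Par_r _ hX
  obtain ⟨T, hT1, hT2, hT3⟩ := Par_cond k M η r hk hM hη hη1 hr1 hr2
  refine ⟨r, T, hr1, hT1, hT2, hT3, ?_⟩
  have hrpos : (0 : ℝ) < r := by exact_mod_cast hr1
  have hqpos : (0 : ℝ) < q := by
    have : (2 : ℝ) ≤ q := by exact_mod_cast hq
    linarith
  have hlog := Par_log k η r hk hηpos hη1 hr1 hr3 a hapos ha1
  have hy : 0 ≤ Real.log (1 / η) := Real.log_nonneg (by rw [le_div_iff₀ hηpos]; linarith)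
  have hfin : 2 * Real.log q + e * Real.log (4 * (k : ℝ) * (r : ℝ) ^ 2 * 2 ^ r) < k * Real.log q := by
    have h1 : (e : ℝ) * Real.log (4 * (k : ℝ) * (r : ℝ) ^ 2 * 2 ^ r) ≤
        e * ((1 + 9 * a) * Real.log (1 / η) + 18 * a * k + (67 + 21 * Real.log (1 / a))) :=
      mul_le_mul_of_nonneg_left hlog (by linarith)
    have h2 : (κ * Real.log (1 / η) + C0 / w) * w < k * w := mul_lt_mul_of_pos_right hkC hwpos
    have h3 : (κ * Real.log (1 / η) + C0 / w) * w = κ * w * Real.log (1 / η) + C0 := by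
      field_simp
    have h4 : (e : ℝ) * (1 + 9 * a) * Real.log (1 / η) ≤ κ * w * Real.log (1 / η) :=
      mul_le_mul_of_nonneg_right hκw hy
    have h5 : (k : ℝ) * w = k * Real.log q - 18 * a * e * k := by rw [hw]; ring
    have h6 : (e : ℝ) * ((1 + 9 * a) * Real.log (1 / η) + 18 * a * k + (67 + 21 * Real.log (1 / a))) =
        (e : ℝ) * (1 + 9 * a) * Real.log (1 / η) + 18 * a * e * k + (C0 - 2 * Real.log q) := by
      rw [hC0]; ring
    linarith
  have hA : 0 < (q : ℝ) ^ 2 * (4 * (k : ℝ) * (r : ℝ) ^ 2 * 2 ^ r) ^ e := by positivity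
  have hB : 0 < (q : ℝ) ^ k := by positivity
  rw [← Real.log_lt_log_iff hA hB, Real.log_mul (by positivity) (by positivity), Real.log_pow, Real.log_pow,
    Real.log_pow]
  push_cast
  exact hfin

end Pool.H74.HL
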