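import Mathlib

/-!
# Row Ser: power series of products of square roots with a norm bound

Ser_one: for s > 0 and ρ ≤ s/2 the function u ↦ √(s + u) has the series √s · Σ_t choose(1/2, t) (u/s)^t,
|u| ≤ ρ, and the sum of |c_t| ρ^t is ≤ √s Σ (1/2)^t = 2 √s, because |choose(1/2, t)| ≤ 1.
  (Mathlib: Real.one_add_rpow_hasFPowerSeriesOnBall_zero, binomialSeries_apply; Ring.choose (1/2) (t+1) =
   Ring.choose (1/2) t * (1/2 - t)/(t+1), e.g. through Ring.descPochhammer / Ring.choose_eq_smul or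
   Ring.succ_nsmul_choose style lemmas, gives |choose(1/2, t)| ≤ 1 by induction.  Any other proof of the
   existence of such coefficients is fine: only the statement is used.)
Ser_mul: Cauchy product: coefficients c_t = Σ_{i+j=t} a_i b_j; Σ |c_t| ρ^t ≤ (Σ |a_i| ρ^i)(Σ |b_j| ρ^j);
   tsum_mul_tsum_eq_tsum_sum_antidiagonal_of_summable_norm and
   summable_norm_sum_mul_antidiagonal_of_summable_norm.
Ser_main: product over U of Ser_one with s = p + β ≥ p, ρ = p/2; each norm ≤ 2 √(p+β) ≤ 2 √Z; induction on U.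
-/

namespace Pool.H74.HL

open Finset

private theorem Ser_choose (t : ℕ) : |Ring.choose (1 / 2 : ℝ) t| ≤ 1 := by
  induction t with
  | zero => simp
  | succ t ih =>
    have h1 : Ring.choose (1 / 2 : ℝ) (t + 1) = Ring.choose (1 / 2 : ℝ) t * ((1 / 2 - t) / (t + 1)) := by
      rw [Ring.choose_eq_smul, Ring.choose_eq_smul, descPochhammer_succ_right, Polynomial.smeval_mul,
        Polynomial.smeval_sub, Polynomial.smeval_X, Polynomial.smeval_natCast, Nat.factorial_succ]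
      simp only [smul_eq_mul, pow_zero, pow_one, nsmul_eq_mul, mul_one]
      push_cast
      have h2 : ((t : ℝ) + 1) ≠ 0 := by positivity
      have h3 : ((t.factorial : ℕ) : ℝ) ≠ 0 := by positivity
      field_simp
    rw [h1, abs_mul]
    have h4 : |((1 / 2 - t) / (t + 1) : ℝ)| ≤ 1 := by
      have h5 : (0 : ℝ) < (t : ℝ) + 1 := by positivity
      rw [abs_div, abs_of_pos h5, div_le_one h5, abs_le]
      have h6 : (0 : ℝ) ≤ t := Nat.cast_nonneg t
      constructor <;> linarith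
    exact mul_le_one₀ ih (abs_nonneg _) h4

private theorem Ser_binom (y : ℝ) (h0 : 0 ≤ y) (h1 : y < 1) :
    HasSum (fun t => Ring.choose (1 / 2 : ℝ) t * y ^ t) (√(1 + y)) := by
  have h := (Real.one_add_rpow_hasFPowerSeriesOnBall_zero (a := (1 / 2 : ℝ))).hasSum (y := y) (by
    rw [Metric.mem_eball, edist_zero_right, enorm_eq_nnnorm]
    exact_mod_cast (show ‖y‖₊ < 1 by
      rw [← NNReal.coe_lt_coe]
      simpa [abs_of_nonneg h0] using h1))
  simp only [zero_add] at h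
  rw [Real.sqrt_eq_rpow]
  refine h.congr_fun ?_
  intro t
  rw [binomialSeries_apply, List.ofFn_const, List.prod_replicate, smul_eq_mul]

theorem Ser_one (s ρ : ℝ) (hρ : 0 ≤ ρ) (hs : 0 < s) (hρs : 2 * ρ ≤ s) :
    ∃ c : ℕ → ℝ, Summable (fun t => |c t| * ρ ^ t) ∧ ∑' t, |c t| * ρ ^ t ≤ 2 * √s ∧
      ∀ u : ℝ, 0 ≤ u → u ≤ ρ → HasSum (fun t => c t * u ^ t) (√(s + u)) := by
  have hs' : s ≠ 0 := hs.ne'
  have hr : ρ / s ≤ 1 / 2 := by
    rw [div_le_iff₀ hs]
    linarith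
  have hr0 : 0 ≤ ρ / s := by positivity
  have hb : ∀ t : ℕ, |√s * Ring.choose (1 / 2 : ℝ) t * s⁻¹ ^ t| * ρ ^ t ≤ √s * (1 / 2) ^ t := by
    intro t
    rw [abs_mul, abs_mul, abs_of_nonneg (Real.sqrt_nonneg s), abs_of_nonneg (by positivity : 0 ≤ s⁻¹ ^ t)]
    have h1 : √s * |Ring.choose (1 / 2 : ℝ) t| * s⁻¹ ^ t * ρ ^ t =
        √s * (|Ring.choose (1 / 2 : ℝ) t| * (ρ / s) ^ t) := by
      rw [div_eq_mul_inv ρ s, mul_pow]
      ring
    rw [h1]
    refine mul_le_mul_of_nonneg_left ?_ (Real.sqrt_nonneg s)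
    calc |Ring.choose (1 / 2 : ℝ) t| * (ρ / s) ^ t ≤ 1 * (1 / 2) ^ t :=
          mul_le_mul (Ser_choose t) (pow_le_pow_left₀ hr0 hr t) (by positivity) zero_le_one
      _ = (1 / 2) ^ t := one_mul _
  have hg : Summable (fun t : ℕ => √s * (1 / 2 : ℝ) ^ t) :=
    (summable_geometric_of_lt_one (by norm_num) (by norm_num)).mul_left _
  have hsum : Summable (fun t : ℕ => |√s * Ring.choose (1 / 2 : ℝ) t * s⁻¹ ^ t| * ρ ^ t) :=
    Summable.of_nonneg_of_le (fun t => by positivity) hb hg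
  refine ⟨fun t => √s * Ring.choose (1 / 2 : ℝ) t * s⁻¹ ^ t, hsum, ?_, ?_⟩
  · refine (hsum.tsum_le_tsum hb hg).trans ?_
    rw [tsum_mul_left, tsum_geometric_of_lt_one (by norm_num) (by norm_num)]
    have h2 : (1 - 1 / 2 : ℝ)⁻¹ = 2 := by norm_num
    rw [h2, mul_comm]
  · intro u hu0 hu
    have hy0 : 0 ≤ u / s := by positivity
    have hy1 : u / s < 1 := by
      rw [div_lt_one hs]
      linarith
    have h3 := (Ser_binom (u / s) hy0 hy1).mul_left (√s)
    have h4 : √s * √(1 + u / s) = √(s + u) := by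
      rw [← Real.sqrt_mul hs.le]
      congr 1
      field_simp
    rw [h4] at h3
    refine h3.congr_fun ?_
    intro t
    show √s * Ring.choose (1 / 2 : ℝ) t * s⁻¹ ^ t * u ^ t = √s * (Ring.choose (1 / 2 : ℝ) t * (u / s) ^ t)
    rw [div_eq_mul_inv u s, mul_pow]
    ring

theorem Ser_mul (a b : ℕ → ℝ) (ρ M₁ M₂ : ℝ) (hρ : 0 ≤ ρ)
    (ha : Summable (fun t => |a t| * ρ ^ t)) (hb : Summable (fun t => |b t| * ρ ^ t))
    (hM₁ : ∑' t, |a t| * ρ ^ t ≤ M₁) (hM₂ : ∑' t, |b t| * ρ ^ t ≤ M₂)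
    (F G : ℝ → ℝ)
    (hF : ∀ u : ℝ, 0 ≤ u → u ≤ ρ → HasSum (fun t => a t * u ^ t) (F u))
    (hG : ∀ u : ℝ, 0 ≤ u → u ≤ ρ → HasSum (fun t => b t * u ^ t) (G u)) :
    ∃ c : ℕ → ℝ, Summable (fun t => |c t| * ρ ^ t) ∧ ∑' t, |c t| * ρ ^ t ≤ M₁ * M₂ ∧
      ∀ u : ℝ, 0 ≤ u → u ≤ ρ → HasSum (fun t => c t * u ^ t) (F u * G u) := by
  have hab : ∀ t, |a t| * ρ ^ t = ‖a t * ρ ^ t‖ := fun t => by
    rw [Real.norm_eq_abs, abs_mul, abs_of_nonneg (pow_nonneg hρ t)]
  have hbb : ∀ t, |b t| * ρ ^ t = ‖b t * ρ ^ t‖ := fun t => by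
    rw [Real.norm_eq_abs, abs_mul, abs_of_nonneg (pow_nonneg hρ t)]
  set A : ℕ → ℝ := fun t => |a t| * ρ ^ t with hA
  set B : ℕ → ℝ := fun t => |b t| * ρ ^ t with hB
  have hA0 : ∀ t, 0 ≤ A t := fun t => by positivity
  have hB0 : ∀ t, 0 ≤ B t := fun t => by positivity
  have hAn : Summable (fun t => ‖A t‖) := by
    simpa only [Real.norm_eq_abs, abs_of_nonneg (hA0 _)] using ha
  have hBn : Summable (fun t => ‖B t‖) := by
    simpa only [Real.norm_eq_abs, abs_of_nonneg (hB0 _)] using hb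
  have hAB := summable_norm_sum_mul_antidiagonal_of_summable_norm hAn hBn
  have hABt := tsum_mul_tsum_eq_tsum_sum_antidiagonal_of_summable_norm hAn hBn
  have hABn : ∀ t, 0 ≤ ∑ kl ∈ antidiagonal t, A kl.1 * B kl.2 := fun t =>
    Finset.sum_nonneg fun kl _ => mul_nonneg (hA0 _) (hB0 _)
  have hAB' : Summable (fun t => ∑ kl ∈ antidiagonal t, A kl.1 * B kl.2) := by
    simpa only [Real.norm_eq_abs, abs_of_nonneg (hABn _)] using hAB
  have hle : ∀ t, |∑ kl ∈ antidiagonal t, a kl.1 * b kl.2| * ρ ^ t ≤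
      ∑ kl ∈ antidiagonal t, A kl.1 * B kl.2 := by
    intro t
    calc |∑ kl ∈ antidiagonal t, a kl.1 * b kl.2| * ρ ^ t
        ≤ (∑ kl ∈ antidiagonal t, |a kl.1 * b kl.2|) * ρ ^ t :=
          mul_le_mul_of_nonneg_right (Finset.abs_sum_le_sum_abs _ _) (pow_nonneg hρ t)
      _ = ∑ kl ∈ antidiagonal t, A kl.1 * B kl.2 := by
          rw [Finset.sum_mul]
          refine Finset.sum_congr rfl fun kl hkl => ?_
          rw [HasAntidiagonal.mem_antidiagonal] at hkl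
          simp only [hA, hB]
          rw [abs_mul, ← hkl, pow_add]
          ring
  have hS : Summable (fun t => |∑ kl ∈ antidiagonal t, a kl.1 * b kl.2| * ρ ^ t) :=
    Summable.of_nonneg_of_le (fun t => by positivity) hle hAB'
  refine ⟨fun t => ∑ kl ∈ antidiagonal t, a kl.1 * b kl.2, hS, ?_, ?_⟩
  · refine (hS.tsum_le_tsum hle hAB').trans ?_
    rw [← hABt]
    exact mul_le_mul hM₁ hM₂ (tsum_nonneg hB0) ((tsum_nonneg hA0).trans hM₁)
  · intro u hu0 hu
    have hsa : Summable (fun t => ‖a t * u ^ t‖) := by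
      refine Summable.of_nonneg_of_le (fun t => norm_nonneg _) (fun t => ?_) ha
      rw [Real.norm_eq_abs, abs_mul, abs_of_nonneg (pow_nonneg hu0 t)]
      exact mul_le_mul_of_nonneg_left (pow_le_pow_left₀ hu0 hu t) (abs_nonneg _)
    have hsb : Summable (fun t => ‖b t * u ^ t‖) := by
      refine Summable.of_nonneg_of_le (fun t => norm_nonneg _) (fun t => ?_) hb
      rw [Real.norm_eq_abs, abs_mul, abs_of_nonneg (pow_nonneg hu0 t)]
      exact mul_le_mul_of_nonneg_left (pow_le_pow_left₀ hu0 hu t) (abs_nonneg _)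
    have h1 := summable_norm_sum_mul_antidiagonal_of_summable_norm hsa hsb
    have h2 := tsum_mul_tsum_eq_tsum_sum_antidiagonal_of_summable_norm hsa hsb
    rw [(hF u hu0 hu).tsum_eq, (hG u hu0 hu).tsum_eq] at h2
    rw [h2]
    have h3 := h1.of_norm.hasSum
    refine h3.congr_fun ?_
    intro t
    rw [Finset.sum_mul]
    refine Finset.sum_congr rfl fun kl hkl => ?_
    rw [HasAntidiagonal.mem_antidiagonal] at hkl
    rw [← hkl, pow_add]
    ring

theorem Ser_main (p Z : ℝ) (hp : 0 < p) (U : Finset ℕ) (hZ : ∀ β ∈ U, p + (β : ℝ) ≤ Z) :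
    ∃ c : ℕ → ℝ, Summable (fun t => |c t| * (p / 2) ^ t) ∧
      ∑' t, |c t| * (p / 2) ^ t ≤ (2 * √Z) ^ U.card ∧
      ∀ u : ℝ, 0 ≤ u → u ≤ p / 2 →
        HasSum (fun t => c t * u ^ t) (∏ β ∈ U, √((p + u) + (β : ℝ))) := by
  have hp2 : (0 : ℝ) ≤ p / 2 := by positivity
  induction U using Finset.induction_on with
  | empty =>
    have h0 : ∀ t : ℕ, t ≠ 0 → |(if t = 0 then (1 : ℝ) else 0)| * (p / 2) ^ t = 0 := by
      intro t ht
      rw [if_neg ht, abs_zero, zero_mul]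
    refine ⟨fun t => if t = 0 then 1 else 0, ?_, ?_, ?_⟩
    · exact summable_of_ne_finset_zero (s := {0}) fun t ht => h0 t (by simpa using ht)
    · rw [tsum_eq_single 0 h0]
      simp
    · intro u _ _
      have h1 := hasSum_single (f := fun t : ℕ => (if t = 0 then (1 : ℝ) else 0) * u ^ t) 0 (by
        intro t ht
        simp [ht])
      simpa using h1
  | insert β U hβ ih =>
    obtain ⟨c, hc1, hc2, hc3⟩ := ih fun γ hγ => hZ γ (Finset.mem_insert_of_mem hγ)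
    have hβ0 : (0 : ℝ) ≤ β := Nat.cast_nonneg β
    obtain ⟨d, hd1, hd2, hd3⟩ := Ser_one (p + β) (p / 2) hp2 (by linarith) (by linarith)
    have hd2' : ∑' t, |d t| * (p / 2) ^ t ≤ 2 * √Z :=
      hd2.trans (mul_le_mul_of_nonneg_left (Real.sqrt_le_sqrt (hZ β (Finset.mem_insert_self β U))) zero_le_two)
    obtain ⟨e, he1, he2, he3⟩ := Ser_mul d c (p / 2) _ _ hp2 hd1 hc1 hd2' hc2 _ _ hd3 hc3
    refine ⟨e, he1, ?_, ?_⟩
    · rw [Finset.card_insert_of_notMem hβ, pow_succ, mul_comm]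
      exact he2
    · intro u hu0 hu
      have h1 := he3 u hu0 hu
      rw [Finset.prod_insert hβ]
      have h2 : p + u + (β : ℝ) = p + β + u := by ring
      rw [h2]
      exact h1

end Pool.H74.HL
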