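import Mathlib

/-!
# Row Ind: products of different square roots are linearly independent

For a finite set B of nonnegative reals and real coefficients k(U), U ⊆ B, put
g(x) = sum over U ⊆ B of k(U) ∏_{β ∈ U} √(x + β).

Ind_main: if g(x) = 0 for all x > 0 then all k(U), U ⊆ B, are 0.

PROOF. Induction on |B|.  B empty: g = k(∅).  Let β be the smallest element of B, B' = B \ {β},
g = g0 + √(x+β) g1 with g0 = sum over U ⊆ B' of k(U) ..., g1 = sum over U ⊆ B' of k(U ∪ {β}) ... .
Let γ = min B' (γ > β; if B' is empty take γ = β + 1).  For y > -γ all y + β', β' in B', are > 0, so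
g0 and g1 are real analytic on (-γ, ∞) (finite sums of products of Real.sqrt (y + β'), analytic at
points where the argument is nonzero: AnalyticAt for Real.sqrt, for instance through
Real.sqrt_eq_rpow / ContDiffAt / AnalyticAt.rpow or Real.exp (log / 2)).
For x > 0: g0(x)^2 = (x + β) g1(x)^2.  Both sides are analytic on (-γ, ∞) (an open interval,
preconnected), equal on (0, ∞), so equal on all of (-γ, ∞)
(AnalyticOnNhd.eqOn_of_preconnected_of_eventuallyEq).  For -γ < y < -β the left side is ≥ 0 and the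
right side is ≤ 0, so g0(y) = 0 and (y + β ≠ 0) g1(y) = 0.  So g0, g1 vanish on the nonempty open
interval (-γ, -β), hence on (-γ, ∞) ⊇ (0, ∞) (γ > β ≥ 0).  By induction (B' with the coefficients k(U), and
with k(U ∪ {β})) all coefficients are 0.
-/

namespace Pool.H74.HL

open Finset

open scoped ContDiff in
theorem Ind_analytic (B : Finset ℝ) (k : Finset ℝ → ℝ) {γ : ℝ} (hγ : ∀ β ∈ B, γ ≤ β) :
    AnalyticOnNhd ℝ (fun y => ∑ U ∈ B.powerset, k U * ∏ β ∈ U, √(y + β)) (Set.Ioi (-γ)) := by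
  intro y hy
  rw [Set.mem_Ioi] at hy
  refine ContDiffAt.analyticAt (𝕜 := ℝ) ?_
  refine ContDiffAt.sum fun U hU => ?_
  refine contDiffAt_const.mul ?_
  refine contDiffAt_prod fun β hβ => ?_
  have h1 : γ ≤ β := hγ β (Finset.mem_powerset.1 hU hβ)
  have h2 : y + β ≠ 0 := by
    have : 0 < y + β := by linarith
    exact this.ne'
  exact (Real.contDiffAt_sqrt (n := ω) h2).comp y (contDiffAt_id.add contDiffAt_const)

theorem Ind_main (B : Finset ℝ) (hB : ∀ β ∈ B, 0 ≤ β) (k : Finset ℝ → ℝ)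
    (h : ∀ x : ℝ, 0 < x → ∑ U ∈ B.powerset, k U * ∏ β ∈ U, √(x + β) = 0) :
    ∀ U ∈ B.powerset, k U = 0 := by
  induction B using Finset.induction_on_min generalizing k with
  | empty =>
    intro U hU
    have h1 := h 1 one_pos
    rw [Finset.powerset_empty, Finset.sum_singleton, Finset.prod_empty, mul_one] at h1
    rw [Finset.powerset_empty, Finset.mem_singleton] at hU
    rw [hU]
    exact h1
  | insert a s has ih =>
    have ha : a ∉ s := fun hm => lt_irrefl _ (has a hm)
    have ha0 : 0 ≤ a := hB a (Finset.mem_insert_self a s)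
    have hs0 : ∀ β ∈ s, 0 ≤ β := fun β hβ => hB β (Finset.mem_insert_of_mem hβ)
    obtain ⟨γ, hγa, hγ⟩ : ∃ γ, a < γ ∧ ∀ β ∈ s, γ ≤ β := by
      rcases s.eq_empty_or_nonempty with hs | hs
      · exact ⟨a + 1, by linarith, by simp [hs]⟩
      · exact ⟨s.min' hs, has _ (s.min'_mem hs), fun β hβ => s.min'_le β hβ⟩
    set g0 : ℝ → ℝ := fun y => ∑ U ∈ s.powerset, k U * ∏ β ∈ U, √(y + β) with hg0
    set g1 : ℝ → ℝ := fun y => ∑ U ∈ s.powerset, k (insert a U) * ∏ β ∈ U, √(y + β) with hg1
    have A0 : AnalyticOnNhd ℝ g0 (Set.Ioi (-γ)) := Ind_analytic s k hγ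
    have A1 : AnalyticOnNhd ℝ g1 (Set.Ioi (-γ)) := Ind_analytic s (fun U => k (insert a U)) hγ
    have hsplit : ∀ x : ℝ, 0 < x → g0 x + √(x + a) * g1 x = 0 := by
      intro x hx
      have h1 := h x hx
      rw [Finset.sum_powerset_insert ha] at h1
      rw [← h1]
      congr 1
      rw [hg1, Finset.mul_sum]
      refine Finset.sum_congr rfl fun U hU => ?_
      have haU : a ∉ U := fun hm => ha (Finset.mem_powerset.1 hU hm)
      rw [Finset.prod_insert haU]
      ring
    have hsq : ∀ x : ℝ, 0 < x → g0 x ^ 2 = (x + a) * g1 x ^ 2 := by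
      intro x hx
      have h1 : g0 x = - (√(x + a) * g1 x) := by linarith [hsplit x hx]
      rw [h1, neg_sq, mul_pow, Real.sq_sqrt (by linarith)]
    have hγ0 : (0 : ℝ) < γ := by linarith
    have h1mem : (1 : ℝ) ∈ Set.Ioi (-γ) := by rw [Set.mem_Ioi]; linarith
    have hEq : Set.EqOn (fun y => g0 y ^ 2) (fun y => (y + a) * g1 y ^ 2) (Set.Ioi (-γ)) := by
      refine AnalyticOnNhd.eqOn_of_preconnected_of_eventuallyEq (𝕜 := ℝ) (A0.pow 2)
        (AnalyticOnNhd.mul (fun y _ => (analyticAt_id.add analyticAt_const)) (A1.pow 2)) isPreconnected_Ioi h1mem ?_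
      filter_upwards [lt_mem_nhds (show (0 : ℝ) < 1 by norm_num)] with x hx
      exact hsq x hx
    have hz : ∀ y : ℝ, -γ < y → y < -a → g0 y = 0 ∧ g1 y = 0 := by
      intro y hy1 hy2
      have h1 : g0 y ^ 2 = (y + a) * g1 y ^ 2 := hEq (Set.mem_Ioi.2 hy1)
      have h2 : y + a < 0 := by linarith
      have h3 : 0 ≤ g0 y ^ 2 := sq_nonneg _
      have h4 : 0 ≤ g1 y ^ 2 := sq_nonneg _
      have h5 : g1 y ^ 2 = 0 := by
        by_contra hne
        have h6 : 0 < g1 y ^ 2 := lt_of_le_of_ne h4 (Ne.symm hne)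
        have := mul_neg_of_neg_of_pos h2 h6
        linarith
      have h6 : g0 y ^ 2 = 0 := by rw [h1, h5, mul_zero]
      exact ⟨by simpa using h6, by simpa using h5⟩
    have hmid : -γ < (-γ + -a) / 2 ∧ (-γ + -a) / 2 < -a := ⟨by linarith, by linarith⟩
    have hev : ∀ᶠ y in nhds ((-γ + -a) / 2), -γ < y ∧ y < -a :=
      (lt_mem_nhds hmid.1).and (gt_mem_nhds hmid.2)
    have Z0 : Set.EqOn g0 0 (Set.Ioi (-γ)) := by
      refine AnalyticOnNhd.eqOn_zero_of_preconnected_of_eventuallyEq_zero (𝕜 := ℝ) A0 isPreconnected_Ioi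
        (Set.mem_Ioi.2 hmid.1) ?_
      filter_upwards [hev] with y hy
      exact (hz y hy.1 hy.2).1
    have Z1 : Set.EqOn g1 0 (Set.Ioi (-γ)) := by
      refine AnalyticOnNhd.eqOn_zero_of_preconnected_of_eventuallyEq_zero (𝕜 := ℝ) A1 isPreconnected_Ioi
        (Set.mem_Ioi.2 hmid.1) ?_
      filter_upwards [hev] with y hy
      exact (hz y hy.1 hy.2).2
    have i0 := ih hs0 k fun x hx => Z0 (Set.mem_Ioi.2 (by linarith : -γ < x))
    have i1 := ih hs0 (fun U => k (insert a U)) fun x hx => Z1 (Set.mem_Ioi.2 (by linarith : -γ < x))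
    intro U hU
    by_cases haU : a ∈ U
    · have h1 : U.erase a ∈ s.powerset := by
        rw [Finset.mem_powerset] at hU ⊢
        exact Finset.subset_insert_iff.1 hU
      have h2 := i1 _ h1
      simp only [Finset.insert_erase haU] at h2
      exact h2
    · refine i0 U ?_
      rw [Finset.mem_powerset] at hU ⊢
      exact (Finset.subset_insert_iff_of_notMem haU).1 hU

end Pool.H74.HL
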