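import Mathlib

/-!
# Row Zer: few zeros of combinations of products of square roots

Zer_main. B a finite set of nonnegative reals, P(U) real polynomials (U ⊆ B) with
2 natDegree P(U) + |U| ≤ δ, g(x) = sum over U ⊆ B of P(U)(x) ∏_{β ∈ U} √(x + β).  If g does not
vanish identically on (0, ∞) then g has at most δ 2^(|B|-1) zeros there: 2 |A| ≤ δ 2^|B| for every
finite set A of positive zeros.

PROOF. Induction on |B| (all δ, P, A).  B empty: g is the polynomial P(∅), it is not 0, and the number of its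
roots is at most its degree ≤ δ/2.
Step B = B' ∪ {β}: g = g0 + √(x+β) g1, g0 = sum over U ⊆ B' of P(U) f_U, g1 = sum over U ⊆ B' of
P(U ∪ {β}) f_U, where f_U(x) = ∏_{β' ∈ U} √(x + β').  Let N = g0^2 - (x+β) g1^2.
(a) N is of the same form over B' with δ replaced by 2δ: f_U f_V = f_{U Δ V} ∏_{β' ∈ U ∩ V} (x + β')
    for x > 0, so N = sum over W ⊆ B' of P'(W) f_W with
    P'(W) = sum over pairs U, V ⊆ B', U Δ V = W of
       (P(U) P(V) - (X + β) P(U∪{β}) P(V∪{β})) ∏_{β' ∈ U∩V} (X + β'),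
    and 2 deg + |W| ≤ (2 deg P(U) + |U|) + (2 deg P(V) + |V|) ≤ 2δ for the first products
    (|U Δ V| + 2 |U ∩ V| = |U| + |V|), and for the second ones
    2 (1 + deg P(U∪β) + deg P(V∪β) + |U∩V|) + |W| = (2 deg P(U∪β) + |U| + 1) + (2 deg P(V∪β) + |V| + 1) ≤ 2δ.
    (Terms with a zero polynomial factor: natDegree 0 product is the zero polynomial, harmless.)
    Every zero x > 0 of g is a zero of N = (g0 - √ g1)(g0 + √ g1).  If N is not identically 0 on (0, ∞)
    the induction hypothesis gives 2 |A| ≤ 2δ 2^|B'| = δ 2^|B|.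
(b) N identically 0 on (0, ∞): g is not identically 0, say g(x0) ≠ 0; g ≠ 0 near x0 (continuity), so
    gbar = g0 - √(x+β) g1 vanishes near x0; gbar is real analytic on (0, ∞), so gbar = 0 on (0, ∞), so
    √(x+β) g1 = g0 and g = 2 g0 on (0, ∞).  g0 is of the same form over B' with the same δ and is not
    identically 0, so 2 |A| ≤ δ 2^|B'| ≤ δ 2^|B|.
-/

namespace Pool.H74.HL

open Finset Polynomial

/-- combinations of products of square roots, of degree at most `δ` -/
def Zer_frm (B : Finset ℝ) (δ : ℕ) (g : ℝ → ℝ) : Prop :=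
  ∃ P : Finset ℝ → ℝ[X], (∀ U ∈ B.powerset, P U ≠ 0 → 2 * (P U).natDegree + U.card ≤ δ) ∧
    ∀ x, 0 < x → g x = ∑ U ∈ B.powerset, (P U).eval x * ∏ β ∈ U, √(x + β)

theorem Zer_congr {B : Finset ℝ} {δ : ℕ} {g h : ℝ → ℝ} (hg : Zer_frm B δ g)
    (hgh : ∀ x, 0 < x → h x = g x) : Zer_frm B δ h := by
  obtain ⟨P, hP, hPg⟩ := hg
  exact ⟨P, hP, fun x hx => (hgh x hx).trans (hPg x hx)⟩

theorem Zer_zero (B : Finset ℝ) (δ : ℕ) : Zer_frm B δ (fun _ => 0) := by
  refine ⟨fun _ => 0, fun U _ h => absurd rfl h, fun x _ => ?_⟩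
  simp

theorem Zer_add {B : Finset ℝ} {δ : ℕ} {g h : ℝ → ℝ} (hg : Zer_frm B δ g) (hh : Zer_frm B δ h) :
    Zer_frm B δ (fun x => g x + h x) := by
  obtain ⟨P, hP, hPg⟩ := hg
  obtain ⟨Q, hQ, hQh⟩ := hh
  refine ⟨fun U => P U + Q U, fun U hU hne => ?_, fun x hx => ?_⟩
  · beta_reduce at hne ⊢
    by_cases hp : P U = 0
    · rw [hp, zero_add] at hne ⊢
      exact hQ U hU hne
    · by_cases hq : Q U = 0
      · rw [hq, add_zero] at hne ⊢
        exact hP U hU hne
      · have h1 := hP U hU hp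
        have h2 := hQ U hU hq
        have h3 := natDegree_add_le (P U) (Q U)
        rcases le_max_iff.1 h3 with h4 | h4 <;> omega
  · beta_reduce
    rw [hPg x hx, hQh x hx, ← Finset.sum_add_distrib]
    refine Finset.sum_congr rfl fun U _ => ?_
    rw [eval_add, add_mul]

theorem Zer_neg {B : Finset ℝ} {δ : ℕ} {g : ℝ → ℝ} (hg : Zer_frm B δ g) :
    Zer_frm B δ (fun x => - g x) := by
  obtain ⟨P, hP, hPg⟩ := hg
  refine ⟨fun U => - P U, fun U hU hne => ?_, fun x hx => ?_⟩
  · beta_reduce at hne ⊢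
    rw [natDegree_neg]
    exact hP U hU (fun h => hne (by rw [h, neg_zero]))
  · beta_reduce
    rw [hPg x hx, ← Finset.sum_neg_distrib]
    refine Finset.sum_congr rfl fun U _ => ?_
    rw [eval_neg, neg_mul]

theorem Zer_sum {B : Finset ℝ} {δ : ℕ} {ι : Type} (s : Finset ι) (g : ι → ℝ → ℝ)
    (hg : ∀ i ∈ s, Zer_frm B δ (g i)) : Zer_frm B δ (fun x => ∑ i ∈ s, g i x) := by
  classical
  induction s using Finset.induction_on with
  | empty => exact Zer_congr (Zer_zero B δ) fun x _ => by simp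
  | insert i s hi ih =>
    refine Zer_congr (Zer_add (hg i (Finset.mem_insert_self _ _))
      (ih fun j hj => hg j (Finset.mem_insert_of_mem hj))) fun x _ => ?_
    rw [Finset.sum_insert hi]

theorem Zer_single {B : Finset ℝ} {δ : ℕ} {W : Finset ℝ} (hW : W ∈ B.powerset) (p : ℝ[X])
    (hp : p ≠ 0 → 2 * p.natDegree + W.card ≤ δ) :
    Zer_frm B δ (fun x => p.eval x * ∏ β ∈ W, √(x + β)) := by
  classical
  refine ⟨fun U => if U = W then p else 0, fun U _ hne => ?_, fun x _ => ?_⟩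
  · beta_reduce at hne ⊢
    by_cases h : U = W
    · rw [if_pos h] at hne ⊢
      rw [h]
      exact hp hne
    · rw [if_neg h] at hne
      exact absurd rfl hne
  · beta_reduce
    rw [Finset.sum_eq_single W]
    · rw [if_pos rfl]
    · intro U _ h
      rw [if_neg h, eval_zero, zero_mul]
    · intro h
      exact absurd hW h

theorem Zer_prod {U V : Finset ℝ} {x : ℝ} (h : ∀ β ∈ U ∩ V, 0 ≤ x + β) :
    (∏ β ∈ U, √(x + β)) * ∏ β ∈ V, √(x + β) =
      (∏ β ∈ U ∩ V, (x + β)) * ∏ β ∈ symmDiff U V, √(x + β) := by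
  have h1 := Finset.prod_inter_mul_prod_sdiff U V (fun β => √(x + β))
  have h2 := Finset.prod_inter_mul_prod_sdiff V U (fun β => √(x + β))
  have h3 : ∏ β ∈ symmDiff U V, √(x + β) = (∏ β ∈ U \ V, √(x + β)) * ∏ β ∈ V \ U, √(x + β) := by
    have h4 : symmDiff U V = (U \ V) ∪ (V \ U) := rfl
    rw [h4, Finset.prod_union disjoint_sdiff_sdiff]
  have h5 : (∏ β ∈ U ∩ V, √(x + β)) * ∏ β ∈ U ∩ V, √(x + β) = ∏ β ∈ U ∩ V, (x + β) := by
    rw [← Finset.prod_mul_distrib]
    exact Finset.prod_congr rfl fun β hβ => Real.mul_self_sqrt (h β hβ)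
  rw [← h1, ← h2, h3, ← h5, Finset.inter_comm V U]
  ring

theorem Zer_card (U V : Finset ℝ) : (symmDiff U V).card + 2 * (U ∩ V).card = U.card + V.card := by
  have h4 : symmDiff U V = (U \ V) ∪ (V \ U) := rfl
  have h5 := Finset.card_sdiff_add_card_inter U V
  have h6 := Finset.card_sdiff_add_card_inter V U
  rw [h4, Finset.card_union_of_disjoint disjoint_sdiff_sdiff]
  rw [Finset.inter_comm V U] at h6
  omega

theorem Zer_mul {B : Finset ℝ} (hB : ∀ β ∈ B, 0 ≤ β) {δ ε : ℕ} {g h : ℝ → ℝ}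
    (hg : Zer_frm B δ g) (hh : Zer_frm B ε h) : Zer_frm B (δ + ε) (fun x => g x * h x) := by
  obtain ⟨P, hP, hPg⟩ := hg
  obtain ⟨Q, hQ, hQh⟩ := hh
  have key : Zer_frm B (δ + ε) (fun x => ∑ U ∈ B.powerset, ∑ V ∈ B.powerset,
      (P U * Q V * ∏ β ∈ U ∩ V, (X + C β)).eval x * ∏ β ∈ symmDiff U V, √(x + β)) := by
    refine Zer_sum _ _ fun U hU => Zer_sum _ _ fun V hV => Zer_single ?_ _ ?_
    · rw [Finset.mem_powerset] at hU hV ⊢
      intro y hy
      rw [Finset.mem_symmDiff] at hy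
      rcases hy with hy | hy
      · exact hU hy.1
      · exact hV hy.1
    · intro hne
      have hp : P U ≠ 0 := fun h0 => hne (by rw [h0, zero_mul, zero_mul])
      have hq : Q V ≠ 0 := fun h0 => hne (by rw [h0, mul_zero, zero_mul])
      have h1 := hP U hU hp
      have h2 := hQ V hV hq
      have h3 : (∏ β ∈ U ∩ V, (X + C β : ℝ[X])).natDegree ≤ (U ∩ V).card := by
        refine (natDegree_prod_le _ _).trans (le_of_eq ?_)
        simp
      have h4 := natDegree_mul_le (p := P U * Q V) (q := ∏ β ∈ U ∩ V, (X + C β : ℝ[X]))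
      have h5 := natDegree_mul_le (p := P U) (q := Q V)
      have h6 := Zer_card U V
      omega
  refine Zer_congr key fun x hx => ?_
  rw [hPg x hx, hQh x hx, Finset.sum_mul_sum]
  refine Finset.sum_congr rfl fun U hU => Finset.sum_congr rfl fun V hV => ?_
  rw [eval_mul, eval_mul, eval_prod]
  have h1 := Zer_prod (U := U) (V := V) (x := x) (fun β hβ => by
    have h2 := hB β (Finset.mem_powerset.1 hU (Finset.mem_inter.1 hβ).1)
    linarith)
  have h2 : ∏ β ∈ U ∩ V, eval x (X + C β) = ∏ β ∈ U ∩ V, (x + β) := by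
    refine Finset.prod_congr rfl fun β _ => ?_
    rw [eval_add, eval_X, eval_C]
  rw [h2]
  calc (P U).eval x * (∏ β ∈ U, √(x + β)) * ((Q V).eval x * ∏ β ∈ V, √(x + β))
      = (P U).eval x * (Q V).eval x * ((∏ β ∈ U, √(x + β)) * ∏ β ∈ V, √(x + β)) := by ring
    _ = _ := by
        rw [h1]
        ring

theorem Zer_sqrt {β x : ℝ} (h : 0 < x + β) : AnalyticAt ℝ (fun y : ℝ => √(y + β)) x := by
  have h1 : AnalyticAt ℝ (fun y : ℝ => Real.exp (Real.log (y + β) / 2)) x := by
    have h2 : AnalyticAt ℝ (fun y : ℝ => y + β) x := analyticAt_id.add analyticAt_const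
    exact ((h2.log h).div_const).rexp'
  refine h1.congr ?_
  have h3 : ∀ᶠ y in nhds x, 0 < y + β := by
    have h4 : Filter.Tendsto (fun y : ℝ => y + β) (nhds x) (nhds (x + β)) :=
      (continuous_id.add continuous_const).tendsto x
    exact h4.eventually (lt_mem_nhds h)
  filter_upwards [h3] with y hy
  rw [Real.exp_half, Real.exp_log hy]

theorem Zer_ana {B : Finset ℝ} (hB : ∀ β ∈ B, 0 ≤ β) (P : Finset ℝ → ℝ[X]) :
    AnalyticOnNhd ℝ (fun x => ∑ U ∈ B.powerset, (P U).eval x * ∏ β ∈ U, √(x + β)) (Set.Ioi 0) := by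
  intro x hx
  have hx0 : 0 < x := hx
  refine Finset.analyticAt_fun_sum _ fun U hU => ?_
  refine (AnalyticOnNhd.eval_polynomial (P U) x (Set.mem_univ _)).mul
    (Finset.analyticAt_fun_prod _ fun β hβ => Zer_sqrt ?_)
  have := hB β (Finset.mem_powerset.1 hU hβ)
  linarith

theorem Zer_ind (B : Finset ℝ) : (∀ β ∈ B, 0 ≤ β) → ∀ (δ : ℕ) (g : ℝ → ℝ), Zer_frm B δ g →
    (∃ x : ℝ, 0 < x ∧ g x ≠ 0) → ∀ A : Finset ℝ, (∀ x ∈ A, 0 < x ∧ g x = 0) →
      2 * A.card ≤ δ * 2 ^ B.card := by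
  induction B using Finset.induction_on with
  | empty =>
    intro _ δ g hg hne A hA
    obtain ⟨P, hP, hPg⟩ := hg
    have h1 : ∀ x, 0 < x → g x = (P ∅).eval x := by
      intro x hx
      rw [hPg x hx, Finset.powerset_empty, Finset.sum_singleton, Finset.prod_empty, mul_one]
    obtain ⟨x0, hx0, hgx0⟩ := hne
    have hP0 : P ∅ ≠ 0 := by
      intro h0
      rw [h1 x0 hx0, h0, eval_zero] at hgx0
      exact hgx0 rfl
    have h2 := hP ∅ (Finset.mem_powerset.2 (Finset.Subset.refl _)) hP0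
    have h3 : A.card ≤ (P ∅).natDegree := by
      refine card_le_degree_of_subset_roots ?_
      intro x hx
      obtain ⟨hx1, hx2⟩ := hA x hx
      rw [mem_roots hP0]
      rw [h1 x hx1] at hx2
      exact hx2
    rw [Finset.card_empty] at h2 ⊢
    omega
  | insert β B hβ ih =>
    intro hB δ g hg hne A hA
    have hB' : ∀ β' ∈ B, 0 ≤ β' := fun β' h => hB β' (Finset.mem_insert_of_mem h)
    have hβ0 : 0 ≤ β := hB β (Finset.mem_insert_self _ _)
    obtain ⟨P, hP, hPg⟩ := hg
    obtain ⟨g0, hg0⟩ : ∃ g0 : ℝ → ℝ, g0 = fun x => ∑ U ∈ B.powerset,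
      (P U).eval x * ∏ β ∈ U, √(x + β) := ⟨_, rfl⟩
    obtain ⟨g1, hg1⟩ : ∃ g1 : ℝ → ℝ, g1 = fun x => ∑ U ∈ B.powerset,
      (P (insert β U)).eval x * ∏ β ∈ U, √(x + β) := ⟨_, rfl⟩
    have hsub : ∀ U ∈ B.powerset, U ∈ (insert β B).powerset := fun U hU =>
      Finset.mem_powerset.2 ((Finset.mem_powerset.1 hU).trans (Finset.subset_insert _ _))
    have hsub2 : ∀ U ∈ B.powerset, insert β U ∈ (insert β B).powerset := fun U hU =>
      Finset.mem_powerset.2 (Finset.insert_subset_insert _ (Finset.mem_powerset.1 hU))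
    have hnot : ∀ U ∈ B.powerset, β ∉ U := fun U hU h => hβ (Finset.mem_powerset.1 hU h)
    have hsplit : ∀ x, 0 < x → g x = g0 x + √(x + β) * g1 x := by
      intro x hx
      rw [hPg x hx, Finset.sum_powerset_insert hβ, hg0, hg1]
      refine congrArg₂ (· + ·) rfl ?_
      simp only
      rw [Finset.mul_sum]
      refine Finset.sum_congr rfl fun U hU => ?_
      rw [Finset.prod_insert (hnot U hU)]
      ring
    have hF0 : Zer_frm B δ g0 := ⟨P, fun U hU => hP U (hsub U hU), fun x _ => by rw [hg0]⟩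
    have hFx : Zer_frm B 2 (fun x => x + β) := by
      refine Zer_congr (Zer_single (W := ∅) (Finset.mem_powerset.2 (Finset.empty_subset _))
        (X + C β) ?_) fun x _ => ?_
      · intro _
        rw [natDegree_X_add_C, Finset.card_empty]
      · rw [Finset.prod_empty, mul_one, eval_add, eval_X, eval_C]
    have hF1 : Zer_frm B (2 * δ) (fun x => (x + β) * (g1 x * g1 x)) := by
      by_cases hd : δ = 0
      · refine Zer_congr (Zer_zero B (2 * δ)) fun x _ => ?_
        have h1 : g1 x = 0 := by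
          rw [hg1]
          refine Finset.sum_eq_zero fun U hU => ?_
          have h2 : P (insert β U) = 0 := by
            by_contra h3
            have h4 := hP _ (hsub2 U hU) h3
            rw [Finset.card_insert_of_notMem (hnot U hU)] at h4
            omega
          rw [h2, eval_zero, zero_mul]
        rw [h1, mul_zero, mul_zero]
      · have h1 : Zer_frm B (δ - 1) g1 := by
          refine ⟨fun U => P (insert β U), fun U hU h => ?_, fun x _ => by rw [hg1]⟩
          have h4 := hP _ (hsub2 U hU) h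
          rw [Finset.card_insert_of_notMem (hnot U hU)] at h4
          beta_reduce
          omega
        have h2 := Zer_mul hB' hFx (Zer_mul hB' h1 h1)
        have h3 : 2 + (δ - 1 + (δ - 1)) = 2 * δ := by omega
        rw [h3] at h2
        exact h2
    have hFN : Zer_frm B (2 * δ) (fun x => g0 x * g0 x + -((x + β) * (g1 x * g1 x))) := by
      have h2 := Zer_mul hB' hF0 hF0
      have h3 : δ + δ = 2 * δ := by omega
      rw [h3] at h2
      exact Zer_add h2 (Zer_neg hF1)
    have hNg : ∀ x, 0 < x → g0 x * g0 x + -((x + β) * (g1 x * g1 x)) =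
        (g0 x - √(x + β) * g1 x) * (g0 x + √(x + β) * g1 x) := by
      intro x hx
      have h1 : √(x + β) * √(x + β) = x + β := Real.mul_self_sqrt (by linarith)
      calc g0 x * g0 x + -((x + β) * (g1 x * g1 x))
          = g0 x * g0 x + -((√(x + β) * √(x + β)) * (g1 x * g1 x)) := by rw [h1]
        _ = _ := by ring
    rw [Finset.card_insert_of_notMem hβ, pow_succ]
    by_cases hN : ∃ x : ℝ, 0 < x ∧ g0 x * g0 x + -((x + β) * (g1 x * g1 x)) ≠ 0
    · have h1 := ih hB' (2 * δ) _ hFN hN A (fun x hx => by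
        obtain ⟨a, b⟩ := hA x hx
        refine ⟨a, ?_⟩
        rw [hNg x a, ← hsplit x a, b, mul_zero])
      calc 2 * A.card ≤ 2 * δ * 2 ^ B.card := h1
        _ = δ * (2 ^ B.card * 2) := by ring
    · have hana0 : AnalyticOnNhd ℝ g0 (Set.Ioi 0) := by
        rw [hg0]
        exact Zer_ana hB' P
      have hana1 : AnalyticOnNhd ℝ g1 (Set.Ioi 0) := by
        rw [hg1]
        exact Zer_ana hB' fun U => P (insert β U)
      have hanas : AnalyticOnNhd ℝ (fun x : ℝ => √(x + β)) (Set.Ioi 0) := by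
        intro x hx
        have hx0 : 0 < x := hx
        exact Zer_sqrt (by linarith)
      have h1 := AnalyticOnNhd.eq_zero_or_eq_zero_of_mul_eq_zero (𝕜 := ℝ) (A := ℝ)
        (f := fun x => g0 x - √(x + β) * g1 x) (g := fun x => g0 x + √(x + β) * g1 x)
        (U := Set.Ioi 0)
        (fun x hx => (hana0 x hx).sub ((hanas x hx).mul (hana1 x hx)))
        (fun x hx => (hana0 x hx).add ((hanas x hx).mul (hana1 x hx)))
        (fun x hx => by
          rw [← hNg x hx]
          by_contra h2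
          exact hN ⟨x, hx, h2⟩) isPreconnected_Ioi
      obtain ⟨x0, hx0, hgx0⟩ := hne
      rcases h1 with h1 | h1
      · have h2 : ∀ x, 0 < x → g x = 2 * g0 x := by
          intro x hx
          have h3 : g0 x - √(x + β) * g1 x = 0 := h1 x hx
          rw [hsplit x hx]
          linarith
        have h3 := ih hB' δ g0 hF0 ⟨x0, hx0, fun h => hgx0 (by rw [h2 x0 hx0, h, mul_zero])⟩ A
          (fun x hx => by
            obtain ⟨a, b⟩ := hA x hx
            refine ⟨a, ?_⟩
            rw [h2 x a] at b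
            linarith)
        calc 2 * A.card ≤ δ * 2 ^ B.card := h3
          _ ≤ δ * (2 ^ B.card * 2) := Nat.mul_le_mul_left _ (by omega)
      · exfalso
        apply hgx0
        rw [hsplit x0 hx0]
        exact h1 x0 hx0

theorem Zer_main (B : Finset ℝ) (hB : ∀ β ∈ B, 0 ≤ β) (P : Finset ℝ → ℝ[X]) (δ : ℕ)
    (hδ : ∀ U ∈ B.powerset, 2 * (P U).natDegree + U.card ≤ δ)
    (hne : ∃ x : ℝ, 0 < x ∧ ∑ U ∈ B.powerset, (P U).eval x * ∏ β ∈ U, √(x + β) ≠ 0)
    (A : Finset ℝ)
    (hA : ∀ x ∈ A, 0 < x ∧ ∑ U ∈ B.powerset, (P U).eval x * ∏ β ∈ U, √(x + β) = 0) :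
    2 * A.card ≤ δ * 2 ^ B.card :=
  Zer_ind B hB δ _ ⟨P, fun U hU _ => hδ U hU, fun _ _ => rfl⟩ hne A hA

end Pool.H74.HL
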