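import Mathlib
import Pool.Agent.H74.HL.Ind
import Pool.Agent.H74.HL.Zer

/-!
# Row ZerN: zero estimate for integer combinations, natural numbers

PROOF. Let B' = B.image (Nat.cast : ℕ → ℝ) (injective), and transport the coefficients: for U' ⊆ B'
put k(U') = n (the preimage of U' in B), e.g. n (B.filter (fun β => (β : ℝ) ∈ U')).  The sum over
B'.powerset equals the sum over B.powerset.  By Ind_main the function is not identically 0 on (0, ∞)
(some k(U') ≠ 0).  Apply Zer_main with the constant polynomials C (k U'), δ = |B| (natDegree of a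
constant is 0, |U'| ≤ |B|), A' = A.image Nat.cast.
-/

namespace Pool.H74.HL

open Finset

theorem ZerN_powerset (B : Finset ℕ) :
    (B.image (fun b : ℕ => (b : ℝ))).powerset =
      B.powerset.image (fun U => U.image (fun b : ℕ => (b : ℝ))) := by
  classical
  ext U'
  rw [Finset.mem_powerset, Finset.mem_image]
  constructor
  · intro h
    refine ⟨B.filter (fun b : ℕ => (b : ℝ) ∈ U'), ?_, ?_⟩
    · rw [Finset.mem_powerset]
      exact Finset.filter_subset _ _
    · ext y
      rw [Finset.mem_image]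
      constructor
      · rintro ⟨b, hb, rfl⟩
        exact (Finset.mem_filter.1 hb).2
      · intro hy
        obtain ⟨b, hb, rfl⟩ := Finset.mem_image.1 (h hy)
        exact ⟨b, Finset.mem_filter.2 ⟨hb, hy⟩, rfl⟩
  · rintro ⟨U, hU, rfl⟩
    exact Finset.image_subset_image (Finset.mem_powerset.1 hU)

theorem ZerN_inj : Function.Injective (fun b : ℕ => (b : ℝ)) := Nat.cast_injective

theorem ZerN_sum (B : Finset ℕ) (F : Finset ℝ → ℝ) :
    ∑ U' ∈ (B.image (fun b : ℕ => (b : ℝ))).powerset, F U' =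
      ∑ U ∈ B.powerset, F (U.image (fun b : ℕ => (b : ℝ))) := by
  classical
  rw [ZerN_powerset, Finset.sum_image]
  intro U _ V _ h
  exact Finset.image_injective ZerN_inj h

theorem ZerN_main (A B : Finset ℕ) (n : Finset ℕ → ℤ) (hn : ∃ U ∈ B.powerset, n U ≠ 0)
    (hA : ∀ x ∈ A, 0 < x ∧
      ∑ U ∈ B.powerset, (n U : ℝ) * ∏ β ∈ U, √((x : ℝ) + (β : ℝ)) = 0) :
    2 * A.card ≤ B.card * 2 ^ B.card := by
  classical
  obtain ⟨k, hk⟩ : ∃ k : Finset ℝ → ℤ, k = fun U' => n (B.filter (fun b : ℕ => (b : ℝ) ∈ U')) :=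
    ⟨_, rfl⟩
  have hkU : ∀ U ∈ B.powerset, k (U.image (fun b : ℕ => (b : ℝ))) = n U := by
    intro U hU
    rw [hk]
    show n _ = n U
    congr 1
    ext b
    rw [Finset.mem_filter, Finset.mem_image]
    constructor
    · rintro ⟨_, c, hc, hcb⟩
      rwa [← ZerN_inj hcb]
    · intro hb
      exact ⟨Finset.mem_powerset.1 hU hb, b, hb, rfl⟩
  have hB : ∀ β ∈ B.image (fun b : ℕ => (b : ℝ)), (0 : ℝ) ≤ β := by
    intro β hβ
    obtain ⟨b, _, rfl⟩ := Finset.mem_image.1 hβ
    exact Nat.cast_nonneg b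
  have hsum : ∀ x : ℝ, ∑ U' ∈ (B.image (fun b : ℕ => (b : ℝ))).powerset,
      ((k U' : ℤ) : ℝ) * ∏ β ∈ U', √(x + β) =
      ∑ U ∈ B.powerset, (n U : ℝ) * ∏ β ∈ U, √(x + (β : ℝ)) := by
    intro x
    rw [ZerN_sum]
    refine Finset.sum_congr rfl fun U hU => ?_
    rw [hkU U hU, Finset.prod_image (fun a _ b _ h => ZerN_inj h)]
  have hne : ∃ x : ℝ, 0 < x ∧ ∑ U' ∈ (B.image (fun b : ℕ => (b : ℝ))).powerset,
      ((k U' : ℤ) : ℝ) * ∏ β ∈ U', √(x + β) ≠ 0 := by
    by_contra hcon
    push Not at hcon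
    have h1 := Ind_main (B.image (fun b : ℕ => (b : ℝ))) hB (fun U' => ((k U' : ℤ) : ℝ)) hcon
    obtain ⟨U, hU, hnU⟩ := hn
    have h2 := h1 (U.image (fun b : ℕ => (b : ℝ)))
      (Finset.mem_powerset.2 (Finset.image_subset_image (Finset.mem_powerset.1 hU)))
    have h3 : ((k (U.image (fun b : ℕ => (b : ℝ))) : ℤ) : ℝ) = 0 := h2
    rw [hkU U hU] at h3
    exact hnU (by exact_mod_cast h3)
  have h := Zer_main (B.image (fun b : ℕ => (b : ℝ))) hB
    (fun U' => Polynomial.C ((k U' : ℤ) : ℝ)) B.card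
    (by
      intro U hU
      rw [Polynomial.natDegree_C, mul_zero, zero_add]
      exact (Finset.card_le_card (Finset.mem_powerset.1 hU)).trans Finset.card_image_le)
    (by
      obtain ⟨x, hx, hx'⟩ := hne
      refine ⟨x, hx, ?_⟩
      simp only [Polynomial.eval_C]
      exact hx')
    (A.image (fun b : ℕ => (b : ℝ)))
    (by
      intro x hx
      obtain ⟨a, ha, rfl⟩ := Finset.mem_image.1 hx
      obtain ⟨h1, h2⟩ := hA a ha
      refine ⟨Nat.cast_pos.2 h1, ?_⟩
      simp only [Polynomial.eval_C]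
      rw [hsum]
      exact h2)
  rw [Finset.card_image_of_injective _ ZerN_inj, Finset.card_image_of_injective _ ZerN_inj] at h
  exact h

end Pool.H74.HL
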