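import Mathlib
import Pool.Agent.H74.HL.ZerN
import Pool.Agent.H74.HL.Ser
import Pool.Agent.H74.HL.Box

/-!
# Row Sum: the sum set theorem

PROOF. Index set ι = subsets of B (the subtype of B.powerset, card 2^r, r = |B|), F_U(u) =
∏_{β ∈ U} √(p + u + β), ρ = p/2, coefficients from Ser_main, M0 = (2√Z)^r ≥ 1 (2√Z ≥ 1 since Z ≥ 1, |U| ≤ r, so
(2√Z)^|U| ≤ M0).  The condition of Box_main: n^2 M0^2 = 4^r (4Z)^r = (16 Z)^r, ℓ/ρ = 2ℓ/p.
Box_main gives integers w(U), not all 0, |Σ_U w(U) F_U(u)| < 1 for 0 ≤ u ≤ ℓ.  For x in A put u = x - p: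
F_U(u) = ∏_{β ∈ U} √(x + β) is a natural number because every x + β is a square, so Σ_U w(U) F_U(u) is an
integer of absolute value < 1, so it is 0.  Extend w by 0 (or by any value) to a function
n : Finset ℕ → ℤ.  ZerN_main (x > 0 because x ≥ p > 0) gives 2 |A| ≤ r 2^r.
-/

namespace Pool.H74.HL

open Finset

theorem Sum_main (A B : Finset ℕ) (p ℓ Z : ℝ) (T : ℕ) (hp : 0 < p) (hℓ : 0 ≤ ℓ)
    (hℓp : 2 * ℓ ≤ p) (hA : ∀ x ∈ A, p ≤ (x : ℝ) ∧ (x : ℝ) ≤ p + ℓ)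
    (hZ : ∀ β ∈ B, p + (β : ℝ) ≤ Z) (hZ1 : 1 ≤ Z)
    (hsq : ∀ x ∈ A, ∀ β ∈ B, IsSquare (x + β)) (hT1 : 1 ≤ T) (hT : 2 * T < 2 ^ B.card)
    (hcond : 44 * (T : ℝ) * (16 * Z) ^ B.card * (2 * ℓ / p) ^ T ≤ 1) :
    2 * A.card ≤ B.card * 2 ^ B.card := by
  classical
  have hZ0 : (0 : ℝ) ≤ Z := by linarith
  have hser : ∀ i : B.powerset, ∃ c : ℕ → ℝ, Summable (fun t => |c t| * (p / 2) ^ t) ∧
      ∑' t, |c t| * (p / 2) ^ t ≤ (2 * √Z) ^ (i : Finset ℕ).card ∧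
      ∀ u : ℝ, 0 ≤ u → u ≤ p / 2 →
        HasSum (fun t => c t * u ^ t) (∏ β ∈ (i : Finset ℕ), √((p + u) + (β : ℝ))) :=
    fun i => Ser_main p Z hp i (fun β hβ => hZ β (mem_powerset.1 i.2 hβ))
  choose c hc1 hc2 hc3 using hser
  have h1Z : (1 : ℝ) ≤ √Z := by
    rw [show (1 : ℝ) = √1 from Real.sqrt_one.symm]
    exact Real.sqrt_le_sqrt hZ1
  have h2Z : (1 : ℝ) ≤ 2 * √Z := by linarith
  have hcard : Fintype.card B.powerset = 2 ^ B.card := by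
    rw [Fintype.card_coe, card_powerset]
  have hsqZ : √Z * √Z = Z := Real.mul_self_sqrt hZ0
  obtain ⟨w, ⟨i0, hi0⟩, hw⟩ := Box_main c
    (fun i u => ∏ β ∈ (i : Finset ℕ), √((p + u) + (β : ℝ))) (p / 2) ℓ ((2 * √Z) ^ B.card) T
    (by positivity) hℓ (by linarith) (one_le_pow₀ h2Z) hc1
    (fun i => (hc2 i).trans (pow_le_pow_right₀ h2Z (card_le_card (mem_powerset.1 i.2))))
    hc3 hT1 (by rw [hcard]; exact hT) (by
      rw [hcard]
      have e1 : ℓ / (p / 2) = 2 * ℓ / p := by field_simp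
      have e2 : (((2 ^ B.card : ℕ) : ℝ)) ^ 2 * ((2 * √Z) ^ B.card) ^ 2 = (16 * Z) ^ B.card := by
        push_cast
        rw [← pow_mul, ← pow_mul, mul_comm B.card 2, pow_mul, pow_mul, ← mul_pow]
        congr 1
        calc (2 : ℝ) ^ 2 * (2 * √Z) ^ 2 = 16 * (√Z * √Z) := by ring
          _ = 16 * Z := by rw [hsqZ]
      rw [e1]
      calc 44 * (T : ℝ) * (((2 ^ B.card : ℕ) : ℝ)) ^ 2 * ((2 * √Z) ^ B.card) ^ 2 *
            (2 * ℓ / p) ^ T
          = 44 * (T : ℝ) * ((((2 ^ B.card : ℕ) : ℝ)) ^ 2 * ((2 * √Z) ^ B.card) ^ 2) *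
            (2 * ℓ / p) ^ T := by ring
        _ ≤ 1 := by rw [e2]; exact hcond)
  refine ZerN_main A B (fun U => if h : U ∈ B.powerset then w ⟨U, h⟩ else 0)
    ⟨i0, i0.2, ?_⟩ ?_
  · simpa using hi0
  · intro x hx
    obtain ⟨hx1, hx2⟩ := hA x hx
    refine ⟨?_, ?_⟩
    · have : (0 : ℝ) < x := lt_of_lt_of_le hp hx1
      exact_mod_cast this
    · have hroot : ∀ β ∈ B, √((x : ℝ) + (β : ℝ)) = (Nat.sqrt (x + β) : ℝ) := by
        intro β hβ
        obtain ⟨k, hk⟩ := hsq x hx β hβ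
        rw [hk, Nat.sqrt_eq]
        have : (x : ℝ) + (β : ℝ) = (k : ℝ) * (k : ℝ) := by exact_mod_cast hk
        rw [this, Real.sqrt_mul_self (Nat.cast_nonneg k)]
      have hwx := hw ((x : ℝ) - p) (by linarith) (by linarith)
      have e1 : ∀ i : B.powerset, ∏ β ∈ (i : Finset ℕ), √((p + ((x : ℝ) - p)) + (β : ℝ)) =
          ((∏ β ∈ (i : Finset ℕ), (Nat.sqrt (x + β) : ℤ) : ℤ) : ℝ) := by
        intro i
        push_cast
        refine prod_congr rfl fun β hβ => ?_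
        rw [show p + ((x : ℝ) - p) = x by ring]
        exact hroot β (mem_powerset.1 i.2 hβ)
      have e2 : ∑ i : B.powerset, (w i : ℝ) *
          ∏ β ∈ (i : Finset ℕ), √((p + ((x : ℝ) - p)) + (β : ℝ)) =
          ((∑ i : B.powerset, w i * ∏ β ∈ (i : Finset ℕ), (Nat.sqrt (x + β) : ℤ) : ℤ) : ℝ) := by
        rw [Int.cast_sum]
        refine sum_congr rfl fun i _ => ?_
        rw [e1 i, Int.cast_mul]
      have e3 : ∑ i : B.powerset, w i * ∏ β ∈ (i : Finset ℕ), (Nat.sqrt (x + β) : ℤ) = 0 := by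
        rw [e2] at hwx
        rw [← Int.cast_abs] at hwx
        have : |∑ i : B.powerset, w i * ∏ β ∈ (i : Finset ℕ), (Nat.sqrt (x + β) : ℤ)| < 1 := by
          exact_mod_cast hwx
        exact Int.abs_lt_one_iff.1 this
      rw [e3, Int.cast_zero] at e2
      rw [← e2, ← Finset.sum_coe_sort B.powerset]
      refine sum_congr rfl fun i _ => ?_
      rw [dif_pos i.2]
      rw [show p + ((x : ℝ) - p) = x by ring]

end Pool.H74.HL
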