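import Mathlib
import Pool.Agent.H74.HL.Sum

/-!
# Row Piece: the counting inequality

H_S = set of the sums of subsets of S. Hypothesis hgrow: q^|S| ≤ |H_S|^e for all S.

PROOF. Let m be an index with c m maximal.  Let j be the least natural number with r^e ≤ q^j; then
q^j ≤ q r^e (j = 0: trivial; j ≥ 1: q^(j-1) < r^e).
If j ≥ k: q^(k-1) ≤ q^(j-1) < r^e, so q^k ≤ q r^e and we are done (k ≥ 1, r ≥ 1).
If j ≤ k - 1: choose J of size j not containing m; |H_J|^e ≥ q^j ≥ r^e so |H_J| ≥ r; let B ⊆ H_J have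
exactly r elements.  S' = all indices outside J ∪ {m}, |S'| = k - 1 - j, A0 = H_{S'},
q^(k-1-j) ≤ |A0|^e.  Claim: |A0| ≤ 8k · (r 2^r / 2) = 4 k r 2^r.  Then
q^k = q q^j q^(k-1-j) ≤ q (q r^e) (4 k r 2^r)^e = q^2 (4 k r^2 2^r)^e.
Proof of the claim.  For α in A0: α ≤ (k-1) c_m < k c_m, so t = ⌊8 α / c_m⌋ is in {0, ..., 8k-1}; fibres of
α ↦ t.  For a fixed t with nonempty fibre: ℓ = c_m/8, p = a + c_m + t ℓ (real), A = {a + c_m + α : α in the
fibre} ⊆ [p, p + ℓ].  Apply Sum_main: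
 * x + β is a square for x in A, β in B: it is a + c_m + σ(s) + σ(s'), s ⊆ S', s' ⊆ J, the index sets
   {m}, s, s' are disjoint;
 * p ≥ c_m = 8ℓ > 0; p + β ≤ x + β ≤ a + sum of all c ≤ Z for any x in A;
 * (2ℓ/p) = c_m/(4p) ≤ c_m/(4(a + c_m)) ≤ 1/4, and M ≤ a + k c_m ≤ k (a + c_m), so it is also
   ≤ k c_m/(4M) ≤ k L/(4M); so (2ℓ/p) ≤ min ≤ lam, and (2ℓ/p)^T ≤ lam^T.
So 2 |fibre| ≤ r 2^r.  Sum over the 8k values of t.
-/

namespace Pool.H74.HL

open Finset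

/-- A union of `{m}`, a part outside and a part inside `J`. -/
theorem Piece_union {k : ℕ} (c : Fin k → ℕ) (m : Fin k) (J s s' : Finset (Fin k))
    (hmJ : m ∉ J) (hs : s ⊆ (univ.erase m) \ J) (hs' : s' ⊆ J) :
    ∃ U : Finset (Fin k), ∑ i ∈ U, c i = c m + ∑ i ∈ s, c i + ∑ i ∈ s', c i := by
  classical
  have hms : m ∉ s := by
    intro h
    have := hs h
    simp at this
  have hms' : m ∉ s' := fun h => hmJ (hs' h)
  have hd : Disjoint s s' := by
    rw [Finset.disjoint_left]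
    intro x hx hx'
    have := hs hx
    rw [mem_sdiff] at this
    exact this.2 (hs' hx')
  refine ⟨insert m (s ∪ s'), ?_⟩
  rw [sum_insert (by simp [hms, hms']), sum_union hd]
  ring

theorem Piece_fibre (k a : ℕ) (c : Fin k → ℕ) (M L Z lam : ℝ) (r T : ℕ)
    (hc : ∀ i, 0 < c i)
    (hsq : ∀ s : Finset (Fin k), IsSquare (a + ∑ i ∈ s, c i))
    (hM : 0 < M) (hM2 : M ≤ (a : ℝ) + ∑ i, (c i : ℝ)) (hL : ∀ i, (c i : ℝ) ≤ L)
    (hZ : (a : ℝ) + ∑ i, (c i : ℝ) ≤ Z) (hZ1 : 1 ≤ Z)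
    (hT1 : 1 ≤ T) (hT : 2 * T < 2 ^ r)
    (hlam : min (1 / 4) ((k : ℝ) * L / (4 * M)) ≤ lam)
    (hcond : 44 * (T : ℝ) * (16 * Z) ^ r * lam ^ T ≤ 1)
    (m : Fin k) (hm : ∀ i, c i ≤ c m) (J : Finset (Fin k)) (hmJ : m ∉ J)
    (B : Finset ℕ) (hB : B ⊆ J.powerset.image (fun s => ∑ i ∈ s, c i)) (hBr : B.card = r)
    (t : ℕ) :
    2 * ((((univ.erase m) \ J).powerset.image (fun s => ∑ i ∈ s, c i)).filter
      (fun α => 8 * α / c m = t)).card ≤ r * 2 ^ r := by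
  classical
  set F := ((((univ.erase m) \ J).powerset.image (fun s => ∑ i ∈ s, c i)).filter
      (fun α => 8 * α / c m = t)) with hF
  have hcm : 0 < c m := hc m
  have hcmR : (0 : ℝ) < (c m : ℝ) := by exact_mod_cast hcm
  have ha0 : (0 : ℝ) ≤ (a : ℝ) := Nat.cast_nonneg a
  have ht0 : (0 : ℝ) ≤ (t : ℝ) := Nat.cast_nonneg t
  -- facts about pairs
  have hpair : ∀ α ∈ F, ∀ β ∈ B, ∃ U : Finset (Fin k), ∑ i ∈ U, c i = c m + α + β := by
    intro α hα β hβ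
    rw [hF, mem_filter, mem_image] at hα
    obtain ⟨⟨s, hs, rfl⟩, -⟩ := hα
    obtain ⟨s', hs', rfl⟩ := mem_image.1 (hB hβ)
    exact Piece_union c m J s s' hmJ (mem_powerset.1 hs) (mem_powerset.1 hs')
  have hbounds : ∀ α ∈ F, (t : ℝ) * ((c m : ℝ) / 8) ≤ (α : ℝ) ∧
      (α : ℝ) ≤ (t : ℝ) * ((c m : ℝ) / 8) + (c m : ℝ) / 8 := by
    intro α hα
    have h2 : 8 * α / c m = t := (mem_filter.1 hα).2
    have h3 : t * c m ≤ 8 * α := by
      rw [← h2]; exact Nat.div_mul_le_self _ _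
    have h4 : 8 * α < (t + 1) * c m := by
      rw [← h2]
      nlinarith [Nat.div_add_mod (8 * α) (c m), Nat.mod_lt (8 * α) hcm]
    have h3' : (t : ℝ) * (c m : ℝ) ≤ 8 * (α : ℝ) := by exact_mod_cast h3
    have h4' : 8 * (α : ℝ) < ((t : ℝ) + 1) * (c m : ℝ) := by exact_mod_cast h4
    constructor <;> linarith
  rcases F.eq_empty_or_nonempty with hE | ⟨α0, hα0⟩
  · rw [hE]; simp
  set A : Finset ℕ := F.image (fun α => a + c m + α) with hAdef
  have hAcard : A.card = F.card := by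
    rw [hAdef]
    apply card_image_of_injective
    intro x y hxy
    simpa using hxy
  rw [← hAcard, ← hBr]
  have hsum_le : ∀ U : Finset (Fin k), ((∑ i ∈ U, c i : ℕ) : ℝ) ≤ ∑ i, (c i : ℝ) := by
    intro U
    push_cast
    exact sum_le_sum_of_subset_of_nonneg (subset_univ _) (fun i _ _ => Nat.cast_nonneg _)
  have hk0 : (0 : ℝ) < (k : ℝ) := by
    have : 0 < k := Fin.pos m
    exact_mod_cast this
  have hsumk : ∑ i, (c i : ℝ) ≤ (k : ℝ) * (c m : ℝ) := by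
    calc ∑ i, (c i : ℝ) ≤ ∑ _i : Fin k, (c m : ℝ) :=
          sum_le_sum (fun i _ => by exact_mod_cast hm i)
      _ = (k : ℝ) * (c m : ℝ) := by simp
  have hk1 : (1 : ℝ) ≤ (k : ℝ) := by
    have : 1 ≤ k := Fin.pos m
    exact_mod_cast this
  have hMk : M ≤ (k : ℝ) * ((a : ℝ) + (c m : ℝ)) := by nlinarith
  have hpp : 0 < (a : ℝ) + (c m : ℝ) + (t : ℝ) * ((c m : ℝ) / 8) := by positivity
  have hlam0 : 2 * ((c m : ℝ) / 8) / ((a : ℝ) + (c m : ℝ) + (t : ℝ) * ((c m : ℝ) / 8)) ≤ lam := by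
    refine le_trans (le_min ?_ ?_) hlam
    · rw [div_le_iff₀ hpp]
      have : 0 ≤ (t : ℝ) * ((c m : ℝ) / 8) := by positivity
      nlinarith
    · rw [div_le_div_iff₀ hpp (by positivity)]
      have h1 : 0 ≤ (t : ℝ) * ((c m : ℝ) / 8) := by positivity
      have h2 : (c m : ℝ) * M ≤ (c m : ℝ) * ((k : ℝ) * ((a : ℝ) + (c m : ℝ))) :=
        mul_le_mul_of_nonneg_left hMk hcmR.le
      have h3 : (c m : ℝ) * ((k : ℝ) * ((a : ℝ) + (c m : ℝ))) ≤
          L * ((k : ℝ) * ((a : ℝ) + (c m : ℝ))) :=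
        mul_le_mul_of_nonneg_right (hL m) (by positivity)
      have h4 : 0 ≤ L := hcmR.le.trans (hL m)
      have h5 : L * ((k : ℝ) * ((a : ℝ) + (c m : ℝ))) ≤
          (k : ℝ) * L * ((a : ℝ) + (c m : ℝ) + (t : ℝ) * ((c m : ℝ) / 8)) := by
        have : 0 ≤ (k : ℝ) * L * ((t : ℝ) * ((c m : ℝ) / 8)) := by positivity
        nlinarith
      nlinarith
  have hratio0 : 0 ≤ 2 * ((c m : ℝ) / 8) /
      ((a : ℝ) + (c m : ℝ) + (t : ℝ) * ((c m : ℝ) / 8)) := by positivity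
  refine Sum_main A B ((a : ℝ) + (c m : ℝ) + (t : ℝ) * ((c m : ℝ) / 8)) ((c m : ℝ) / 8) Z T
    hpp (by positivity) ?_ ?_ ?_ hZ1 ?_ hT1 (by rw [hBr]; exact hT) ?_
  · have : 0 ≤ (t : ℝ) * ((c m : ℝ) / 8) := by positivity
    nlinarith
  · intro x hx
    obtain ⟨α, hα, rfl⟩ := mem_image.1 hx
    obtain ⟨h1, h2⟩ := hbounds α hα
    push_cast
    constructor <;> linarith
  · intro β hβ
    obtain ⟨U, hU⟩ := hpair α0 hα0 β hβ
    obtain ⟨h1, h2⟩ := hbounds α0 hα0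
    have h3 := hsum_le U
    rw [hU] at h3
    push_cast at h3
    linarith
  · intro x hx β hβ
    obtain ⟨α, hα, rfl⟩ := mem_image.1 hx
    obtain ⟨U, hU⟩ := hpair α hα β hβ
    have h := hsq U
    rw [hU] at h
    have e : a + c m + α + β = a + (c m + α + β) := by ring
    rw [e]
    exact h
  · refine le_trans ?_ hcond
    rw [hBr]
    have h16 : (0 : ℝ) ≤ 44 * (T : ℝ) * (16 * Z) ^ r := by positivity
    exact mul_le_mul_of_nonneg_left (pow_le_pow_left₀ hratio0 hlam0 T) h16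

theorem Piece_main (q e k a : ℕ) (c : Fin k → ℕ) (M L Z lam : ℝ) (r T : ℕ)
    (hq : 2 ≤ q) (he : 1 ≤ e) (hk : 1 ≤ k) (hc : ∀ i, 0 < c i)
    (hsq : ∀ s : Finset (Fin k), IsSquare (a + ∑ i ∈ s, c i))
    (hgrow : ∀ S : Finset (Fin k),
      q ^ S.card ≤ (S.powerset.image (fun s => ∑ i ∈ s, c i)).card ^ e)
    (hM : 0 < M) (hM2 : M ≤ (a : ℝ) + ∑ i, (c i : ℝ)) (hL : ∀ i, (c i : ℝ) ≤ L)
    (hZ : (a : ℝ) + ∑ i, (c i : ℝ) ≤ Z) (hZ1 : 1 ≤ Z)
    (hr : 1 ≤ r) (hT1 : 1 ≤ T) (hT : 2 * T < 2 ^ r)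
    (hlam : min (1 / 4) ((k : ℝ) * L / (4 * M)) ≤ lam)
    (hcond : 44 * (T : ℝ) * (16 * Z) ^ r * lam ^ T ≤ 1) :
    q ^ k ≤ q ^ 2 * (4 * k * r ^ 2 * 2 ^ r) ^ e := by
  classical
  have hq1 : 1 ≤ q := by omega
  have : Nonempty (Fin k) := ⟨⟨0, hk⟩⟩
  obtain ⟨m, -, hm'⟩ := exists_max_image (univ : Finset (Fin k)) c univ_nonempty
  have hm : ∀ i, c i ≤ c m := fun i => hm' i (mem_univ i)
  have hex : ∃ j, r ^ e ≤ q ^ j :=
    ⟨r ^ e, (Nat.lt_pow_self (by omega : 1 < q)).le⟩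
  obtain ⟨j, hj, hjmin⟩ : ∃ j, r ^ e ≤ q ^ j ∧ ∀ i < j, q ^ i < r ^ e :=
    ⟨Nat.find hex, Nat.find_spec hex, fun i hi => not_le.1 (Nat.find_min hex hi)⟩
  have hre : 1 ≤ r ^ e := Nat.one_le_pow _ _ hr
  have hjq : q ^ j ≤ q * r ^ e := by
    rcases Nat.eq_zero_or_pos j with rfl | hj0
    · rw [pow_zero]
      exact Nat.mul_pos hq1 hre
    · obtain ⟨i, rfl⟩ : ∃ i, j = i + 1 := ⟨j - 1, by omega⟩
      rw [pow_succ, mul_comm]
      exact Nat.mul_le_mul_left q (hjmin i (by omega)).le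
  have hbase : r ≤ 4 * k * r ^ 2 * 2 ^ r := by
    have h1 : 1 ≤ 4 * k * r * 2 ^ r := by
      have : 0 < 4 * k * r * 2 ^ r := by positivity
      omega
    calc r = r * 1 := by ring
      _ ≤ r * (4 * k * r * 2 ^ r) := Nat.mul_le_mul_left r h1
      _ = 4 * k * r ^ 2 * 2 ^ r := by ring
  by_cases hjk : k ≤ j
  · have h1 : q ^ (k - 1) < r ^ e := hjmin (k - 1) (by omega)
    have h2 : q ^ k = q * q ^ (k - 1) := by
      obtain ⟨i, rfl⟩ : ∃ i, k = i + 1 := ⟨k - 1, by omega⟩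
      rw [pow_succ, mul_comm]; simp
    calc q ^ k = q * q ^ (k - 1) := h2
      _ ≤ q * r ^ e := Nat.mul_le_mul_left q h1.le
      _ ≤ q ^ 2 * (4 * k * r ^ 2 * 2 ^ r) ^ e :=
          Nat.mul_le_mul (by nlinarith) (Nat.pow_le_pow_left hbase e)
  · have hjk' : j ≤ k - 1 := by omega
    have hcardE : (univ.erase m : Finset (Fin k)).card = k - 1 := by
      rw [card_erase_of_mem (mem_univ m), card_univ, Fintype.card_fin]
    obtain ⟨J, hJ, hJc⟩ := exists_subset_card_eq (s := (univ.erase m : Finset (Fin k))) (n := j)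
      (by rw [hcardE]; exact hjk')
    have hmJ : m ∉ J := by
      intro h
      have := hJ h
      simp at this
    have hHJ : r ≤ (J.powerset.image (fun s => ∑ i ∈ s, c i)).card := by
      have h1 := hgrow J
      rw [hJc] at h1
      exact (Nat.pow_le_pow_iff_left (by omega : e ≠ 0)).1 (hj.trans h1)
    obtain ⟨B, hB, hBr⟩ := exists_subset_card_eq hHJ
    have hfib := Piece_fibre k a c M L Z lam r T hc hsq hM hM2 hL hZ hZ1 hT1 hT hlam hcond
      m hm J hmJ B hB hBr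
    set A0 := (((univ.erase m) \ J).powerset.image (fun s => ∑ i ∈ s, c i)) with hA0
    have hS' : ((univ.erase m) \ J : Finset (Fin k)).card = k - 1 - j := by
      rw [card_sdiff_of_subset hJ, hcardE, hJc]
    have hA0c : q ^ (k - 1 - j) ≤ A0.card ^ e := by
      have := hgrow ((univ.erase m) \ J)
      rw [hS'] at this
      exact this
    have hmaps : ∀ α ∈ A0, 8 * α / c m ∈ range (8 * k) := by
      intro α hα
      rw [hA0, mem_image] at hα
      obtain ⟨s, hs, rfl⟩ := hα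
      rw [mem_range, Nat.div_lt_iff_lt_mul (hc m)]
      have hms : m ∉ s := by
        intro h
        have := (mem_powerset.1 hs) h
        simp at this
      have h1 : ∑ i ∈ s, c i + c m ≤ ∑ i, c i := by
        rw [add_comm, ← sum_insert hms]
        exact sum_le_sum_of_subset (subset_univ _)
      have h2 : ∑ i, c i ≤ k * c m := by
        calc ∑ i, c i ≤ ∑ _i : Fin k, c m := sum_le_sum (fun i _ => hm i)
          _ = k * c m := by simp
      have h3 := hc m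
      nlinarith
    have hA0le : A0.card ≤ (r * 2 ^ r / 2) * (range (8 * k)).card := by
      refine card_le_mul_card_image_of_maps_to hmaps _ ?_
      intro t _
      have := hfib t
      omega
    have hA0le2 : A0.card ≤ 4 * k * r * 2 ^ r := by
      rw [card_range] at hA0le
      refine hA0le.trans ?_
      have : r * 2 ^ r / 2 * 2 ≤ r * 2 ^ r := Nat.div_mul_le_self _ _
      calc r * 2 ^ r / 2 * (8 * k) = (r * 2 ^ r / 2 * 2) * (4 * k) := by ring
        _ ≤ (r * 2 ^ r) * (4 * k) := Nat.mul_le_mul_right _ this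
        _ = 4 * k * r * 2 ^ r := by ring
    have hsplit : q ^ k = q * q ^ j * q ^ (k - 1 - j) := by
      calc q ^ k = q ^ (1 + j + (k - 1 - j)) := by congr 1; omega
        _ = q * q ^ j * q ^ (k - 1 - j) := by rw [pow_add, pow_add, pow_one]
    calc q ^ k = q * q ^ j * q ^ (k - 1 - j) := hsplit
      _ ≤ q * (q * r ^ e) * (4 * k * r * 2 ^ r) ^ e :=
          Nat.mul_le_mul (Nat.mul_le_mul_left q hjq)
            (hA0c.trans (Nat.pow_le_pow_left hA0le2 e))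
      _ = q ^ 2 * (r ^ e * (4 * k * r * 2 ^ r) ^ e) := by ring
      _ = q ^ 2 * (4 * k * r ^ 2 * 2 ^ r) ^ e := by
          rw [← mul_pow]
          congr 2
          ring

end Pool.H74.HL
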