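import Mathlib
import Pool.Agent.H74.HL.Piece
import Pool.Agent.H74.HL.Par

/-!
# Row Core: bound for cubes with positive generators

PROOF. C = max (C from Par_main) 0; then the claim is trivial for k = 0 (log(1/η) ≥ 0, κ > 0 since
κ > e/log q > 0).  Let k ≥ 1 and suppose κ log(1/η) + C < k.  Take r, T from Par_main.
Apply Piece_main with L = e M^(1-η), Z = 4 k M, lam = min(1/4, k L/(4M)).
Since η ≥ 1/log M, M^(1-η) ≤ M^(1 - 1/log M) = M/e, so L ≤ M, so a + Σ c ≤ M + k L ≤ 2kM ≤ Z.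
Piece_main gives q^k ≤ q^2 (4 k r^2 2^r)^e (naturals, cast to reals), contradiction to the last item.
-/

namespace Pool.H74.HL

open Finset

theorem Core_main (q e : ℕ) (hq : 2 ≤ q) (he : 1 ≤ e) (κ : ℝ) (hκ : (e : ℝ) / Real.log q < κ) :
    ∃ C : ℝ, ∀ (k a : ℕ) (c : Fin k → ℕ) (M η : ℝ), (∀ i, 0 < c i) →
      (∀ s : Finset (Fin k), IsSquare (a + ∑ i ∈ s, c i)) →
      (∀ S : Finset (Fin k),
        q ^ S.card ≤ (S.powerset.image (fun s => ∑ i ∈ s, c i)).card ^ e) →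
      3 ≤ M → (a : ℝ) ≤ M → M ≤ (a : ℝ) + ∑ i, (c i : ℝ) →
      1 / Real.log M ≤ η → η ≤ 1 → (∀ i, (c i : ℝ) ≤ Real.exp 1 * M ^ (1 - η)) →
      (k : ℝ) ≤ κ * Real.log (1 / η) + C := by
  obtain ⟨C0, hC0⟩ := Par_main q e hq he κ hκ
  have hlq : 0 < Real.log q := Real.log_pos (by exact_mod_cast hq)
  have hκ0 : 0 < κ := by
    have h1 : (0 : ℝ) < e := by exact_mod_cast he
    exact lt_trans (by positivity) hκ
  refine ⟨max C0 0, ?_⟩
  intro k a c M η hc hsq hgrow hM haM hMs hη hη1 hcL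
  have hMpos : 0 < M := by linarith
  have hm : 0 < Real.log M := Real.log_pos (by linarith)
  have hηpos : 0 < η := lt_of_lt_of_le (by positivity) hη
  have hy : 0 ≤ Real.log (1 / η) := Real.log_nonneg (by rw [le_div_iff₀ hηpos]; linarith)
  have hky : 0 ≤ κ * Real.log (1 / η) := mul_nonneg hκ0.le hy
  rcases Nat.eq_zero_or_pos k with hk0 | hk
  · subst hk0
    have := le_max_right C0 0
    push_cast
    linarith
  by_contra hcon
  push Not at hcon
  have hkC : κ * Real.log (1 / η) + C0 < k := by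
    have := le_max_left C0 0
    linarith
  obtain ⟨r, T, hr, hT1, hT, hcond, hfin⟩ := hC0 k M η hk hM hη hη1 hkC
  have hkr : (1 : ℝ) ≤ k := by exact_mod_cast hk
  have hL1 : Real.exp 1 * M ^ (1 - η) ≤ M := by
    have h1 : M ^ (1 - η) ≤ M ^ (1 - 1 / Real.log M) :=
      Real.rpow_le_rpow_of_exponent_le (by linarith) (by linarith)
    have h2 : Real.exp 1 * M ^ (1 - 1 / Real.log M) = M := by
      rw [Real.rpow_def_of_pos hMpos, ← Real.exp_add]
      have e1 : 1 + Real.log M * (1 - 1 / Real.log M) = Real.log M := by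
        field_simp
        ring
      rw [e1, Real.exp_log hMpos]
    calc Real.exp 1 * M ^ (1 - η) ≤ Real.exp 1 * M ^ (1 - 1 / Real.log M) :=
          mul_le_mul_of_nonneg_left h1 (Real.exp_pos _).le
      _ = M := h2
  have hsum : ∑ i, (c i : ℝ) ≤ k * M := by
    have h1 : ∑ i, (c i : ℝ) ≤ ∑ _i : Fin k, M := Finset.sum_le_sum fun i _ => (hcL i).trans hL1
    rw [Finset.sum_const, Finset.card_univ, Fintype.card_fin, nsmul_eq_mul] at h1
    exact h1
  have hkM : M ≤ k * M := by nlinarith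
  have hp := Piece_main q e k a c M (Real.exp 1 * M ^ (1 - η)) (4 * (k : ℝ) * M)
    (min (1 / 4) ((k : ℝ) * (Real.exp 1 * M ^ (1 - η)) / (4 * M))) r T hq he hk hc hsq hgrow hMpos hMs hcL
    (by linarith) (by linarith) hr hT1 hT le_rfl hcond
  have hp' : (q : ℝ) ^ k ≤ (q : ℝ) ^ 2 * (4 * (k : ℝ) * (r : ℝ) ^ 2 * 2 ^ r) ^ e := by exact_mod_cast hp
  linarith

end Pool.H74.HL
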