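import Mathlib

/-!
# Row Dir: the cube over a relation splits off as a direct summand

Notation: for a finite set of indices s write σ(s) = sum of c i over i in s.  P, Q are disjoint with
σ(P) = σ(Q), T = P ∪ Q, R disjoint from T, and the set of all sums σ(s), s ⊆ T ∪ R, contains no
four-term progression x, x+v, x+2v, x+3v with v > 0.

KEY CLAIM. If U, V ⊆ T are disjoint, X, Y ⊆ R are disjoint and σ(U) + σ(Y) = σ(V) + σ(X) then
σ(U) = σ(V).
Proof (integers). Put v = σ(U) - σ(V) = σ(X) - σ(Y) and suppose v ≠ 0.  Let W = T \ (U ∪ V), and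
write U_P = U ∩ P, U_Q = U ∩ Q and so on, w1 = σ(U_P) - σ(V_Q), w2 = σ(U_Q) - σ(V_P).  Then
w1 + w2 = v, so w1 ≠ 0 or w2 ≠ 0.  P and Q play symmetric roles; suppose w1 ≠ 0.  The four sets
   E1 = V ∪ W_P ∪ Y,
   E2 = U_P ∪ V_P ∪ W_P ∪ Y,
   E3 = U_P ∪ U_Q ∪ W_Q ∪ Y,
   E4 = U_P ∪ V_P ∪ W_Q ∪ X
have sums in arithmetic progression with difference w1:
   σ(E2) - σ(E1) = σ(U_P) - σ(V_Q) = w1;
   σ(E3) - σ(E2) = σ(U_Q) + σ(W_Q) - σ(V_P) - σ(W_P) = w1, because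
        σ(U_P) + σ(V_P) + σ(W_P) = σ(P) = σ(Q) = σ(U_Q) + σ(V_Q) + σ(W_Q);
   σ(E4) - σ(E3) = σ(V_P) - σ(U_Q) + σ(X) - σ(Y) = σ(V_P) - σ(U_Q) + σ(U) - σ(V) = w1.
If w1 > 0 this is a forbidden progression; if w1 < 0 read it backwards.  Contradiction.

Dir_card: the map (x, y) ↦ x + y from H_T × H_R onto H_{T ∪ R} is injective: if
σ(U') + σ(Y') = σ(V') + σ(X') with U', V' ⊆ T and X', Y' ⊆ R, remove common elements:
U = U' \ V', V = V' \ U', X = X' \ Y', Y = Y' \ X' satisfy the hypothesis of the key claim, so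
σ(U) = σ(V), so σ(U') = σ(V') and σ(X') = σ(Y').  It is onto: s = (s ∩ T) ∪ (s ∩ R).
-/

namespace Pool.H74.HL

open Finset

theorem Dir_ap {ι : Type*} [DecidableEq ι] (c : ι → ℕ) (Z : Finset ι)
    (hAP : ∀ x v : ℕ, 0 < v →
      ¬ (∀ t : ℕ, t < 4 → x + t * v ∈ Z.powerset.image (fun s => ∑ i ∈ s, c i)))
    (E1 E2 E3 E4 : Finset ι) (h1 : E1 ⊆ Z) (h2 : E2 ⊆ Z) (h3 : E3 ⊆ Z) (h4 : E4 ⊆ Z)
    (v : ℕ) (h12 : ∑ i ∈ E2, c i = ∑ i ∈ E1, c i + v)
    (h23 : ∑ i ∈ E3, c i = ∑ i ∈ E2, c i + v)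
    (h34 : ∑ i ∈ E4, c i = ∑ i ∈ E3, c i + v) : v = 0 := by
  by_contra hv
  refine hAP (∑ i ∈ E1, c i) v (Nat.pos_of_ne_zero hv) ?_
  intro t ht
  rw [Finset.mem_image]
  interval_cases t
  · exact ⟨E1, Finset.mem_powerset.2 h1, by simp⟩
  · exact ⟨E2, Finset.mem_powerset.2 h2, by omega⟩
  · exact ⟨E3, Finset.mem_powerset.2 h3, by omega⟩
  · exact ⟨E4, Finset.mem_powerset.2 h4, by omega⟩

theorem Dir_w {ι : Type*} [DecidableEq ι] (c : ι → ℕ) (P Q R : Finset ι)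
    (hPQ : Disjoint P Q) (hTR : Disjoint (P ∪ Q) R) (hsum : ∑ i ∈ P, c i = ∑ i ∈ Q, c i)
    (hAP : ∀ x v : ℕ, 0 < v →
      ¬ (∀ t : ℕ, t < 4 → x + t * v ∈ ((P ∪ Q) ∪ R).powerset.image (fun s => ∑ i ∈ s, c i)))
    (U V X Y : Finset ι) (hU : U ⊆ P ∪ Q) (hV : V ⊆ P ∪ Q) (hUV : Disjoint U V)
    (hX : X ⊆ R) (hY : Y ⊆ R)
    (h : ∑ i ∈ U, c i + ∑ i ∈ Y, c i = ∑ i ∈ V, c i + ∑ i ∈ X, c i) :
    ∑ i ∈ U ∩ P, c i = ∑ i ∈ V ∩ Q, c i := by
  have kPQ : ∀ i, i ∈ P → i ∉ Q := fun i h1 h2 => Finset.disjoint_left.1 hPQ h1 h2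
  have kPR : ∀ i, i ∈ P → i ∉ R := fun i h1 h2 =>
    Finset.disjoint_left.1 hTR (Finset.mem_union_left _ h1) h2
  have kQR : ∀ i, i ∈ Q → i ∉ R := fun i h1 h2 =>
    Finset.disjoint_left.1 hTR (Finset.mem_union_right _ h1) h2
  have kU : ∀ i, i ∈ U → i ∈ P ∨ i ∈ Q := fun i hi => Finset.mem_union.1 (hU hi)
  have kV : ∀ i, i ∈ V → i ∈ P ∨ i ∈ Q := fun i hi => Finset.mem_union.1 (hV hi)
  have kUV : ∀ i, i ∈ U → i ∉ V := fun i h1 h2 => Finset.disjoint_left.1 hUV h1 h2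
  have kX : ∀ i, i ∈ X → i ∈ R := fun i hi => hX hi
  have kY : ∀ i, i ∈ Y → i ∈ R := fun i hi => hY hi
  -- the pieces
  have eU : ∑ i ∈ U, c i = ∑ i ∈ U ∩ P, c i + ∑ i ∈ U ∩ Q, c i := by
    rw [← Finset.sum_union]
    · congr 1
      ext i
      simp only [Finset.mem_union, Finset.mem_inter]
      have := kU i
      tauto
    · rw [Finset.disjoint_left]
      intro i h1 h2
      simp only [Finset.mem_inter] at h1 h2
      exact kPQ i h1.2 h2.2
  have eV : ∑ i ∈ V, c i = ∑ i ∈ V ∩ P, c i + ∑ i ∈ V ∩ Q, c i := by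
    rw [← Finset.sum_union]
    · congr 1
      ext i
      simp only [Finset.mem_union, Finset.mem_inter]
      have := kV i
      tauto
    · rw [Finset.disjoint_left]
      intro i h1 h2
      simp only [Finset.mem_inter] at h1 h2
      exact kPQ i h1.2 h2.2
  have eS : ∀ S : Finset ι,
      ∑ i ∈ S, c i = ∑ i ∈ U ∩ S, c i + ∑ i ∈ V ∩ S, c i + ∑ i ∈ S \ (U ∪ V), c i := by
    intro S
    rw [← Finset.sum_union, ← Finset.sum_union]
    · congr 1
      ext i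
      simp only [Finset.mem_union, Finset.mem_inter, Finset.mem_sdiff]
      tauto
    · rw [Finset.disjoint_left]
      intro i h1 h2
      simp only [Finset.mem_union, Finset.mem_inter, Finset.mem_sdiff] at h1 h2
      tauto
    · rw [Finset.disjoint_left]
      intro i h1 h2
      simp only [Finset.mem_inter] at h1 h2
      exact kUV i h1.1 h2.1
  have eP := eS P
  have eQ := eS Q
  -- the four sets
  have e1 : ∑ i ∈ (V ∪ (P \ (U ∪ V))) ∪ Y, c i =
      ∑ i ∈ V, c i + ∑ i ∈ P \ (U ∪ V), c i + ∑ i ∈ Y, c i := by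
    rw [Finset.sum_union, Finset.sum_union]
    · rw [Finset.disjoint_left]
      intro i h1 h2
      simp only [Finset.mem_union, Finset.mem_sdiff] at h1 h2
      tauto
    · rw [Finset.disjoint_left]
      intro i h1 h2
      simp only [Finset.mem_union, Finset.mem_sdiff] at h1 h2
      have := kPR i; have := kQR i; have := kV i; have := kY i
      tauto
  have e2 : ∑ i ∈ P ∪ Y, c i = ∑ i ∈ P, c i + ∑ i ∈ Y, c i := by
    rw [Finset.sum_union]
    rw [Finset.disjoint_left]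
    intro i h1 h2
    exact kPR i h1 (kY i h2)
  have e3 : ∑ i ∈ (U ∪ (Q \ (U ∪ V))) ∪ Y, c i =
      ∑ i ∈ U, c i + ∑ i ∈ Q \ (U ∪ V), c i + ∑ i ∈ Y, c i := by
    rw [Finset.sum_union, Finset.sum_union]
    · rw [Finset.disjoint_left]
      intro i h1 h2
      simp only [Finset.mem_union, Finset.mem_sdiff] at h1 h2
      tauto
    · rw [Finset.disjoint_left]
      intro i h1 h2
      simp only [Finset.mem_union, Finset.mem_sdiff] at h1 h2
      have := kPR i; have := kQR i; have := kU i; have := kY i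
      tauto
  have e4 : ∑ i ∈ (((U ∩ P) ∪ (V ∩ P)) ∪ (Q \ (U ∪ V))) ∪ X, c i =
      ∑ i ∈ U ∩ P, c i + ∑ i ∈ V ∩ P, c i + ∑ i ∈ Q \ (U ∪ V), c i + ∑ i ∈ X, c i := by
    rw [Finset.sum_union, Finset.sum_union, Finset.sum_union]
    · rw [Finset.disjoint_left]
      intro i h1 h2
      simp only [Finset.mem_inter] at h1 h2
      exact kUV i h1.1 h2.1
    · rw [Finset.disjoint_left]
      intro i h1 h2
      simp only [Finset.mem_union, Finset.mem_sdiff, Finset.mem_inter] at h1 h2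
      tauto
    · rw [Finset.disjoint_left]
      intro i h1 h2
      simp only [Finset.mem_union, Finset.mem_sdiff, Finset.mem_inter] at h1 h2
      have := kPR i; have := kQR i; have := kX i
      tauto
  have s1 : (V ∪ (P \ (U ∪ V))) ∪ Y ⊆ (P ∪ Q) ∪ R := by
    intro i hi
    simp only [Finset.mem_union, Finset.mem_sdiff] at hi ⊢
    have := kV i; have := kY i
    tauto
  have s2 : P ∪ Y ⊆ (P ∪ Q) ∪ R := by
    intro i hi
    simp only [Finset.mem_union] at hi ⊢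
    have := kY i
    tauto
  have s3 : (U ∪ (Q \ (U ∪ V))) ∪ Y ⊆ (P ∪ Q) ∪ R := by
    intro i hi
    simp only [Finset.mem_union, Finset.mem_sdiff] at hi ⊢
    have := kU i; have := kY i
    tauto
  have s4 : (((U ∩ P) ∪ (V ∩ P)) ∪ (Q \ (U ∪ V))) ∪ X ⊆ (P ∪ Q) ∪ R := by
    intro i hi
    simp only [Finset.mem_union, Finset.mem_sdiff, Finset.mem_inter] at hi ⊢
    have := kX i
    tauto
  by_contra hne
  rcases lt_or_gt_of_ne hne with hlt | hgt
  · obtain ⟨v, hv⟩ := Nat.exists_eq_add_of_lt hlt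
    have := Dir_ap c _ hAP _ _ _ _ s4 s3 s2 s1 (v + 1) (by omega) (by omega) (by omega)
    omega
  · obtain ⟨v, hv⟩ := Nat.exists_eq_add_of_lt hgt
    have := Dir_ap c _ hAP _ _ _ _ s1 s2 s3 s4 (v + 1) (by omega) (by omega) (by omega)
    omega

theorem Dir_key {ι : Type*} [DecidableEq ι] (c : ι → ℕ) (P Q R : Finset ι)
    (hPQ : Disjoint P Q) (hTR : Disjoint (P ∪ Q) R) (hsum : ∑ i ∈ P, c i = ∑ i ∈ Q, c i)
    (hAP : ∀ x v : ℕ, 0 < v →
      ¬ (∀ t : ℕ, t < 4 → x + t * v ∈ ((P ∪ Q) ∪ R).powerset.image (fun s => ∑ i ∈ s, c i)))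
    (U V X Y : Finset ι) (hU : U ⊆ P ∪ Q) (hV : V ⊆ P ∪ Q) (hUV : Disjoint U V)
    (hX : X ⊆ R) (hY : Y ⊆ R) (hXY : Disjoint X Y)
    (h : ∑ i ∈ U, c i + ∑ i ∈ Y, c i = ∑ i ∈ V, c i + ∑ i ∈ X, c i) :
    ∑ i ∈ U, c i = ∑ i ∈ V, c i := by
  have k1 := Dir_w c P Q R hPQ hTR hsum hAP U V X Y hU hV hUV hX hY h
  have k2 := Dir_w c P Q R hPQ hTR hsum hAP V U Y X hV hU hUV.symm hY hX h.symm
  have kPQ : ∀ i, i ∈ P → i ∉ Q := fun i h1 h2 => Finset.disjoint_left.1 hPQ h1 h2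
  have eU : ∑ i ∈ U, c i = ∑ i ∈ U ∩ P, c i + ∑ i ∈ U ∩ Q, c i := by
    rw [← Finset.sum_union]
    · congr 1
      ext i
      simp only [Finset.mem_union, Finset.mem_inter]
      have := @hU i
      rw [Finset.mem_union] at this
      tauto
    · rw [Finset.disjoint_left]
      intro i h1 h2
      simp only [Finset.mem_inter] at h1 h2
      exact kPQ i h1.2 h2.2
  have eV : ∑ i ∈ V, c i = ∑ i ∈ V ∩ P, c i + ∑ i ∈ V ∩ Q, c i := by
    rw [← Finset.sum_union]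
    · congr 1
      ext i
      simp only [Finset.mem_union, Finset.mem_inter]
      have := @hV i
      rw [Finset.mem_union] at this
      tauto
    · rw [Finset.disjoint_left]
      intro i h1 h2
      simp only [Finset.mem_inter] at h1 h2
      exact kPQ i h1.2 h2.2
  omega

theorem Dir_card {ι : Type*} [DecidableEq ι] (c : ι → ℕ) (P Q R : Finset ι)
    (hPQ : Disjoint P Q) (hTR : Disjoint (P ∪ Q) R) (hsum : ∑ i ∈ P, c i = ∑ i ∈ Q, c i)
    (hAP : ∀ x v : ℕ, 0 < v →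
      ¬ (∀ t : ℕ, t < 4 → x + t * v ∈ ((P ∪ Q) ∪ R).powerset.image (fun s => ∑ i ∈ s, c i))) :
    (((P ∪ Q) ∪ R).powerset.image (fun s => ∑ i ∈ s, c i)).card =
      ((P ∪ Q).powerset.image (fun s => ∑ i ∈ s, c i)).card *
        (R.powerset.image (fun s => ∑ i ∈ s, c i)).card := by
  rw [← Finset.card_product]
  have himg : (((P ∪ Q).powerset.image (fun s => ∑ i ∈ s, c i)) ×ˢ
      (R.powerset.image (fun s => ∑ i ∈ s, c i))).image (fun p : ℕ × ℕ => p.1 + p.2) =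
      (((P ∪ Q) ∪ R).powerset.image (fun s => ∑ i ∈ s, c i)) := by
    ext n
    simp only [Finset.mem_image, Finset.mem_product, Finset.mem_powerset, Prod.exists]
    constructor
    · rintro ⟨a, b, ⟨⟨s, hs, rfl⟩, ⟨t, ht, rfl⟩⟩, rfl⟩
      refine ⟨s ∪ t, Finset.union_subset_union hs ht, ?_⟩
      rw [Finset.sum_union]
      exact Finset.disjoint_of_subset_left hs (Finset.disjoint_of_subset_right ht hTR)
    · rintro ⟨s, hs, rfl⟩
      refine ⟨∑ i ∈ s ∩ (P ∪ Q), c i, ∑ i ∈ s ∩ R, c i,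
        ⟨⟨s ∩ (P ∪ Q), Finset.inter_subset_right, rfl⟩, ⟨s ∩ R, Finset.inter_subset_right, rfl⟩⟩,
        ?_⟩
      rw [← Finset.sum_union]
      · congr 1
        rw [← Finset.inter_union_distrib_left]
        exact Finset.inter_eq_left.2 hs
      · exact Finset.disjoint_of_subset_left Finset.inter_subset_right
          (Finset.disjoint_of_subset_right Finset.inter_subset_right hTR)
  rw [← himg, Finset.card_image_of_injOn]
  rintro ⟨a, b⟩ hab ⟨a', b'⟩ hab' heq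
  simp only [Finset.coe_product, Finset.coe_image, Set.mem_prod, Set.mem_image, Finset.mem_coe,
    Finset.mem_powerset] at hab hab'
  obtain ⟨⟨U', hU', rfl⟩, ⟨Y', hY', rfl⟩⟩ := hab
  obtain ⟨⟨V', hV', rfl⟩, ⟨X', hX', rfl⟩⟩ := hab'
  simp only at heq
  have dsp : ∀ A B : Finset ι, ∑ i ∈ A, c i = ∑ i ∈ A \ B, c i + ∑ i ∈ A ∩ B, c i := by
    intro A B
    rw [← Finset.sum_union]
    · rw [Finset.sdiff_union_inter]
    · exact Finset.disjoint_sdiff_inter A B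
  have hU1 := dsp U' V'
  have hV1 := dsp V' U'
  have hY1 := dsp Y' X'
  have hX1 := dsp X' Y'
  rw [Finset.inter_comm V' U'] at hV1
  rw [Finset.inter_comm X' Y'] at hX1
  have key := Dir_key c P Q R hPQ hTR hsum hAP (U' \ V') (V' \ U') (X' \ Y') (Y' \ X')
    (Finset.sdiff_subset.trans hU') (Finset.sdiff_subset.trans hV') disjoint_sdiff_sdiff
    (Finset.sdiff_subset.trans hX') (Finset.sdiff_subset.trans hY') disjoint_sdiff_sdiff (by omega)
  have q1 : ∑ i ∈ U', c i = ∑ i ∈ V', c i := by omega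
  have q2 : ∑ i ∈ Y', c i = ∑ i ∈ X', c i := by omega
  rw [q1, q2]

end Pool.H74.HL
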