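import Mathlib

/-!
# Row Min: a minimal relation has exactly one coincidence

σ(s) = sum of c i over i in s; all c i with i in S are positive; the sums of the subsets of S are
not all different.  Then there are nonempty disjoint P, Q ⊆ S with σ(P) = σ(Q) such that the
subsets of T = P ∪ Q have exactly 2^|T| - 1 different sums.

PROOF. Take s ≠ s' in S with σ(s) = σ(s'); then P = s \ s', Q = s' \ s are disjoint, not both empty,
σ(P) = σ(Q); by positivity none is empty.  Among all pairs (P, Q) of disjoint nonempty subsets of S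
with σ(P) = σ(Q) take one with |P ∪ Q| minimal.  Let s ≠ s' ⊆ T have the same sum.  Then (s \ s',
s' \ s) is such a pair inside T, so by minimality (s \ s') ∪ (s' \ s) = T; so s, s' are disjoint and
s ∪ s' = T, that is s' = T \ s, and 2 σ(s) = σ(T).  In particular 2 σ(P) = σ(T).  If s is neither P
nor Q then σ(s) = σ(P) and s ≠ P, so (the same argument for the pair s, P) s = T \ P = Q,
contradiction.  So {s, s'} = {P, Q}: the map s ↦ σ(s) is injective on the subsets of T other than Q,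
and σ(Q) = σ(P).  Hence the image has 2^|T| - 1 elements.
-/

namespace Pool.H74.HL

open Finset

/-- a relation inside `S` -/
def Min_rel {ι : Type*} (c : ι → ℕ) (S P Q : Finset ι) : Prop :=
  P ⊆ S ∧ Q ⊆ S ∧ P.Nonempty ∧ Q.Nonempty ∧ Disjoint P Q ∧ ∑ i ∈ P, c i = ∑ i ∈ Q, c i

theorem Min_of_ne {ι : Type*} [DecidableEq ι] (c : ι → ℕ) (S : Finset ι) (hc : ∀ i ∈ S, 0 < c i)
    (s s' : Finset ι) (hs : s ⊆ S) (hs' : s' ⊆ S) (hne : s ≠ s')
    (h : ∑ i ∈ s, c i = ∑ i ∈ s', c i) : Min_rel c S (s \ s') (s' \ s) := by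
  have h1 := sum_inter_add_sum_sdiff s s' c
  have h2 := sum_inter_add_sum_sdiff s' s c
  rw [inter_comm] at h2
  have h3 : ∑ i ∈ s \ s', c i = ∑ i ∈ s' \ s, c i := by omega
  have pos : ∀ A : Finset ι, A ⊆ S → ∑ i ∈ A, c i = 0 → A = ∅ := by
    intro A hA h0
    rw [sum_eq_zero_iff] at h0
    by_contra hn
    obtain ⟨x, hx⟩ := nonempty_iff_ne_empty.2 hn
    have := hc x (hA hx)
    rw [h0 x hx] at this
    exact absurd this (lt_irrefl _)
  have e1 : s \ s' ⊆ S := sdiff_subset.trans hs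
  have e2 : s' \ s ⊆ S := sdiff_subset.trans hs'
  have hboth : ¬ (s \ s' = ∅ ∧ s' \ s = ∅) := by
    rintro ⟨g1, g2⟩
    rw [sdiff_eq_empty_iff_subset] at g1 g2
    exact hne (subset_antisymm g1 g2)
  refine ⟨e1, e2, ?_, ?_, disjoint_sdiff_sdiff, h3⟩
  · rw [nonempty_iff_ne_empty]
    intro g1
    rw [g1, sum_empty] at h3
    exact hboth ⟨g1, pos _ e2 h3.symm⟩
  · rw [nonempty_iff_ne_empty]
    intro g1
    rw [g1, sum_empty] at h3
    exact hboth ⟨pos _ e1 h3, g1⟩

theorem Min_main {ι : Type*} [DecidableEq ι] (c : ι → ℕ) (S : Finset ι)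
    (hc : ∀ i ∈ S, 0 < c i)
    (hninj : ¬ Set.InjOn (fun s : Finset ι => ∑ i ∈ s, c i) (S.powerset : Set (Finset ι))) :
    ∃ P Q : Finset ι, P ⊆ S ∧ Q ⊆ S ∧ P.Nonempty ∧ Q.Nonempty ∧ Disjoint P Q ∧
      ∑ i ∈ P, c i = ∑ i ∈ Q, c i ∧
      ((P ∪ Q).powerset.image (fun s => ∑ i ∈ s, c i)).card + 1 = 2 ^ (P ∪ Q).card := by
  classical
  have hex : ∃ n, ∃ P Q : Finset ι, Min_rel c S P Q ∧ (P ∪ Q).card = n := by
    unfold Set.InjOn at hninj
    push Not at hninj
    obtain ⟨s, hs, s', hs', h1, h2⟩ := hninj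
    rw [mem_coe, mem_powerset] at hs hs'
    exact ⟨_, _, _, Min_of_ne c S hc s s' hs hs' h2 h1, rfl⟩
  obtain ⟨P, Q, hR, hcard⟩ := Nat.find_spec hex
  have hmin : ∀ P' Q' : Finset ι, Min_rel c S P' Q' → (P ∪ Q).card ≤ (P' ∪ Q').card := by
    intro P' Q' h
    rw [hcard]
    exact Nat.find_min' hex ⟨P', Q', h, rfl⟩
  obtain ⟨hP, hQ, hPn, hQn, hdis, hsum⟩ := hR
  have hTS : P ∪ Q ⊆ S := union_subset hP hQ
  -- a coincidence inside `P ∪ Q` is a splitting of `P ∪ Q`
  have key : ∀ s s' : Finset ι, s ⊆ P ∪ Q → s' ⊆ P ∪ Q → s ≠ s' →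
      ∑ i ∈ s, c i = ∑ i ∈ s', c i → Disjoint s s' ∧ s ∪ s' = P ∪ Q := by
    intro s s' hs hs' hne h
    have h1 := hmin _ _ (Min_of_ne c S hc s s' (hs.trans hTS) (hs'.trans hTS) hne h)
    have h2 : (s \ s') ∪ (s' \ s) ⊆ P ∪ Q :=
      union_subset (sdiff_subset.trans hs) (sdiff_subset.trans hs')
    have h3 := eq_of_subset_of_card_le h2 h1
    constructor
    · rw [disjoint_left]
      intro x hx hx'
      have h4 : x ∈ P ∪ Q := hs hx
      rw [← h3, mem_union, mem_sdiff, mem_sdiff] at h4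
      rcases h4 with h4 | h4
      · exact h4.2 hx'
      · exact h4.2 hx
    · refine subset_antisymm (union_subset hs hs') ?_
      intro x hx
      rw [← h3, mem_union, mem_sdiff, mem_sdiff] at hx
      rw [mem_union]
      rcases hx with hx | hx
      · exact Or.inl hx.1
      · exact Or.inr hx.1
  have hPT : P ⊆ P ∪ Q := subset_union_left
  have hQT : Q ⊆ P ∪ Q := subset_union_right
  have hPQne : P ≠ Q := by
    intro h
    rw [← h, disjoint_self_iff_empty] at hdis
    rw [hdis] at hPn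
    exact absurd hPn not_nonempty_empty
  have tot : ∀ s s' : Finset ι, Disjoint s s' → s ∪ s' = P ∪ Q →
      ∑ i ∈ s, c i = ∑ i ∈ s', c i → 2 * ∑ i ∈ s, c i = ∑ i ∈ P ∪ Q, c i := by
    intro s s' h1 h2 h3
    rw [← h2, sum_union h1]
    omega
  have h2P := tot P Q hdis rfl hsum
  have two : ∀ s s' : Finset ι, s ⊆ P ∪ Q → s' ⊆ P ∪ Q → s ≠ s' →
      ∑ i ∈ s, c i = ∑ i ∈ s', c i → s = P ∨ s = Q := by
    intro s s' hs hs' hne h
    obtain ⟨h1, h2⟩ := key s s' hs hs' hne h
    have h3 := tot s s' h1 h2 h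
    have h4 : ∑ i ∈ s, c i = ∑ i ∈ P, c i := by omega
    by_cases h5 : s = P
    · exact Or.inl h5
    · right
      obtain ⟨h6, h7⟩ := key s P hs hPT h5 h4
      ext x
      constructor
      · intro hx
        have h8 := hs hx
        rw [mem_union] at h8
        rcases h8 with h8 | h8
        · exact absurd h8 (disjoint_left.1 h6 hx)
        · exact h8
      · intro hx
        have h8 := hQT hx
        rw [← h7, mem_union] at h8
        rcases h8 with h8 | h8
        · exact h8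
        · exact absurd hx (disjoint_left.1 hdis h8)
  refine ⟨P, Q, hP, hQ, hPn, hQn, hdis, hsum, ?_⟩
  have himg : (P ∪ Q).powerset.image (fun s => ∑ i ∈ s, c i) =
      ((P ∪ Q).powerset.erase Q).image (fun s => ∑ i ∈ s, c i) := by
    refine subset_antisymm ?_ (image_subset_image (erase_subset _ _))
    intro y hy
    rw [mem_image] at hy ⊢
    obtain ⟨s, hs, rfl⟩ := hy
    by_cases h : s = Q
    · refine ⟨P, mem_erase.2 ⟨hPQne, mem_powerset.2 hPT⟩, ?_⟩
      rw [h]
      exact hsum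
    · exact ⟨s, mem_erase.2 ⟨h, hs⟩, rfl⟩
  have hinj : Set.InjOn (fun s : Finset ι => ∑ i ∈ s, c i)
      (((P ∪ Q).powerset.erase Q : Finset (Finset ι)) : Set (Finset ι)) := by
    intro s hs s' hs' h
    rw [mem_coe, mem_erase, mem_powerset] at hs hs'
    by_contra hne
    have h1 : s = P := (two s s' hs.2 hs'.2 hne h).resolve_right hs.1
    have h2 : s' = P := (two s' s hs'.2 hs.2 (Ne.symm hne) h.symm).resolve_right hs'.1
    exact hne (h1.trans h2.symm)
  rw [himg, card_image_of_injOn hinj, card_erase_of_mem (mem_powerset.2 hQT), card_powerset]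
  have : 0 < 2 ^ (P ∪ Q).card := by positivity
  omega

end Pool.H74.HL
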