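import Mathlib
import Pool.Agent.H74.HL.Dir
import Pool.Agent.H74.HL.Min

/-!
# Row Grow: a cube without four-term progressions has at least 3^(d/2) elements
(and at least 7^(d/3) if the generators are distinct)

PROOF. Strong induction on |S|.  Let H_S be the set of sums of subsets of S.
If s ↦ σ(s) is injective on the subsets of S then |H_S| = 2^|S|, and 3^n ≤ 4^n = (2^n)^2,
7^n ≤ 8^n = (2^n)^3.  Otherwise take P, Q from Min_main, T = P ∪ Q, R = S \ T, t = |T|.
Dir_card gives |H_S| = |H_T| |H_R|, |H_T| = 2^t - 1, t ≥ 2.  H_R has no four-term progression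
(H_R ⊆ H_S), so by induction 3^|R| ≤ |H_R|^2; and 3^t ≤ (2^t - 1)^2 for t ≥ 2 (t = 2: 9 ≤ 9; the
ratio (2^(t+1)-1)/(2^t-1) is ≥ 2, so the step multiplies the right side by at least 4 ≥ 3).
If c is injective on S then t ≥ 3: t = 2 means P = {i}, Q = {j}, c i = c j, i ≠ j.  And
7^t ≤ (2^t - 1)^3 for t ≥ 3 (t = 3: 343 ≤ 343; step factor at least 8).  Multiply.
-/

namespace Pool.H74.HL

open Finset

theorem Grow_pow3 (t : ℕ) (ht : 2 ≤ t) : ∀ x : ℕ, x + 1 = 2 ^ t → 3 ^ t ≤ x ^ 2 := by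
  induction t, ht using Nat.le_induction with
  | base =>
    intro x hx
    have : x = 3 := by omega
    rw [this]
  | succ t ht ih =>
    intro x hx
    have hp : 1 ≤ 2 ^ t := Nat.one_le_two_pow
    have h1 := ih (2 ^ t - 1) (by omega)
    obtain ⟨y, hy⟩ : ∃ y, y = 2 ^ t - 1 := ⟨_, rfl⟩
    rw [← hy] at h1
    have h2 : x = 2 * y + 1 := by
      rw [pow_succ] at hx
      omega
    rw [h2, pow_succ]
    nlinarith

theorem Grow_pow7 (t : ℕ) (ht : 3 ≤ t) : ∀ x : ℕ, x + 1 = 2 ^ t → 7 ^ t ≤ x ^ 3 := by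
  induction t, ht using Nat.le_induction with
  | base =>
    intro x hx
    have : x = 7 := by omega
    rw [this]
  | succ t ht ih =>
    intro x hx
    have hp : 1 ≤ 2 ^ t := Nat.one_le_two_pow
    have h1 := ih (2 ^ t - 1) (by omega)
    obtain ⟨y, hy⟩ : ∃ y, y = 2 ^ t - 1 := ⟨_, rfl⟩
    rw [← hy] at h1
    have h2 : x = 2 * y + 1 := by
      rw [pow_succ] at hx
      omega
    have h3 : (2 * y) ^ 3 ≤ x ^ 3 := Nat.pow_le_pow_left (by omega) 3
    have h4 : (2 * y) ^ 3 = 8 * y ^ 3 := by ring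
    rw [pow_succ]
    omega

theorem Grow_sub {ι : Type*} [DecidableEq ι] (c : ι → ℕ) {R S : Finset ι} (h : R ⊆ S)
    (hAP : ∀ x v : ℕ, 0 < v →
      ¬ (∀ t : ℕ, t < 4 → x + t * v ∈ S.powerset.image (fun s => ∑ i ∈ s, c i))) :
    ∀ x v : ℕ, 0 < v →
      ¬ (∀ t : ℕ, t < 4 → x + t * v ∈ R.powerset.image (fun s => ∑ i ∈ s, c i)) := by
  intro x v hv h1
  exact hAP x v hv fun t ht => image_subset_image (powerset_mono.2 h) (h1 t ht)

theorem Grow_main {ι : Type*} [DecidableEq ι] (c : ι → ℕ) (S : Finset ι)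
    (hc : ∀ i ∈ S, 0 < c i)
    (hAP : ∀ x v : ℕ, 0 < v →
      ¬ (∀ t : ℕ, t < 4 → x + t * v ∈ S.powerset.image (fun s => ∑ i ∈ s, c i))) :
    3 ^ S.card ≤ (S.powerset.image (fun s => ∑ i ∈ s, c i)).card ^ 2 ∧
      (Set.InjOn c S → 7 ^ S.card ≤ (S.powerset.image (fun s => ∑ i ∈ s, c i)).card ^ 3) := by
  obtain ⟨n, hn⟩ : ∃ n, n = S.card := ⟨_, rfl⟩
  induction n using Nat.strong_induction_on generalizing S with
  | _ n ih =>
    by_cases hinj : Set.InjOn (fun s : Finset ι => ∑ i ∈ s, c i) (S.powerset : Set (Finset ι))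
    · rw [card_image_of_injOn hinj, card_powerset]
      constructor
      · rw [← pow_mul, mul_comm, pow_mul]
        exact Nat.pow_le_pow_left (by norm_num) _
      · intro _
        rw [← pow_mul, mul_comm, pow_mul]
        exact Nat.pow_le_pow_left (by norm_num) _
    · obtain ⟨P, Q, hP, hQ, hPn, hQn, hdis, hsum, hcard⟩ := Min_main c S hc hinj
      have hTS : P ∪ Q ⊆ S := union_subset hP hQ
      have hTR : Disjoint (P ∪ Q) (S \ (P ∪ Q)) := disjoint_sdiff
      have hS : (P ∪ Q) ∪ (S \ (P ∪ Q)) = S := union_sdiff_of_subset hTS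
      have hD := Dir_card c P Q (S \ (P ∪ Q)) hdis hTR hsum (by rw [hS]; exact hAP)
      rw [hS] at hD
      have hcS : (P ∪ Q).card + (S \ (P ∪ Q)).card = S.card := by
        rw [← card_union_of_disjoint hTR, hS]
      have hcT : (P ∪ Q).card = P.card + Q.card := card_union_of_disjoint hdis
      have hP1 := hPn.card_pos
      have hQ1 := hQn.card_pos
      have hRS : S \ (P ∪ Q) ⊆ S := sdiff_subset
      obtain ⟨i1, i2⟩ := ih _ (by omega) (S \ (P ∪ Q)) (fun i hi => hc i (hRS hi))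
        (Grow_sub c hRS hAP) rfl
      rw [hD, ← hcS]
      constructor
      · rw [pow_add, mul_pow]
        exact Nat.mul_le_mul (Grow_pow3 _ (by omega) _ hcard) i1
      · intro hcinj
        have ht : 3 ≤ (P ∪ Q).card := by
          by_contra hlt
          obtain ⟨a, ha⟩ := card_eq_one.1 (by omega : P.card = 1)
          obtain ⟨b, hb⟩ := card_eq_one.1 (by omega : Q.card = 1)
          rw [ha, hb, sum_singleton, sum_singleton] at hsum
          have h1 := hcinj (mem_coe.2 (hP (by rw [ha]; exact mem_singleton_self a)))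
            (mem_coe.2 (hQ (by rw [hb]; exact mem_singleton_self b))) hsum
          rw [ha, hb, h1, disjoint_self_iff_empty] at hdis
          exact absurd hdis (singleton_ne_empty _)
        rw [pow_add, mul_pow]
        exact Nat.mul_le_mul (Grow_pow7 _ ht _ hcard)
          (i2 (hcinj.mono (coe_subset.2 hRS)))

end Pool.H74.HL
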