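import Mathlib

/-!
# Row Red: from integer generators to a cube with positive generators through a given vertex

PROOF. Let e be a bijection Fin |I| ≃ I (Finset.equivFin), c i = natAbs of b (e i) > 0.  Put
a' = a + (sum of b j over j in s₀ \ I) + (sum of b j over j in I with b j < 0); it is the value of the cube at
the index set (s₀ \ I) ∪ {j in I : b j < 0}, so it is a square, so ≥ 0: a natural number (IsSquare transfers between ℤ and ℕ:
a nonnegative integer square is the square of a natural number).  For s ⊆ Fin |I| the number a' + Σ_{i in s} c i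
is the value of the original cube at (s₀ \ I) ∪ {j in I : (b j < 0 and j not in e(s)) or (b j > 0 and j in e(s))}: each
j in e(s) with b j > 0 adds b j = |b j|, each j in e(s) with b j < 0 removes b j, that is adds |b j|.
The value at s₀ is a' + the sum of |b j| over j in I with (b j > 0 and j in s₀) or (b j < 0 and j not in s₀), so it is
between a' and a' + Σ c.
-/

namespace Pool.H74.HL

open Finset

theorem Red_sum {d : ℕ} (b : Fin d → ℤ) (s₀ I T : Finset (Fin d)) (hT : T ⊆ I) :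
    ∑ i ∈ (s₀ \ I) ∪ I.filter (fun j => (b j < 0 ∧ j ∉ T) ∨ (0 < b j ∧ j ∈ T)), b i =
      ∑ i ∈ s₀ \ I, b i + ∑ i ∈ I, (if b i < 0 then b i else 0) + ∑ i ∈ T, |b i| := by
  have hd : Disjoint (s₀ \ I) (I.filter (fun j => (b j < 0 ∧ j ∉ T) ∨ (0 < b j ∧ j ∈ T))) := by
    rw [Finset.disjoint_left]
    intro x hx hx'
    exact (Finset.mem_sdiff.1 hx).2 (Finset.mem_filter.1 hx').1
  rw [Finset.sum_union hd, Finset.sum_filter, add_assoc]
  congr 1
  have h1 : ∑ i ∈ T, |b i| = ∑ i ∈ I, (if i ∈ T then |b i| else 0) := by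
    rw [← Finset.sum_filter]
    refine Finset.sum_congr ?_ (fun _ _ => rfl)
    ext x
    simp only [Finset.mem_filter]
    exact ⟨fun h => ⟨hT h, h⟩, fun h => h.2⟩
  rw [h1, ← Finset.sum_add_distrib]
  refine Finset.sum_congr rfl fun i _ => ?_
  by_cases h2 : i ∈ T
  · rcases lt_trichotomy (b i) 0 with h | h | h
    · rw [if_neg (by simp [h2, not_lt.2 h.le]), if_pos h, if_pos h2, abs_of_neg h]
      ring
    · simp [h]
    · rw [if_pos (Or.inr ⟨h, h2⟩), if_neg (not_lt.2 h.le), if_pos h2, abs_of_pos h]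
      ring
  · rcases lt_trichotomy (b i) 0 with h | h | h
    · rw [if_pos (Or.inl ⟨h, h2⟩), if_pos h, if_neg h2]
      ring
    · simp [h]
    · rw [if_neg (by simp [h2, not_lt.2 h.le]), if_neg (not_lt.2 h.le), if_neg h2]
      ring

theorem Red_s0 {d : ℕ} (b : Fin d → ℤ) (s₀ I : Finset (Fin d)) :
    ∑ i ∈ s₀, b i = ∑ i ∈ s₀ \ I, b i + ∑ i ∈ I, (if i ∈ s₀ then b i else 0) := by
  have h1 : I.filter (fun x => x ∈ s₀) = s₀ ∩ I := by
    ext x
    simp only [Finset.mem_filter, Finset.mem_inter]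
    exact and_comm
  rw [← Finset.sum_filter, h1, add_comm]
  exact (Finset.sum_inter_add_sum_sdiff s₀ I b).symm

theorem Red_main (d : ℕ) (a : ℤ) (b : Fin d → ℤ) (hb : ∀ i, b i ≠ 0)
    (hsq : ∀ s : Finset (Fin d), IsSquare (a + ∑ i ∈ s, b i)) (s₀ I : Finset (Fin d)) :
    ∃ (a' : ℕ) (c : Fin I.card → ℕ), (∀ i, 0 < c i) ∧
      (∀ s : Finset (Fin I.card), IsSquare (a' + ∑ i ∈ s, c i)) ∧
      (a' : ℤ) ≤ a + ∑ i ∈ s₀, b i ∧ a + ∑ i ∈ s₀, b i ≤ (a' : ℤ) + ∑ i, (c i : ℤ) ∧
      (∀ i, ∃ j ∈ I, (c i : ℤ) = |b j|) ∧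
      ((∀ i ∈ I, ∀ j ∈ I, |b i| = |b j| → i = j) → Function.Injective c) := by
  set e : Fin I.card ≃ I := I.equivFin.symm with he
  set A0 : ℤ := a + (∑ i ∈ s₀ \ I, b i + ∑ i ∈ I, (if b i < 0 then b i else 0)) with hA0
  have hval : ∀ T : Finset (Fin d), T ⊆ I → IsSquare (A0 + ∑ i ∈ T, |b i|) := by
    intro T hT
    have h1 := hsq ((s₀ \ I) ∪ I.filter (fun j => (b j < 0 ∧ j ∉ T) ∨ (0 < b j ∧ j ∈ T)))
    rw [Red_sum b s₀ I T hT] at h1
    rw [hA0, add_assoc]
    exact h1
  have hA0n : 0 ≤ A0 := by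
    have h1 := hval ∅ (Finset.empty_subset _)
    rw [Finset.sum_empty, add_zero] at h1
    obtain ⟨r, hr⟩ := h1
    rw [hr]
    exact mul_self_nonneg r
  have hcast : ((A0.toNat : ℕ) : ℤ) = A0 := Int.toNat_of_nonneg hA0n
  have hc : ∀ i : Fin I.card, (((b (e i : Fin d)).natAbs : ℕ) : ℤ) = |b (e i : Fin d)| := fun i => Int.natCast_natAbs _
  refine ⟨A0.toNat, fun i => (b (e i : Fin d)).natAbs, fun i => Int.natAbs_pos.2 (hb _), ?_, ?_, ?_, ?_, ?_⟩
  · intro s
    rw [← Int.isSquare_natCast_iff]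
    push_cast
    rw [hcast]
    have hinj : Function.Injective (fun i : Fin I.card => (e i : Fin d)) :=
      fun x y h => e.injective (Subtype.ext h)
    have h1 := hval (s.image fun i => (e i : Fin d)) (by
      intro x hx
      obtain ⟨i, _, rfl⟩ := Finset.mem_image.1 hx
      exact (e i).2)
    rw [Finset.sum_image (fun x _ y _ h => hinj h)] at h1
    exact h1
  · rw [hcast, Red_s0 b s₀ I, hA0]
    have h1 : ∑ i ∈ I, (if b i < 0 then b i else 0) ≤ ∑ i ∈ I, (if i ∈ s₀ then b i else 0) := by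
      refine Finset.sum_le_sum fun i _ => ?_
      split_ifs with h2 h3 h3
      · exact le_rfl
      · exact h2.le
      · exact not_lt.1 h2
      · exact le_rfl
    linarith
  · have h0 : ∑ i, (((b (e i : Fin d)).natAbs : ℕ) : ℤ) = ∑ j ∈ I, |b j| := by
      rw [Finset.sum_congr rfl (fun i _ => hc i), Equiv.sum_comp e (fun x : I => |b (x : Fin d)|)]
      exact Finset.sum_coe_sort I (fun j => |b j|)
    rw [hcast, h0, Red_s0 b s₀ I, hA0]
    have h1 : ∑ i ∈ I, (if i ∈ s₀ then b i else 0) ≤ ∑ i ∈ I, ((if b i < 0 then b i else 0) + |b i|) := by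
      refine Finset.sum_le_sum fun i _ => ?_
      rcases le_or_gt 0 (b i) with h | h
      · rw [abs_of_nonneg h, if_neg (not_lt.2 h)]
        split_ifs <;> linarith
      · rw [abs_of_neg h, if_pos h]
        split_ifs <;> linarith
    rw [Finset.sum_add_distrib] at h1
    linarith
  · intro i
    exact ⟨(e i : Fin d), (e i).2, hc i⟩
  · intro h x y hxy
    have h1 : |b (e x : Fin d)| = |b (e y : Fin d)| := by
      rw [← hc x, ← hc y]
      exact_mod_cast hxy
    exact e.injective (Subtype.ext (h _ (e x).2 _ (e y).2 h1))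

end Pool.H74.HL
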