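import Mathlib

/-!
# Row Sq: no four distinct squares in arithmetic progression (Fermat, Euler)

Sq_two is the descent; Sq_four follows from it.

PROOF of Sq_two (no x, y > 0 with x^2 - y^2 = u^2 and x^2 - 9 y^2 = v^2). Strong induction on y.
If g = gcd(x, y) > 1 divide x, y, u, v by g (g^2 divides u^2, so g divides u; same for v) and use
the induction hypothesis.  So let gcd(x, y) = 1.
* y is even: if y is odd then u is even (else x^2 = y^2 + u^2 = 2 mod 4), so x is odd, so v is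
  even, and (u/2)^2 - (v/2)^2 = 2 y^2 = 2 mod 4, impossible (a difference of two squares is never
  2 mod 4).  Hence y is even, x, u, v are odd.
* 3 does not divide x: else 3 divides y^2 + u^2, so 3 divides y, against gcd(x, y) = 1.
* (y, u, x) and (3y, v, x) are primitive Pythagorean triples with y, 3y even, hence there are
  coprime m, n > 0 of opposite parity with x = m^2 + n^2, y = 2 m n, and coprime p, q > 0 of opposite
  parity with x = p^2 + q^2, 3 y = 2 p q.  (Mathlib: PythagoreanTriple.coprime_classification', or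
  PythagoreanTriple.isPrimitiveClassified_of_coprime; replace m, n by absolute values.)
* So m^2 + n^2 = p^2 + q^2 and p q = 3 m n.  By symmetry let 3 divide p, p = 3 p'; p' q = m n.
  Put a = gcd(p', m), p' = a c, m = a b; then c q = b n, gcd(b, c) = 1, so q = b d, n = c d.
  All of a, b, c, d > 0 are pairwise coprime:  p = 3 a c, q = b d, m = a b, n = c d.
* The equation reads a^2 b^2 + c^2 d^2 = 9 a^2 c^2 + b^2 d^2, that is
      a^2 (b^2 - 9 c^2) = d^2 (b^2 - c^2).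
  As gcd(a, d) = 1 there is an integer w with b^2 - c^2 = a^2 w and b^2 - 9 c^2 = d^2 w.
  w divides 8 c^2 and 8 b^2 (differences 8c^2 and 9(b^2-c^2)-(b^2-9c^2) = 8 b^2), so w divides 8.
* m n = a b c d is even and m, n are of opposite parity, so exactly one of a, b, c, d is even.
  - a even (b, c, d odd): 8 divides b^2 - 9c^2 = d^2 w, so w = 8 or w = -8.
      w = 8: subtract: c^2 = a^2 - d^2, so a^2 = c^2 + d^2 = 2 mod 4: impossible.
      w = -8: c^2 = d^2 - a^2 and b^2 = c^2 - 8 a^2 = d^2 - 9 a^2: (d, a) is a smaller solution.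
  - d even (a, b, c odd): 8 divides b^2 - c^2 = a^2 w so w = 8 or -8.
      w = 8: c^2 = a^2 - d^2, b^2 = c^2 + 8 a^2 = 9 a^2 - d^2, so 3 divides b^2 + d^2, so 3 divides
      b and d, against coprimality.
      w = -8: c^2 = d^2 - a^2, d^2 = a^2 + c^2 = 2 mod 4: impossible.
  - b even (a, c, d odd): w is odd, w = 1 or -1.
      w = 1: b^2 = a^2 + c^2 = 2 mod 4.   w = -1: d^2 = 9 c^2 - b^2, 3 divides b^2 + d^2: impossible.
  - c even (a, b, d odd): w is odd.  w = 1: b^2 - c^2 = a^2 and b^2 - 9 c^2 = d^2: (b, c) is a smaller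
      solution.   w = -1: c^2 = a^2 + b^2 = 2 mod 4: impossible.
  (a <= m n < y and c <= m n < y since y = 2 m n.)  The new u, v may be taken nonnegative.

PROOF of Sq_four. Write x = P^2, x + v = Q^2, x + 2v = R^2, x + 3v = S^2 and put X = Q^2 + R^2 =
P^2 + S^2 = 2x + 3v. Then (2QR)^2 = X^2 - v^2 and (2PS)^2 = X^2 - 9 v^2. Contradiction to Sq_two.
-/

namespace Pool.H74.HL

private theorem Sq_o (a : ℕ) (h : a % 2 = 1) : a ^ 2 % 8 = 1 := by
  have h1 : a % 8 = 1 ∨ a % 8 = 3 ∨ a % 8 = 5 ∨ a % 8 = 7 := by omega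
  rcases h1 with h1 | h1 | h1 | h1 <;> simp [Nat.pow_mod, h1]

private theorem Sq_e (a : ℕ) (h : a % 2 = 0) : a ^ 2 % 4 = 0 := by
  have h1 : a % 4 = 0 ∨ a % 4 = 2 := by omega
  rcases h1 with h1 | h1 <;> simp [Nat.pow_mod, h1]

private theorem Sq_3 (a : ℕ) (h : ¬ 3 ∣ a) : a ^ 2 % 3 = 1 := by
  have h1 : a % 3 = 1 ∨ a % 3 = 2 := by omega
  rcases h1 with h1 | h1 <;> simp [Nat.pow_mod, h1]

private theorem Sq_30 (a : ℕ) (h : 3 ∣ a) : a ^ 2 % 3 = 0 := by
  have h1 : a % 3 = 0 := by omega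
  simp [Nat.pow_mod, h1]

private theorem Sq_16 (a : ℕ) : a ^ 2 % 16 = 0 ∨ a ^ 2 % 16 = 1 ∨ a ^ 2 % 16 = 4 ∨ a ^ 2 % 16 = 9 := by
  have h1 : a % 16 < 16 := Nat.mod_lt _ (by norm_num)
  rw [Nat.pow_mod]
  interval_cases a % 16 <;> simp

private theorem Sq_cop {a b : ℕ} (h : a.Coprime b) : ¬ (a % 2 = 0 ∧ b % 2 = 0) := by
  rintro ⟨h1, h2⟩
  have h3 := Nat.dvd_gcd (Nat.dvd_of_mod_eq_zero h1) (Nat.dvd_of_mod_eq_zero h2)
  rw [Nat.Coprime.gcd_eq_one h] at h3
  omega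

private theorem Sq_desc (a b c d : ℕ) (ha : 0 < a) (hab : a.Coprime b) (hac : a.Coprime c) (had : a.Coprime d)
    (hbc : b.Coprime c) (hbd : b.Coprime d) (hcd : c.Coprime d) (h3b : ¬ 3 ∣ b) (h3d : ¬ 3 ∣ d)
    (hpar : a % 2 = 0 ∨ b % 2 = 0 ∨ c % 2 = 0 ∨ d % 2 = 0)
    (heq : (a * b) ^ 2 + (c * d) ^ 2 = 9 * (a * c) ^ 2 + (b * d) ^ 2) :
    (c ^ 2 + a ^ 2 = d ^ 2 ∧ b ^ 2 + 9 * a ^ 2 = d ^ 2) ∨ (a ^ 2 + c ^ 2 = b ^ 2 ∧ d ^ 2 + 9 * c ^ 2 = b ^ 2) := by
  have hE : (a : ℤ) ^ 2 * ((b : ℤ) ^ 2 - 9 * (c : ℤ) ^ 2) = (d : ℤ) ^ 2 * ((b : ℤ) ^ 2 - (c : ℤ) ^ 2) := by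
    have h : ((a : ℤ) * b) ^ 2 + ((c : ℤ) * d) ^ 2 = 9 * ((a : ℤ) * c) ^ 2 + ((b : ℤ) * d) ^ 2 := by
      exact_mod_cast heq
    linear_combination h
  have hcop : IsCoprime ((a : ℤ) ^ 2) ((d : ℤ) ^ 2) := (Nat.isCoprime_iff_coprime.2 had).pow
  have hcop2 : IsCoprime ((b : ℤ) ^ 2) ((c : ℤ) ^ 2) := (Nat.isCoprime_iff_coprime.2 hbc).pow
  obtain ⟨w, hw⟩ : (a : ℤ) ^ 2 ∣ (b : ℤ) ^ 2 - (c : ℤ) ^ 2 := hcop.dvd_of_dvd_mul_left ⟨_, hE.symm⟩
  have ha0 : (a : ℤ) ^ 2 ≠ 0 := by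
    have : (a : ℤ) ≠ 0 := by exact_mod_cast ha.ne'
    exact pow_ne_zero 2 this
  have hw2 : (b : ℤ) ^ 2 - 9 * (c : ℤ) ^ 2 = (d : ℤ) ^ 2 * w := by
    apply mul_left_cancel₀ ha0
    rw [hE, hw]
    ring
  obtain ⟨r, s, hrs⟩ := hcop2
  have hw8 : w ∣ 8 := ⟨r * (9 * (a : ℤ) ^ 2 - (d : ℤ) ^ 2) + s * ((a : ℤ) ^ 2 - (d : ℤ) ^ 2), by
    linear_combination (-8) * hrs + (9 * r + s) * hw - (r + s) * hw2⟩
  have hwc : w = 1 ∨ w = 2 ∨ w = 4 ∨ w = 8 ∨ w = -1 ∨ w = -2 ∨ w = -4 ∨ w = -8 := by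
    have h1 : w.natAbs ∣ 8 := by
      have := Int.natAbs_dvd_natAbs.2 hw8
      simpa using this
    have h2 : w.natAbs ≤ 8 := Nat.le_of_dvd (by norm_num) h1
    have h3 : w.natAbs = 1 ∨ w.natAbs = 2 ∨ w.natAbs = 4 ∨ w.natAbs = 8 := by
      generalize w.natAbs = k at h1 h2
      interval_cases k <;> omega
    omega
  have e1 : ((b ^ 2 : ℕ) : ℤ) - ((c ^ 2 : ℕ) : ℤ) = ((a ^ 2 : ℕ) : ℤ) * w := by
    push_cast
    exact hw
  have e2 : ((b ^ 2 : ℕ) : ℤ) - 9 * ((c ^ 2 : ℕ) : ℤ) = ((d ^ 2 : ℕ) : ℤ) * w := by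
    push_cast
    exact hw2
  have oa := Sq_o a
  have ob := Sq_o b
  have oc := Sq_o c
  have od := Sq_o d
  have ea := Sq_e a
  have eb := Sq_e b
  have ec := Sq_e c
  have ed := Sq_e d
  have tb := Sq_3 b h3b
  have td := Sq_3 d h3d
  have n1 := Sq_cop hab
  have n2 := Sq_cop hac
  have n3 := Sq_cop had
  have n4 := Sq_cop hbc
  have n5 := Sq_cop hbd
  have n6 := Sq_cop hcd
  clear hw hw2 hrs hE heq ha0 hcop
  generalize a ^ 2 = A at *
  generalize b ^ 2 = B at *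
  generalize c ^ 2 = C at *
  generalize d ^ 2 = D at *
  have hcase : (A % 4 = 0 ∧ B % 8 = 1 ∧ C % 8 = 1 ∧ D % 8 = 1) ∨ (A % 8 = 1 ∧ B % 4 = 0 ∧ C % 8 = 1 ∧ D % 8 = 1) ∨
      (A % 8 = 1 ∧ B % 8 = 1 ∧ C % 4 = 0 ∧ D % 8 = 1) ∨ (A % 8 = 1 ∧ B % 8 = 1 ∧ C % 8 = 1 ∧ D % 4 = 0) := by
    rcases hpar with h | h | h | h
    · exact Or.inl ⟨ea h, ob (by omega), oc (by omega), od (by omega)⟩
    · exact Or.inr (Or.inl ⟨oa (by omega), eb h, oc (by omega), od (by omega)⟩)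
    · exact Or.inr (Or.inr (Or.inl ⟨oa (by omega), ob (by omega), ec h, od (by omega)⟩))
    · exact Or.inr (Or.inr (Or.inr ⟨oa (by omega), ob (by omega), oc (by omega), ed h⟩))
  clear oa ob oc od ea eb ec ed n1 n2 n3 n4 n5 n6 hpar hw8 h3b h3d hab hac had hbc hbd hcd
  rcases hwc with rfl | rfl | rfl | rfl | rfl | rfl | rfl | rfl <;>
    rcases hcase with ⟨hA, hB, hC, hD⟩ | ⟨hA, hB, hC, hD⟩ | ⟨hA, hB, hC, hD⟩ | ⟨hA, hB, hC, hD⟩ <;>
    omega

private theorem Sq_step (m n p q : ℕ) (hm : 0 < m) (hn : 0 < n) (hp : 0 < p) (hq : 0 < q) (hmn : m.Coprime n)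
    (hpq : p.Coprime q) (hpar : m % 2 = 0 ∧ n % 2 = 1 ∨ m % 2 = 1 ∧ n % 2 = 0)
    (h1 : m ^ 2 + n ^ 2 = p ^ 2 + q ^ 2) (h2 : p * q = 3 * (m * n)) (h3 : 3 ∣ p) :
    ∃ x y u v : ℕ, 0 < y ∧ y ≤ m * n ∧ u ^ 2 + y ^ 2 = x ^ 2 ∧ v ^ 2 + 9 * y ^ 2 = x ^ 2 := by
  obtain ⟨p', rfl⟩ := h3
  have hp' : 0 < p' := by omega
  have h4 : p' * q = m * n := by
    have : 3 * (p' * q) = 3 * (m * n) := by rw [← h2]; ring
    omega
  obtain ⟨c, b, hcb, hpc, hmb⟩ := Nat.exists_coprime p' m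
  set a := p'.gcd m with had
  have ha : 0 < a := Nat.gcd_pos_of_pos_left _ hp'
  have hc : 0 < c := by
    rcases Nat.eq_zero_or_pos c with h | h
    · rw [h, zero_mul] at hpc
      omega
    · exact h
  have hb : 0 < b := by
    rcases Nat.eq_zero_or_pos b with h | h
    · rw [h, zero_mul] at hmb
      omega
    · exact h
  have h5 : c * q = b * n := by
    have h6 : a * (c * q) = a * (b * n) := by
      calc a * (c * q) = (c * a) * q := by ring
        _ = (b * a) * n := by rw [← hpc, h4]; conv_lhs => rw [hmb]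
        _ = a * (b * n) := by ring
    exact Nat.eq_of_mul_eq_mul_left ha h6
  have h7 : b ∣ q := by
    have : b ∣ c * q := ⟨n, h5⟩
    exact (hcb.symm).dvd_of_dvd_mul_left this
  obtain ⟨d, hd⟩ := h7
  have h8 : n = c * d := by
    have : b * n = b * (c * d) := by
      rw [← h5, hd]
      ring
    exact Nat.eq_of_mul_eq_mul_left hb this
  have hd0 : 0 < d := by
    rcases Nat.eq_zero_or_pos d with h | h
    · rw [h, mul_zero] at hd
      omega
    · exact h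
  rw [hmb] at hmn h1 hpar ⊢
  rw [h8] at hmn h1 hpar ⊢
  rw [hpc, hd] at hpq h1
  -- coprimality
  have c1 : Nat.Coprime a b := by
    have := hpq
    exact (Nat.Coprime.coprime_dvd_left (Dvd.intro_left (3 * c) (by ring)) (Nat.Coprime.coprime_dvd_right (Dvd.intro d rfl) this))
  have c2 : Nat.Coprime a d :=
    Nat.Coprime.coprime_dvd_left (Dvd.intro_left (3 * c) (by ring))
      (Nat.Coprime.coprime_dvd_right (Dvd.intro_left b rfl) hpq)
  have c3 : Nat.Coprime a c :=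
    Nat.Coprime.coprime_dvd_left (Dvd.intro_left b rfl) (Nat.Coprime.coprime_dvd_right (Dvd.intro d rfl) hmn)
  have c4 : Nat.Coprime b c := hcb.symm
  have c5 : Nat.Coprime b d :=
    Nat.Coprime.coprime_dvd_left (Dvd.intro a rfl) (Nat.Coprime.coprime_dvd_right (Dvd.intro_left c rfl) hmn)
  have c6 : Nat.Coprime c d :=
    Nat.Coprime.coprime_dvd_left (Dvd.intro_left 3 (by ring : 3 * c = 3 * c) |>.trans (Dvd.intro a (by ring)))
      (Nat.Coprime.coprime_dvd_right (Dvd.intro_left b rfl) hpq)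
  have c7 : Nat.Coprime 3 (b * d) := Nat.Coprime.coprime_dvd_left (Dvd.intro (c * a) rfl) hpq
  have h3b : ¬ 3 ∣ b := by
    intro h
    have h9 : Nat.Coprime 3 b := Nat.Coprime.coprime_dvd_right (Dvd.intro d rfl) c7
    have := Nat.Coprime.eq_one_of_dvd h9 h
    omega
  have h3d : ¬ 3 ∣ d := by
    intro h
    have h9 : Nat.Coprime 3 d := Nat.Coprime.coprime_dvd_right (Dvd.intro_left b rfl) c7
    have := Nat.Coprime.eq_one_of_dvd h9 h
    omega
  have hpar' : a % 2 = 0 ∨ b % 2 = 0 ∨ c % 2 = 0 ∨ d % 2 = 0 := by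
    by_contra h
    push Not at h
    have o1 : a % 2 = 1 := by omega
    have o2 : b % 2 = 1 := by omega
    have o3 : c % 2 = 1 := by omega
    have o4 : d % 2 = 1 := by omega
    have o5 : (b * a) % 2 = 1 := by rw [Nat.mul_mod, o1, o2]
    have o6 : (c * d) % 2 = 1 := by rw [Nat.mul_mod, o3, o4]
    omega
  have heq : (a * b) ^ 2 + (c * d) ^ 2 = 9 * (a * c) ^ 2 + (b * d) ^ 2 := by
    calc (a * b) ^ 2 + (c * d) ^ 2 = (b * a) ^ 2 + (c * d) ^ 2 := by ring
      _ = (3 * (c * a)) ^ 2 + (b * d) ^ 2 := h1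
      _ = _ := by ring
  have hle : ∀ k l : ℕ, 0 < l → k ≤ k * l := fun k l hl => Nat.le_mul_of_pos_right k hl
  rcases Sq_desc a b c d ha c1 c3 c2 c4 c5 c6 h3b h3d hpar' heq with ⟨h9, h10⟩ | ⟨h9, h10⟩
  · refine ⟨d, a, c, b, ha, ?_, h9, h10⟩
    calc a ≤ a * (b * (c * d)) := hle _ _ (by positivity)
      _ = b * a * (c * d) := by ring
  · refine ⟨b, c, a, d, hc, ?_, h9, h10⟩
    calc c ≤ c * (b * a * d) := hle _ _ (by positivity)
      _ = b * a * (c * d) := by ring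

theorem Sq_two (x y u v : ℕ) (hy : 0 < y) (h1 : u ^ 2 + y ^ 2 = x ^ 2)
    (h2 : v ^ 2 + 9 * y ^ 2 = x ^ 2) : False := by
  induction y using Nat.strong_induction_on generalizing x u v with
  | _ y ih =>
  by_cases hco : Nat.Coprime x y
  · have hx : 0 < x := by
      rcases Nat.eq_zero_or_pos x with h | h
      · subst h
        have : 0 < y ^ 2 := by positivity
        omega
      · exact h
    -- parities
    have hye : y % 2 = 0 := by
      by_contra h
      have hY := Sq_o y (by omega)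
      have a1 := Sq_16 u
      have a2 := Sq_16 v
      have a3 := Sq_16 x
      generalize u ^ 2 = U at *
      generalize v ^ 2 = V at *
      generalize x ^ 2 = X at *
      generalize y ^ 2 = Y at *
      omega
    have hxo : x % 2 = 1 := by
      have := Sq_cop hco
      omega
    have hX := Sq_o x hxo
    have hY := Sq_e y hye
    have huo : u % 2 = 1 := by
      by_contra h
      have := Sq_e u (by omega)
      omega
    have hvo : v % 2 = 1 := by
      by_contra h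
      have := Sq_e v (by omega)
      omega
    have h3x : ¬ 3 ∣ x := by
      intro h
      have hx3 := Sq_30 x h
      have hy3 : 3 ∣ y := by
        by_contra h'
        have hy3' := Sq_3 y h'
        by_cases h'' : 3 ∣ u
        · have := Sq_30 u h''
          omega
        · have := Sq_3 u h''
          omega
      have := Nat.dvd_gcd h hy3
      rw [Nat.Coprime.gcd_eq_one hco] at this
      omega
    have hcu : Nat.Coprime u y := by
      have g1 : Nat.Coprime (x ^ 2) (y ^ 2) := Nat.Coprime.pow 2 2 hco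
      rw [← h1, Nat.coprime_add_self_left] at g1
      exact (Nat.coprime_pow_left_iff (by norm_num) _ _).1 ((Nat.coprime_pow_right_iff (by norm_num) _ _).1 g1)
    have hcv : Nat.Coprime v (3 * y) := by
      have g0 : Nat.Coprime x (3 * y) := by
        refine Nat.Coprime.mul_right ?_ hco
        exact ((Nat.Prime.coprime_iff_not_dvd Nat.prime_three).2 h3x).symm
      have g1 : Nat.Coprime (x ^ 2) ((3 * y) ^ 2) := Nat.Coprime.pow 2 2 g0
      have e : x ^ 2 = v ^ 2 + (3 * y) ^ 2 := by rw [← h2]; ring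
      rw [e, Nat.coprime_add_self_left] at g1
      exact (Nat.coprime_pow_left_iff (by norm_num) _ _).1 ((Nat.coprime_pow_right_iff (by norm_num) _ _).1 g1)
    have t1 : PythagoreanTriple (u : ℤ) (y : ℤ) (x : ℤ) := by
      unfold PythagoreanTriple
      have : (u : ℤ) ^ 2 + (y : ℤ) ^ 2 = (x : ℤ) ^ 2 := by exact_mod_cast h1
      linear_combination this
    have t2 : PythagoreanTriple (v : ℤ) ((3 * y : ℕ) : ℤ) (x : ℤ) := by
      unfold PythagoreanTriple
      have : (v : ℤ) ^ 2 + 9 * (y : ℤ) ^ 2 = (x : ℤ) ^ 2 := by exact_mod_cast h2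
      push_cast
      linear_combination this
    obtain ⟨m, n, -, hmy, hmx, hmn, hmp, hm0⟩ := t1.coprime_classification'
      (by rw [Int.gcd_natCast_natCast]; exact hcu) (by omega) (by exact_mod_cast hx)
    obtain ⟨p, q, -, hpy, hpx, hpq, -, hp0⟩ := t2.coprime_classification'
      (by rw [Int.gcd_natCast_natCast]; exact hcv) (by omega) (by exact_mod_cast hx)
    have hyZ : (0 : ℤ) < y := by exact_mod_cast hy
    have hmn0 : 0 < m * n := by nlinarith
    have hpq0 : 0 < p * q := by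
      push_cast at hpy
      nlinarith
    have hm : 0 < m := lt_of_le_of_ne hm0 fun h => by rw [← h, zero_mul] at hmn0; exact lt_irrefl _ hmn0
    have hn : 0 < n := pos_of_mul_pos_right hmn0 hm.le
    have hp : 0 < p := lt_of_le_of_ne hp0 fun h => by rw [← h, zero_mul] at hpq0; exact lt_irrefl _ hpq0
    have hq : 0 < q := pos_of_mul_pos_right hpq0 hp.le
    lift m to ℕ using hm0
    lift n to ℕ using hn.le
    lift p to ℕ using hp0
    lift q to ℕ using hq.le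
    have hm' : 0 < m := by exact_mod_cast hm
    have hn' : 0 < n := by exact_mod_cast hn
    have hp' : 0 < p := by exact_mod_cast hp
    have hq' : 0 < q := by exact_mod_cast hq
    have k1 : y = 2 * (m * n) := by
      have : (y : ℤ) = 2 * (m * n) := by rw [hmy]; ring
      exact_mod_cast this
    have k2 : 3 * y = 2 * (p * q) := by
      have : ((3 * y : ℕ) : ℤ) = 2 * (p * q) := by rw [hpy]; ring
      exact_mod_cast this
    have k3 : p * q = 3 * (m * n) := by omega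
    have k4 : m ^ 2 + n ^ 2 = p ^ 2 + q ^ 2 := by
      have : (m : ℤ) ^ 2 + (n : ℤ) ^ 2 = (p : ℤ) ^ 2 + (q : ℤ) ^ 2 := by rw [← hmx, ← hpx]
      exact_mod_cast this
    have k5 : Nat.Coprime m n := by
      rw [Int.gcd_natCast_natCast] at hmn
      exact hmn
    have k6 : Nat.Coprime p q := by
      rw [Int.gcd_natCast_natCast] at hpq
      exact hpq
    have k7 : m % 2 = 0 ∧ n % 2 = 1 ∨ m % 2 = 1 ∧ n % 2 = 0 := by omega
    have k8 : 3 ∣ p * q := ⟨m * n, k3⟩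
    have key : ∃ x y u v : ℕ, 0 < y ∧ y ≤ m * n ∧ u ^ 2 + y ^ 2 = x ^ 2 ∧ v ^ 2 + 9 * y ^ 2 = x ^ 2 := by
      rcases (Nat.Prime.dvd_mul Nat.prime_three).1 k8 with h | h
      · exact Sq_step m n p q hm' hn' hp' hq' k5 k6 k7 k4 k3 h
      · refine Sq_step m n q p hm' hn' hq' hp' k5 k6.symm k7 (by rw [k4]; ring) (by rw [← k3]; ring) h
    obtain ⟨x', y', u', v', hy', hle, h1', h2'⟩ := key
    exact ih y' (by omega) x' u' v' hy' h1' h2'
  · -- divide by the greatest common divisor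
    obtain ⟨x', y', hxy, hx, hy'⟩ := Nat.exists_coprime x y
    set g := x.gcd y with hg
    have hg0 : 0 < g := Nat.gcd_pos_of_pos_right _ hy
    have hg1 : g ≠ 1 := fun h => hco h
    have hy0 : 0 < y' := by
      rcases Nat.eq_zero_or_pos y' with h | h
      · rw [h, zero_mul] at hy'
        omega
      · exact h
    have hlt : y' < y := by
      have h2g : 2 ≤ g := by omega
      have h3 : y' * 2 ≤ y' * g := Nat.mul_le_mul_left y' h2g
      rw [← hy'] at h3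
      omega
    have hgu : g ∣ u := by
      have h3 : g ^ 2 ∣ u ^ 2 := by
        have h4 : g ^ 2 ∣ u ^ 2 + y ^ 2 := by
          rw [h1]
          exact pow_dvd_pow_of_dvd ⟨x', by rw [mul_comm]; exact hx⟩ 2
        exact (Nat.dvd_add_left (pow_dvd_pow_of_dvd ⟨y', by rw [mul_comm]; exact hy'⟩ 2)).1 h4
      exact (Nat.pow_dvd_pow_iff two_ne_zero).1 h3
    have hgv : g ∣ v := by
      have h3 : g ^ 2 ∣ v ^ 2 := by
        have h4 : g ^ 2 ∣ v ^ 2 + 9 * y ^ 2 := by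
          rw [h2]
          exact pow_dvd_pow_of_dvd ⟨x', by rw [mul_comm]; exact hx⟩ 2
        exact (Nat.dvd_add_left (Dvd.dvd.mul_left
          (pow_dvd_pow_of_dvd ⟨y', by rw [mul_comm]; exact hy'⟩ 2) 9)).1 h4
      exact (Nat.pow_dvd_pow_iff two_ne_zero).1 h3
    obtain ⟨u', hu⟩ := hgu
    obtain ⟨v', hv⟩ := hgv
    have hg2 : 0 < g ^ 2 := by positivity
    refine ih y' hlt x' u' v' hy0 ?_ ?_
    · refine Nat.eq_of_mul_eq_mul_left hg2 ?_
      calc g ^ 2 * (u' ^ 2 + y' ^ 2) = (g * u') ^ 2 + (y' * g) ^ 2 := by ring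
        _ = (x' * g) ^ 2 := by rw [← hu, ← hy', ← hx]; exact h1
        _ = g ^ 2 * x' ^ 2 := by ring
    · refine Nat.eq_of_mul_eq_mul_left hg2 ?_
      calc g ^ 2 * (v' ^ 2 + 9 * y' ^ 2) = (g * v') ^ 2 + 9 * (y' * g) ^ 2 := by ring
        _ = (x' * g) ^ 2 := by rw [← hv, ← hy', ← hx]; exact h2
        _ = g ^ 2 * x' ^ 2 := by ring

theorem Sq_four (x v : ℕ) (hv : 0 < v) (h0 : IsSquare x) (h1 : IsSquare (x + v))
    (h2 : IsSquare (x + 2 * v)) (h3 : IsSquare (x + 3 * v)) : False := by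
  obtain ⟨P, hP⟩ := h0
  obtain ⟨Q, hQ⟩ := h1
  obtain ⟨R, hR⟩ := h2
  obtain ⟨S, hS⟩ := h3
  refine Sq_two (2 * x + 3 * v) v (2 * Q * R) (2 * P * S) hv ?_ ?_
  · calc (2 * Q * R) ^ 2 + v ^ 2 = 4 * (Q * Q) * (R * R) + v ^ 2 := by ring
      _ = 4 * (x + v) * (x + 2 * v) + v ^ 2 := by rw [← hQ, ← hR]
      _ = (2 * x + 3 * v) ^ 2 := by ring
  · calc (2 * P * S) ^ 2 + 9 * v ^ 2 = 4 * (P * P) * (S * S) + 9 * v ^ 2 := by ring
      _ = 4 * x * (x + 3 * v) + 9 * v ^ 2 := by rw [← hP, ← hS]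
      _ = (2 * x + 3 * v) ^ 2 := by ring

end Pool.H74.HL
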