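import Mathlib
import Pool.Agent.H74.HL.Core
import Pool.Agent.H74.HL.Red
import Pool.Agent.H74.HL.Grow
import Pool.Agent.H74.HL.Sq

/-!
# Row Fin: the theorems for integer cubes

Fin_grow: hAP of Grow_main holds: if x + t v, t < 4, are all in H_S then a + x, a + x + v, a + x + 2v,
a + x + 3v are squares, against Sq_four.

Fin_main / Fin_dist: C from Core_main with (q, e) = (3, 2), resp. (7, 3).  I = the filter set, M = value at s₀.
Red_main gives a', c; k = |I|; |b j| ≤ e M^(1-η) for j in I gives (c i : ℝ) ≤ e M^(1-η).  Growth from Fin_grow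
(for the second case Function.Injective c).

Fin_total: choose κ' with 2/log 3 < κ' < κ (resp. 3/log 7), C from Fin_main for κ'.  Let s₀ = {i : b i > 0}, M = value at s₀ =
maximum of the cube.  All values of the cube are ≥ 0 (squares) and ≤ M, and d ≤ Σ |b i| = M - min ≤ M.  If M < 3 then d ≤ 2.
If M ≥ 3 take η = 1/log M ≤ 1: e M^(1-η) = e M / M^(1/log M) = M, and |b i| ≤ M for all i (b i is a difference of two
values), so the filter set is everything and d ≤ κ' log(log M) + C ≤ κ' log log N + C.  For N ≥ N0 the right side is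
≤ κ log log N, and 2 ≤ κ log log N.
-/

namespace Pool.H74.HL

open Finset

theorem Fin_grow (k a : ℕ) (c : Fin k → ℕ) (hc : ∀ i, 0 < c i)
    (hsq : ∀ s : Finset (Fin k), IsSquare (a + ∑ i ∈ s, c i)) (S : Finset (Fin k)) :
    3 ^ S.card ≤ (S.powerset.image (fun s => ∑ i ∈ s, c i)).card ^ 2 ∧
      (Function.Injective c → 7 ^ S.card ≤ (S.powerset.image (fun s => ∑ i ∈ s, c i)).card ^ 3) := by
  have h := Grow_main c S (fun i _ => hc i) (by
    intro x v hv hall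
    have key : ∀ t : ℕ, t < 4 → IsSquare (a + (x + t * v)) := by
      intro t ht
      have h1 := hall t ht
      rw [mem_image] at h1
      obtain ⟨s, _, hs⟩ := h1
      rw [← hs]
      exact hsq s
    have h0 := key 0 (by norm_num)
    have h1 := key 1 (by norm_num)
    have h2 := key 2 (by norm_num)
    have h3 := key 3 (by norm_num)
    refine Sq_four (a + x) v hv ?_ ?_ ?_ ?_
    · simpa using h0
    · have e : a + (x + 1 * v) = a + x + v := by ring
      rwa [e] at h1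
    · have e : a + (x + 2 * v) = a + x + 2 * v := by ring
      rwa [e] at h2
    · have e : a + (x + 3 * v) = a + x + 3 * v := by ring
      rwa [e] at h3)
  exact ⟨h.1, fun hinj => h.2 hinj.injOn⟩

theorem Fin_main (κ : ℝ) (hκ : 2 / Real.log 3 < κ) :
    ∃ C : ℝ, ∀ (d : ℕ) (a : ℤ) (b : Fin d → ℤ), (∀ i, b i ≠ 0) →
      (∀ s : Finset (Fin d), IsSquare (a + ∑ i ∈ s, b i)) →
      ∀ (s₀ : Finset (Fin d)) (η : ℝ), 3 ≤ ((a + ∑ i ∈ s₀, b i : ℤ) : ℝ) →
        1 / Real.log ((a + ∑ i ∈ s₀, b i : ℤ) : ℝ) ≤ η → η ≤ 1 →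
        ((univ.filter fun i : Fin d =>
          |(b i : ℝ)| ≤ Real.exp 1 * ((a + ∑ i ∈ s₀, b i : ℤ) : ℝ) ^ (1 - η)).card : ℝ)
            ≤ κ * Real.log (1 / η) + C := by
  obtain ⟨C, hC⟩ := Core_main 3 2 (by norm_num) (by norm_num) κ (by push_cast; exact hκ)
  refine ⟨C, ?_⟩
  intro d a b hb hsq s₀ η hM hη1 hη2
  obtain ⟨a', c, hc, hsq', h1, h2, h3, h4⟩ := Red_main d a b hb hsq s₀
    (univ.filter fun i : Fin d =>
          |(b i : ℝ)| ≤ Real.exp 1 * ((a + ∑ i ∈ s₀, b i : ℤ) : ℝ) ^ (1 - η))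
  refine hC _ a' c ((a + ∑ i ∈ s₀, b i : ℤ) : ℝ) η hc hsq' ?_ hM ?_ ?_ hη1 hη2 ?_
  · intro S
    exact (Fin_grow _ a' c hc hsq' S).1
  · have : ((a' : ℤ) : ℝ) ≤ ((a + ∑ i ∈ s₀, b i : ℤ) : ℝ) := by exact_mod_cast h1
    simpa using this
  · have : ((a + ∑ i ∈ s₀, b i : ℤ) : ℝ) ≤ (((a' : ℤ) + ∑ i, (c i : ℤ) : ℤ) : ℝ) := by
      exact_mod_cast h2
    refine le_trans this (le_of_eq ?_)
    push_cast
    rfl
  · intro i
    obtain ⟨j, hj, hij⟩ := h3 i
    rw [mem_filter] at hj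
    have e : (c i : ℝ) = |(b j : ℝ)| := by
      have : ((c i : ℤ) : ℝ) = ((|b j| : ℤ) : ℝ) := by rw [hij]
      simpa using this
    rw [e]
    exact hj.2

theorem Fin_dist (κ : ℝ) (hκ : 3 / Real.log 7 < κ) :
    ∃ C : ℝ, ∀ (d : ℕ) (a : ℤ) (b : Fin d → ℤ), (∀ i, b i ≠ 0) →
      Function.Injective (fun i => |b i|) →
      (∀ s : Finset (Fin d), IsSquare (a + ∑ i ∈ s, b i)) →
      ∀ (s₀ : Finset (Fin d)) (η : ℝ), 3 ≤ ((a + ∑ i ∈ s₀, b i : ℤ) : ℝ) →
        1 / Real.log ((a + ∑ i ∈ s₀, b i : ℤ) : ℝ) ≤ η → η ≤ 1 →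
        ((univ.filter fun i : Fin d =>
          |(b i : ℝ)| ≤ Real.exp 1 * ((a + ∑ i ∈ s₀, b i : ℤ) : ℝ) ^ (1 - η)).card : ℝ)
            ≤ κ * Real.log (1 / η) + C := by
  obtain ⟨C, hC⟩ := Core_main 7 3 (by norm_num) (by norm_num) κ (by push_cast; exact hκ)
  refine ⟨C, ?_⟩
  intro d a b hb hinj hsq s₀ η hM hη1 hη2
  obtain ⟨a', c, hc, hsq', h1, h2, h3, h4⟩ := Red_main d a b hb hsq s₀
    (univ.filter fun i : Fin d =>
          |(b i : ℝ)| ≤ Real.exp 1 * ((a + ∑ i ∈ s₀, b i : ℤ) : ℝ) ^ (1 - η))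
  have hinjc : Function.Injective c := h4 (fun i _ j _ h => hinj h)
  refine hC _ a' c ((a + ∑ i ∈ s₀, b i : ℤ) : ℝ) η hc hsq' ?_ hM ?_ ?_ hη1 hη2 ?_
  · intro S
    exact (Fin_grow _ a' c hc hsq' S).2 hinjc
  · have : ((a' : ℤ) : ℝ) ≤ ((a + ∑ i ∈ s₀, b i : ℤ) : ℝ) := by exact_mod_cast h1
    simpa using this
  · have : ((a + ∑ i ∈ s₀, b i : ℤ) : ℝ) ≤ (((a' : ℤ) + ∑ i, (c i : ℤ) : ℤ) : ℝ) := by
      exact_mod_cast h2
    refine le_trans this (le_of_eq ?_)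
    push_cast
    rfl
  · intro i
    obtain ⟨j, hj, hij⟩ := h3 i
    rw [mem_filter] at hj
    have e : (c i : ℝ) = |(b j : ℝ)| := by
      have : ((c i : ℤ) : ℝ) = ((|b j| : ℤ) : ℝ) := by rw [hij]
      simpa using this
    rw [e]
    exact hj.2

theorem Fin_log3 : (1 : ℝ) < Real.log 3 := by
  rw [Real.lt_log_iff_exp_lt (by norm_num)]
  have := Real.exp_one_lt_d9
  linarith

theorem Fin_red (κ κ' C : ℝ) (h0 : 0 < κ') (hκ : κ' < κ) :
    ∃ N₀ : ℝ, ∀ (N : ℝ), N₀ ≤ N → ∀ (d : ℕ) (a : ℤ) (b : Fin d → ℤ), (∀ i, b i ≠ 0) →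
      (∀ s : Finset (Fin d), IsSquare (a + ∑ i ∈ s, b i) ∧ ((a + ∑ i ∈ s, b i : ℤ) : ℝ) ≤ N) →
      (∀ (s₀ : Finset (Fin d)) (η : ℝ), 3 ≤ ((a + ∑ i ∈ s₀, b i : ℤ) : ℝ) →
        1 / Real.log ((a + ∑ i ∈ s₀, b i : ℤ) : ℝ) ≤ η → η ≤ 1 →
        ((univ.filter fun i : Fin d =>
          |(b i : ℝ)| ≤ Real.exp 1 * ((a + ∑ i ∈ s₀, b i : ℤ) : ℝ) ^ (1 - η)).card : ℝ)
            ≤ κ' * Real.log (1 / η) + C) →
      (d : ℝ) ≤ κ * Real.log (Real.log N) := by
  have hκ0 : 0 < κ := h0.trans hκ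
  have hd0 : 0 < κ - κ' := sub_pos.2 hκ
  refine ⟨Real.exp (Real.exp (max (2 / κ) (|C| / (κ - κ')))), ?_⟩
  intro N hN d a b hb hall hmain
  set T := max (2 / κ) (|C| / (κ - κ')) with hT
  have hN1 : Real.exp T ≤ Real.log N := by
    rw [Real.le_log_iff_exp_le (lt_of_lt_of_le (Real.exp_pos _) hN)]
    exact hN
  have hN2 : T ≤ Real.log (Real.log N) := by
    rw [Real.le_log_iff_exp_le (lt_of_lt_of_le (Real.exp_pos _) hN1)]
    exact hN1
  have hT1 : 2 ≤ κ * Real.log (Real.log N) := by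
    have h1 : 2 / κ ≤ Real.log (Real.log N) := le_trans (le_max_left _ _) hN2
    rw [div_le_iff₀ hκ0] at h1
    linarith
  have hT2 : C ≤ (κ - κ') * Real.log (Real.log N) := by
    have h1 : |C| / (κ - κ') ≤ Real.log (Real.log N) := le_trans (le_max_right _ _) hN2
    rw [div_le_iff₀ hd0] at h1
    have := le_abs_self C
    linarith
  -- the maximum
  set s₀ : Finset (Fin d) := univ.filter (fun i => 0 < b i) with hs₀
  have hnonneg : ∀ s : Finset (Fin d), 0 ≤ a + ∑ i ∈ s, b i := fun s => (hall s).1.nonneg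
  have hmax : ∀ s : Finset (Fin d), a + ∑ i ∈ s, b i ≤ a + ∑ i ∈ s₀, b i := by
    intro s
    have h1 : ∑ i ∈ s, b i ≤ ∑ i ∈ s, (if 0 < b i then b i else 0) := by
      apply sum_le_sum
      intro i _
      split_ifs with h
      · exact le_rfl
      · omega
    have h2 : ∑ i ∈ s, (if 0 < b i then b i else 0) ≤ ∑ i, (if 0 < b i then b i else 0) := by
      apply sum_le_sum_of_subset_of_nonneg (subset_univ _)
      intro i _ _
      split_ifs with h
      · exact h.le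
      · exact le_rfl
    have h3 : ∑ i, (if 0 < b i then b i else 0) = ∑ i ∈ s₀, b i := by
      rw [hs₀, sum_filter]
    linarith
  have habs : ∑ i, |b i| ≤ a + ∑ i ∈ s₀, b i := by
    have h1 : ∑ i, |b i| = ∑ i ∈ s₀, b i - ∑ i ∈ univ.filter (fun i => ¬ 0 < b i), b i := by
      rw [← sum_filter_add_sum_filter_not univ (fun i => 0 < b i) (fun i => |b i|)]
      have e1 : ∑ i ∈ univ.filter (fun i => 0 < b i), |b i| = ∑ i ∈ s₀, b i := by
        apply sum_congr rfl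
        intro i hi
        rw [mem_filter] at hi
        exact abs_of_pos hi.2
      have e2 : ∑ i ∈ univ.filter (fun i => ¬ 0 < b i), |b i| =
          - ∑ i ∈ univ.filter (fun i => ¬ 0 < b i), b i := by
        rw [← sum_neg_distrib]
        apply sum_congr rfl
        intro i hi
        rw [mem_filter] at hi
        exact abs_of_nonpos (not_lt.1 hi.2)
      rw [e1, e2]
      ring
    have h2 := hnonneg (univ.filter (fun i => ¬ 0 < b i))
    rw [h1]
    linarith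
  have hdle : (d : ℤ) ≤ a + ∑ i ∈ s₀, b i := by
    refine le_trans ?_ habs
    have h1 : ∑ i : Fin d, (1 : ℤ) ≤ ∑ i, |b i| := by
      apply sum_le_sum
      intro i _
      exact Int.one_le_abs (hb i)
    simpa using h1
  by_cases hM : (3 : ℤ) ≤ a + ∑ i ∈ s₀, b i
  · have hMr : (3 : ℝ) ≤ ((a + ∑ i ∈ s₀, b i : ℤ) : ℝ) := by exact_mod_cast hM
    obtain ⟨M, hMd⟩ : ∃ M : ℝ, M = ((a + ∑ i ∈ s₀, b i : ℤ) : ℝ) := ⟨_, rfl⟩
    have hlog : 1 < Real.log M := by
      refine lt_of_lt_of_le Fin_log3 (Real.log_le_log (by norm_num) ?_)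
      rw [hMd]; exact hMr
    have hMpos : 0 < M := by rw [hMd]; linarith
    have hlogpos : 0 < Real.log M := by linarith
    have h1 := hmain s₀ (1 / Real.log M) hMr (by rw [hMd]) (by
      rw [div_le_one hlogpos]; exact hlog.le)
    have hpow : Real.exp 1 * M ^ (1 - 1 / Real.log M) = M := by
      rw [Real.rpow_def_of_pos hMpos]
      rw [← Real.exp_add]
      have e : 1 + Real.log M * (1 - 1 / Real.log M) = Real.log M := by
        field_simp
        ring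
      rw [e, Real.exp_log hMpos]
    have hfull : (univ.filter fun i : Fin d =>
        |(b i : ℝ)| ≤ Real.exp 1 * ((a + ∑ i ∈ s₀, b i : ℤ) : ℝ) ^ (1 - 1 / Real.log M)) = univ := by
      rw [filter_true_of_mem]
      intro i _
      rw [← hMd, hpow, hMd]
      have h2 : |b i| ≤ a + ∑ i ∈ s₀, b i := by
        refine le_trans ?_ habs
        exact single_le_sum (f := fun i => |b i|) (fun j _ => abs_nonneg (b j)) (mem_univ i)
      have h3 : ((|b i| : ℤ) : ℝ) ≤ ((a + ∑ i ∈ s₀, b i : ℤ) : ℝ) := by exact_mod_cast h2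
      rwa [Int.cast_abs] at h3
    rw [hfull, card_univ, Fintype.card_fin, one_div_one_div] at h1
    have hMN : Real.log (Real.log M) ≤ Real.log (Real.log N) := by
      apply Real.log_le_log hlogpos
      apply Real.log_le_log hMpos
      rw [hMd]
      exact (hall s₀).2
    have h4 : κ' * Real.log (Real.log M) ≤ κ' * Real.log (Real.log N) :=
      mul_le_mul_of_nonneg_left hMN h0.le
    have h5 : (κ - κ') * Real.log (Real.log N) =
      κ * Real.log (Real.log N) - κ' * Real.log (Real.log N) := by ring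
    linarith
  · have h1 : (d : ℤ) ≤ 2 := by omega
    have h2 : (d : ℝ) ≤ 2 := by exact_mod_cast h1
    linarith

theorem Fin_total (κ : ℝ) (hκ : 2 / Real.log 3 < κ) :
    ∃ N₀ : ℝ, ∀ (N : ℝ), N₀ ≤ N → ∀ (d : ℕ) (a : ℤ) (b : Fin d → ℤ), (∀ i, b i ≠ 0) →
      (∀ s : Finset (Fin d), IsSquare (a + ∑ i ∈ s, b i) ∧ ((a + ∑ i ∈ s, b i : ℤ) : ℝ) ≤ N) →
      (d : ℝ) ≤ κ * Real.log (Real.log N) := by
  obtain ⟨κ', h1, h2⟩ := exists_between hκ
  obtain ⟨C, hC⟩ := Fin_main κ' h1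
  have h0 : 0 < κ' := by
    refine lt_trans ?_ h1
    have := Fin_log3
    positivity
  obtain ⟨N₀, hN⟩ := Fin_red κ κ' C h0 h2
  refine ⟨N₀, ?_⟩
  intro N hN0 d a b hb hall
  exact hN N hN0 d a b hb hall (hC d a b hb (fun s => (hall s).1))

theorem Fin_totalDist (κ : ℝ) (hκ : 3 / Real.log 7 < κ) :
    ∃ N₀ : ℝ, ∀ (N : ℝ), N₀ ≤ N → ∀ (d : ℕ) (a : ℤ) (b : Fin d → ℤ), (∀ i, b i ≠ 0) →
      Function.Injective (fun i => |b i|) →
      (∀ s : Finset (Fin d), IsSquare (a + ∑ i ∈ s, b i) ∧ ((a + ∑ i ∈ s, b i : ℤ) : ℝ) ≤ N) →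
      (d : ℝ) ≤ κ * Real.log (Real.log N) := by
  obtain ⟨κ', h1, h2⟩ := exists_between hκ
  obtain ⟨C, hC⟩ := Fin_dist κ' h1
  have h0 : 0 < κ' := by
    refine lt_trans ?_ h1
    have h3 : 0 < Real.log 7 := Real.log_pos (by norm_num)
    positivity
  obtain ⟨N₀, hN⟩ := Fin_red κ κ' C h0 h2
  refine ⟨N₀, ?_⟩
  intro N hN0 d a b hb hinj hall
  exact hN N hN0 d a b hb hall (hC d a b hb hinj (fun s => (hall s).1))

end Pool.H74.HL
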